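import Pool.Agent.Y728.MN.LvP
import Pool.Agent.Y728.AK.ProxK2

/-!
# Proximity functions of points of products of curves, curves over a subfield (helper728)
-/

set_option autoImplicit false

namespace Pool.Agent.Y728.MN

open NumberField IsDedekindDomain Height Finset Pool.Agent.TH876.Loc Polynomial
open Pool.Agent.H691R3 hiding mt av mt_pos
open Pool.Agent.Y728.AK
open Pool.Agent.H951R3.V (ell ell_pos)
open Pool.Agent.TH876.KR (form counting localHeight localHeight_pos_iff m2)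

section

variable {L : Type} [Field L] [NumberField L]

open Classical in
/-- the primes of `F` not above a prime in `S` -/
noncomputable def outS (S : Finset ℕ) (F : Finset (HeightOneSpectrum (𝓞 L))) :
    Finset (HeightOneSpectrum (𝓞 L)) :=
  F.filter fun v => ¬ ∃ p ∈ S, (p : 𝓞 L) ∈ v.asIdeal

open Classical in
theorem mem_outS (S : Finset ℕ) (F : Finset (HeightOneSpectrum (𝓞 L)))
    (v : HeightOneSpectrum (𝓞 L)) :
    v ∈ outS S F ↔ v ∈ F ∧ ¬ ∃ p ∈ S, (p : 𝓞 L) ∈ v.asIdeal := by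
  unfold outS
  exact Finset.mem_filter

theorem wt_outS (S : Finset ℕ) (hS : ∀ p ∈ S, p.Prime)
    (F : Finset (HeightOneSpectrum (𝓞 L))) :
    wt F ≤ wt (outS S F) + Module.finrank ℚ L * ∑ p ∈ S, Real.log p := by
  classical
  have h3 := Pool.Agent.W223.AC.cc_outside (L := L) Pool.Agent.W803.AC.t S hS
    (fun v => v ∈ F) (Finset.finite_toSet F)
  have e1 : Pool.Agent.W223.CV.cc ∅ (fun v : HeightOneSpectrum (𝓞 L) => v ∈ F) = wt F := by
    unfold Pool.Agent.W223.CV.cc wt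
    rw [finsum_eq_sum_of_support_subset (s := F)]
    · refine Finset.sum_congr rfl fun v hv => ?_
      exact Pool.Agent.W223.CV.ct_pos ⟨fun p hp => absurd hp (Finset.notMem_empty p), hv⟩
    · intro v hv
      rw [Finset.mem_coe]
      by_contra hcon
      exact hv (Pool.Agent.W223.CV.ct_neg fun h => hcon h.2)
  have e2 : Pool.Agent.W223.CV.cc S (fun v : HeightOneSpectrum (𝓞 L) => v ∈ F) =
      wt (outS S F) := by
    unfold Pool.Agent.W223.CV.cc wt
    rw [finsum_eq_sum_of_support_subset (s := outS S F)]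
    · refine Finset.sum_congr rfl fun v hv => ?_
      rw [mem_outS] at hv
      exact Pool.Agent.W223.CV.ct_pos ⟨fun p hp hpv => hv.2 ⟨p, hp, hpv⟩, hv.1⟩
    · intro v hv
      rw [Finset.mem_coe, mem_outS]
      by_contra hcon
      refine hv (Pool.Agent.W223.CV.ct_neg fun h => hcon ?_)
      exact ⟨h.2, fun ⟨p, hp, hpv⟩ => h.1 p hp hpv⟩
  rw [e1, e2] at h3
  exact h3

theorem prG_le2 (S : Finset ℕ) {x y : L} (h : x ≠ y)
    (F : Finset (HeightOneSpectrum (𝓞 L))) (hF : ∀ v, v ∈ F ↔ Meet v (pt x) (pt y)) :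
    wt (outS S F) + prG S x y ≤ logHeight₁ x + logHeight₁ y +
      Module.finrank ℚ L * Real.log 2 := by
  classical
  obtain ⟨Q1, hQ1⟩ : ∃ Q1 : Finset (HeightOneSpectrum (𝓞 L)),
    Q1 = F.filter fun v => ∃ p ∈ S, (p : 𝓞 L) ∈ v.asIdeal := ⟨_, rfl⟩
  have hdisj : Disjoint (outS S F) Q1 := by
    rw [Finset.disjoint_left]
    intro v hv hv'
    rw [mem_outS] at hv
    rw [hQ1, Finset.mem_filter] at hv'
    exact hv.2 hv'.2
  have h1 := lam_le h (outS S F) Q1 (fun v hv => by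
    rw [mem_outS] at hv
    exact (hF v).1 hv.1) hdisj
  have h2 : ∑ᶠ v : HeightOneSpectrum (𝓞 L),
      (if ∃ p ∈ S, (p : 𝓞 L) ∈ v.asIdeal then lamF v x y else 0) = ∑ v ∈ Q1, lamF v x y := by
    rw [finsum_eq_sum_of_support_subset (s := Q1)]
    · refine Finset.sum_congr rfl fun v hv => ?_
      rw [hQ1, Finset.mem_filter] at hv
      exact if_pos hv.2
    · intro v hv
      rw [Function.mem_support] at hv
      rw [Finset.mem_coe, hQ1, Finset.mem_filter]
      by_cases h3 : ∃ p ∈ S, (p : 𝓞 L) ∈ v.asIdeal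
      · rw [if_pos h3] at hv
        exact ⟨(hF v).2 (meet_of_lamF h hv), h3⟩
      · rw [if_neg h3] at hv
        exact absurd rfl hv
  rw [NumberField.totalWeight_eq_finrank] at h1
  unfold prG
  rw [h2]
  linarith

end

variable {k K : Type} [Field k] [NumberField k] [Field K] [NumberField K] [Algebra k K]
  {m q : ℕ} {A : Fin m → Type} [∀ i, CommRing (A i)] [∀ i, Algebra k (A i)]
  [∀ i, Algebra k[X] (A i)]

/-- **the proximity function of a point over `L`**, curves over `k`, points above `K ^ m` -/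
theorem levQ [∀ i, IsDedekindDomain (A i)] [∀ i, IsScalarTower k k[X] (A i)]
    [∀ i, Module.Finite k[X] (A i)] [∀ i, FaithfulSMul k[X] (A i)] (hq : 1 ≤ q) (a : Fin q → k)
    (u : Fin m → Fin q → ℕ) (y : ∀ i j, Fin (u i j + 1) → A i)
    (hy0 : ∀ i j, y i j 0 = crd k (A i) - algebraMap k (A i) (a j))
    (hyr : ∀ i j l, y i j l ∈ (Ideal.span {crd k (A i) - algebraMap k (A i) (a j)}).radical)
    {G : Finset (Fin m × Fin m)} (hG : ∀ p ∈ G, p.1 < p.2) {ε : ℝ} (hε : 0 < ε) :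
    ∃ (Gp : Fin m → ℚ[X]) (C : ℝ), (∀ i, Gp i ≠ 0) ∧
      ∀ (x : Fin m → K) (hf : ∀ i j, form (pK (algebraMap k K (a j))) (pt (x i)) ≠ 0)
        (hx : Function.Injective x),
        (∀ i, aeval (x i) (Gp i) ≠ 0) →
        ∀ (L : Type) [Field L] [NumberField L] [Algebra k L] [Algebra K L] [IsScalarTower k K L]
          (φ : ∀ i, A i →ₐ[k] L),
          (∀ i, φ i (crd k (A i)) = algebraMap K L (x i)) →
          (∀ i j, {v : HeightOneSpectrum (𝓞 L) |
            Pool.Agent.W223.AC.lamF (y i j) (φ i : A i →+* L) v ≠ 0}.Finite) ∧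
          ∀ S : Finset ℕ, (∀ p ∈ S, p.Prime) →
          (Module.finrank K L : ℝ) *
            (wt (bdT_fin (S := ((∅ : Finset (HeightOneSpectrum (𝓞 K))) :
              Set (HeightOneSpectrum (𝓞 K)))) (a := fun j => pK (algebraMap k K (a j)))
              hf hx univ hG).toFinset + Real.log |(discr K : ℝ)| - C) +
            (∑ i, ∑ j, (∑ w : InfinitePlace L, (w.mult : ℝ) *
              Pool.Agent.W223.AC.lamI (y i j) (φ i : A i →+* L) w +
                Pool.Agent.W223.AC.mS S (y i j) (φ i : A i →+* L)) +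
              ∑ p ∈ G, prG S (algebraMap K L (x p.1)) (algebraMap K L (x p.2))) ≤
            Real.log |(discr L : ℝ)| + (Module.finrank K L : ℝ) *
              (∑ i, ((∑ j, (Module.finrank k (A i ⧸ Ideal.span (Set.range (y i j))) : ℝ)) /
                Module.finrank k[X] (A i) + ε) * logHeight₁ (x i) +
                ∑ p ∈ G, (logHeight₁ (x p.1) + logHeight₁ (x p.2)) +
                Module.finrank ℚ K * ∑ p ∈ S, Real.log p) := by
  classical
  have hkey := fun i => Pool.Agent.Y728.AK.PX.proxK2 k (A i) hq a (u i) (y i) (hy0 i) (hyr i) ε hε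
  choose M Ck Gp hM hCk hGp hkey using hkey
  obtain ⟨T, hT⟩ : ∃ T : Finset ℕ,
    T = (univ : Finset (Fin m)).biUnion fun i => (M i).primeFactors := ⟨_, rfl⟩
  have hTM : ∀ i, (M i).primeFactors ⊆ T := by
    intro i
    rw [hT]
    exact Finset.subset_biUnion_of_mem (fun i => (M i).primeFactors) (Finset.mem_univ i)
  have hTp : ∀ p ∈ T, p.Prime := by
    intro p hp
    rw [hT] at hp
    obtain ⟨i, -, hi⟩ := Finset.mem_biUnion.1 hp
    exact Nat.prime_of_mem_primeFactors hi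
  obtain ⟨b, hb⟩ : ∃ b : Fin q → K, b = fun j => algebraMap k K (a j) := ⟨_, rfl⟩
  have hbj : ∀ j, algebraMap k K (a j) = b j := fun j => by rw [hb]
  obtain ⟨S', hSS', hS'1, hS'2⟩ := exists_big b ∅ T hTp
  obtain ⟨d, hd⟩ : ∃ d : ℝ, d = (Module.finrank ℚ K : ℝ) := ⟨_, rfl⟩
  refine ⟨Gp, wt S' + d * (∑ i, Ck i + G.card * Real.log 2), hGp, ?_⟩
  intro x hf hx hGx L _ _ _ _ _ φ hφ
  obtain ⟨ξ, hξ⟩ : ∃ ξ : Fin m → L, ξ = fun i => algebraMap K L (x i) := ⟨_, rfl⟩
  have hφξ : ∀ i, φ i (crd k (A i)) = ξ i := by intro i; rw [hφ i, hξ]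
  have hxa : ∀ i j, x i ≠ b j := by
    intro i j h
    apply hf i j
    show form (pK (algebraMap k K (a j))) ![x i, 1] = 0
    rw [formK, h, hbj, sub_self]
  have hne : ∀ i j, ξ i ≠ algebraMap k L (a j) := by
    intro i j h
    rw [hξ, IsScalarTower.algebraMap_apply k K L] at h
    exact hxa i j (((algebraMap K L).injective h).trans (hbj j))
  have hinj : Function.Injective ξ := by
    rw [hξ]
    exact (algebraMap K L).injective.comp hx
  have hkey' := fun i => hkey i L (φ i) (by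
      have : φ i (algebraMap k[X] (A i) X) = algebraMap K L (x i) := hφ i
      rw [this, aeval_algebraMap_apply]
      intro h
      exact hGx i ((map_eq_zero _).1 h)) (by
      intro j
      have : φ i (algebraMap k[X] (A i) X) = ξ i := hφξ i
      rw [this]
      exact hne i j)
  refine ⟨fun i j => (hkey' i).1 j, fun S hS => ?_⟩
  -- the finite sets
  obtain ⟨Af, hAf⟩ : ∃ Af : Fin m → Finset (HeightOneSpectrum (𝓞 L)),
    Af = fun i => (Pool.Agent.Y729.RV.nr_fin (M i).primeFactors (hne i)).toFinset := ⟨_, rfl⟩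
  have hAm : ∀ i w, w ∈ Af i ↔ Pool.Agent.Y729.RV.Nr (M i).primeFactors a (ξ i) w := by
    intro i w
    rw [hAf, Set.Finite.mem_toFinset]
    rfl
  obtain ⟨AS, hAS⟩ : ∃ AS : Fin m → Finset (HeightOneSpectrum (𝓞 L)),
    AS = fun i => (Pool.Agent.Y729.RV.nr_fin ((M i).primeFactors ∪ S) (hne i)).toFinset :=
      ⟨_, rfl⟩
  have hASm : ∀ i w, w ∈ AS i ↔
      Pool.Agent.Y729.RV.Nr ((M i).primeFactors ∪ S) a (ξ i) w := by
    intro i w
    rw [hAS, Set.Finite.mem_toFinset]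
    rfl
  have hmfin : ∀ p : Fin m × Fin m, p.1 < p.2 →
      {w : HeightOneSpectrum (𝓞 L) | Meet w (pt (ξ p.1)) (pt (ξ p.2))}.Finite := by
    intro p hp
    refine (nr_fin (form_pt_ne fun h => hp.ne (hinj h))).subset fun w hw => ?_
    exact (meet_iff w _ _).1 hw
  obtain ⟨Mf, hMf⟩ : ∃ Mf : Fin m × Fin m → Finset (HeightOneSpectrum (𝓞 L)),
    Mf = fun p => if h : p.1 < p.2 then (hmfin p h).toFinset else ∅ := ⟨_, rfl⟩
  have hMm : ∀ p, p.1 < p.2 → ∀ w, w ∈ Mf p ↔ Meet w (pt (ξ p.1)) (pt (ξ p.2)) := by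
    intro p hp w
    rw [hMf]
    beta_reduce
    rw [dif_pos hp, Set.Finite.mem_toFinset]
    rfl
  -- the key inequality for every curve
  have hdiff : ∀ i, wt (AS i) + ∑ j, (∑ w : InfinitePlace L, (w.mult : ℝ) *
      Pool.Agent.W223.AC.lamI (y i j) (φ i : A i →+* L) w +
        Pool.Agent.W223.AC.mS S (y i j) (φ i : A i →+* L)) ≤
      ((∑ j, (Module.finrank k (A i ⧸ Ideal.span (Set.range (y i j))) : ℝ)) /
        Module.finrank k[X] (A i) + ε) * Real.log (mulHeight₁ (ξ i)) +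
        Module.finrank ℚ L * Ck i := by
    intro i
    have h1 := (hkey' i).2 S hS
    have e0 : φ i (algebraMap k[X] (A i) X) = ξ i := hφξ i
    rw [e0] at h1
    have e1 : Pool.Agent.Y729.RV.cnt ((M i).primeFactors ∪ S) a (ξ i) = wt (AS i) := by
      rw [Pool.Agent.Y729.RV.cnt_eq ((M i).primeFactors ∪ S) (hne i), hAS]
      rfl
    rw [e1] at h1
    exact h1
  -- the diagonals
  have hdia : ∀ p ∈ G, wt (outS S (Mf p)) + prG S (ξ p.1) (ξ p.2) ≤
      logHeight₁ (ξ p.1) + logHeight₁ (ξ p.2) + Module.finrank ℚ L * Real.log 2 := by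
    intro p hp
    exact prG_le2 S (fun h => (hG p hp).ne (hinj h)) (Mf p) (hMm p (hG p hp))
  obtain ⟨WA, hWA⟩ : ∃ WA : Finset (HeightOneSpectrum (𝓞 L)),
    WA = (univ : Finset (Fin m)).biUnion Af ∪ G.biUnion Mf := ⟨_, rfl⟩
  have hWS : wt (outS S WA) ≤ ∑ i, wt (AS i) + ∑ p ∈ G, wt (outS S (Mf p)) := by
    have h1 : outS S WA ⊆ (univ : Finset (Fin m)).biUnion AS ∪
        G.biUnion fun p => outS S (Mf p) := by
      intro w hw
      rw [mem_outS, hWA, Finset.mem_union, Finset.mem_biUnion, Finset.mem_biUnion] at hw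
      obtain ⟨h1, h2⟩ := hw
      rw [Finset.mem_union, Finset.mem_biUnion, Finset.mem_biUnion]
      rcases h1 with ⟨i, hi, h1⟩ | ⟨p, hp, h1⟩
      · left
        refine ⟨i, hi, ?_⟩
        rw [hAm] at h1
        rw [hASm]
        refine ⟨fun l hl hlw => ?_, h1.2⟩
        rcases Finset.mem_union.1 hl with hl | hl
        · exact h1.1 l hl hlw
        · exact h2 ⟨l, hl, hlw⟩
      · right
        exact ⟨p, hp, (mem_outS S (Mf p) w).2 ⟨h1, h2⟩⟩
    exact (wt_mono h1).trans ((wt_union_le _ _).trans (add_le_add (wt_biUnion_le _ _)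
      (wt_biUnion_le _ _)))
  have hWle := wt_outS S hS WA
  -- the base change
  obtain ⟨Bd, hBd⟩ : ∃ Bd : Finset (HeightOneSpectrum (𝓞 K)),
    Bd = (bdT_fin (S := ((∅ : Finset (HeightOneSpectrum (𝓞 K))) :
      Set (HeightOneSpectrum (𝓞 K)))) (a := fun j => pK (algebraMap k K (a j))) hf hx univ
        hG).toFinset := ⟨_, rfl⟩
  have hBdm : ∀ v, v ∈ Bd ↔ v ∈ bdT ((∅ : Finset (HeightOneSpectrum (𝓞 K))) :
      Set (HeightOneSpectrum (𝓞 K))) (fun j => pK (algebraMap k K (a j))) univ G x := by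
    intro v
    rw [hBd, Set.Finite.mem_toFinset]
  have hbase := Pool.Agent.Y729.RV.base_change (k := K) (L := L) (Bd.filter fun v => v ∉ S') WA (by
    intro v hv w hw
    rw [Finset.mem_filter, hBdm] at hv
    obtain ⟨⟨-, hv⟩, hvS'⟩ := hv
    rw [hWA, Finset.mem_union, Finset.mem_biUnion, Finset.mem_biUnion]
    rcases hv with ⟨p, -, hv⟩ | ⟨p, hp, hv⟩
    · left
      refine ⟨p.1, Finset.mem_univ _, ?_⟩
      rw [hAm, hξ]
      beta_reduce
      rw [Pool.Agent.Y729.RV.nr_iff (M p.1).primeFactors a (x p.1) v w]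
      rw [← meet_iff] at hv
      have hv' : v.valuation K (algebraMap k K (a p.2) - x p.1) <
          max (v.valuation K (algebraMap k K (a p.2))) 1 * max (v.valuation K (x p.1)) 1 :=
        (meet_pt v (algebraMap k K (a p.2)) (x p.1)).1 hv
      rw [hbj, max_eq_right (hS'2 v hvS' p.2), one_mul, ← neg_sub, Valuation.map_neg] at hv'
      have h3 : v.valuation K (x p.1) ≤ 1 := by
        by_contra hcon
        rw [not_le] at hcon
        have h4 : v.valuation K (x p.1 - b p.2) = v.valuation K (x p.1) :=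
          Valuation.map_sub_eq_of_lt_left _ ((hS'2 v hvS' p.2).trans_lt hcon)
        rw [h4, max_eq_left hcon.le] at hv'
        exact lt_irrefl _ hv'
      rw [max_eq_right h3, ← hbj] at hv'
      exact ⟨fun l hl => hS'1 v hvS' l (hTM _ hl), h3, p.2, hv'⟩
    · right
      refine ⟨p, hp, ?_⟩
      rw [hMm p (hG p hp), hξ]
      beta_reduce
      rw [← pt_map, ← pt_map, meet_over v w, meet_iff]
      exact hv)
  have hbase' : (Module.finrank K L : ℝ) * (Real.log |(discr K : ℝ)| +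
      wt (Bd.filter fun v => v ∉ S')) ≤ Real.log |(discr L : ℝ)| + wt WA := hbase
  have hBdle : wt Bd ≤ wt (Bd.filter fun v => v ∉ S') + wt S' := by
    refine (wt_mono (fun v hv => ?_)).trans (wt_union_le _ _)
    rw [Finset.mem_union, Finset.mem_filter]
    by_cases h : v ∈ S'
    · exact Or.inr h
    · exact Or.inl ⟨hv, h⟩
  -- put everything together
  have hfd : FiniteDimensional K L := Module.Finite.of_restrictScalars_finite ℚ K L
  obtain ⟨mL, hmL⟩ : ∃ mL : ℝ, mL = (Module.finrank K L : ℝ) := ⟨_, rfl⟩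
  have hm0 : 0 < mL := by rw [hmL]; exact_mod_cast Module.finrank_pos
  have htow : (Module.finrank ℚ L : ℝ) = d * mL := by
    rw [hd, hmL]
    exact_mod_cast (Module.finrank_mul_finrank ℚ K L).symm
  have hH : ∀ i, Real.log (mulHeight₁ (ξ i)) = mL * logHeight₁ (x i) := by
    intro i
    rw [hξ, hmL, logHeight₁_eq_log_mulHeight₁]
    exact Pool.Agent.W223.AC.MK.log_height_ext L (x i)
  have hH' : ∀ i, logHeight₁ (ξ i) = mL * logHeight₁ (x i) := by
    intro i
    rw [logHeight₁_eq_log_mulHeight₁]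
    exact hH i
  obtain ⟨R, hR⟩ : ∃ R : ℝ, R = ∑ p ∈ S, Real.log p := ⟨_, rfl⟩
  obtain ⟨W1, hW1⟩ : ∃ W1 : ℝ, W1 = ∑ i, ∑ j, (∑ w : InfinitePlace L, (w.mult : ℝ) *
      Pool.Agent.W223.AC.lamI (y i j) (φ i : A i →+* L) w +
        Pool.Agent.W223.AC.mS S (y i j) (φ i : A i →+* L)) := ⟨_, rfl⟩
  obtain ⟨W2, hW2⟩ : ∃ W2 : ℝ, W2 = ∑ p ∈ G, prG S (ξ p.1) (ξ p.2) := ⟨_, rfl⟩
  have hW2' : ∑ p ∈ G, prG S (algebraMap K L (x p.1)) (algebraMap K L (x p.2)) = W2 := by
    rw [hW2, hξ]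
  obtain ⟨N1, hN1⟩ : ∃ N1 : ℝ, N1 = ∑ i,
      ((∑ j, (Module.finrank k (A i ⧸ Ideal.span (Set.range (y i j))) : ℝ)) /
        Module.finrank k[X] (A i) + ε) * logHeight₁ (x i) := ⟨_, rfl⟩
  obtain ⟨N2, hN2⟩ : ∃ N2 : ℝ, N2 = ∑ p ∈ G, (logHeight₁ (x p.1) + logHeight₁ (x p.2)) :=
    ⟨_, rfl⟩
  have hsum1 : ∑ i, wt (AS i) + W1 ≤ mL * N1 + d * mL * ∑ i, Ck i := by
    have h1 := Finset.sum_le_sum fun i (_ : i ∈ (univ : Finset (Fin m))) => hdiff i
    rw [Finset.sum_add_distrib, ← hW1, Finset.sum_add_distrib] at h1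
    refine h1.trans (le_of_eq ?_)
    rw [hN1, Finset.mul_sum, htow, ← Finset.mul_sum]
    congr 1
    refine Finset.sum_congr rfl fun i _ => ?_
    rw [hH]
    ring
  have hsum2 : ∑ p ∈ G, wt (outS S (Mf p)) + W2 ≤
      mL * N2 + d * mL * (G.card * Real.log 2) := by
    have h1 := Finset.sum_le_sum fun p (hp : p ∈ G) => hdia p hp
    rw [Finset.sum_add_distrib, ← hW2, Finset.sum_add_distrib] at h1
    refine h1.trans (le_of_eq ?_)
    rw [hN2, Finset.mul_sum, htow, Finset.sum_const, nsmul_eq_mul]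
    congr 1
    · refine Finset.sum_congr rfl fun p _ => ?_
      rw [hH', hH']
      ring
    · ring
  rw [← hBd, ← hmL, ← hR, ← hW1, hW2', ← hN1, ← hN2, ← hd]
  rw [← hmL] at hbase'
  rw [← hR, htow] at hWle
  have h9 : mL * wt Bd ≤ mL * (wt (Bd.filter fun v => v ∉ S') + wt S') :=
    mul_le_mul_of_nonneg_left hBdle hm0.le
  have e1 : mL * (wt Bd + Real.log |(discr K : ℝ)| -
      (wt S' + d * (∑ i, Ck i + G.card * Real.log 2))) = mL * wt Bd +
      mL * Real.log |(discr K : ℝ)| - mL * wt S' - d * mL * (∑ i, Ck i) -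
      d * mL * (G.card * Real.log 2) := by ring
  have e2 : mL * (N1 + N2 + d * R) = mL * N1 + mL * N2 + d * mL * R := by ring
  rw [e1, e2]
  linarith

end Pool.Agent.Y728.MN
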