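import Pool.Agent.Y728.MN.Main
import Pool.Agent.Y729.RV.Base

/-!
# Reductions of points of the line, and the base change (helper728)
-/

set_option autoImplicit false

namespace Pool.Agent.Y728.MN

open NumberField IsDedekindDomain Height Finset Pool.Agent.H691R3 Pool.Agent.TH876.Loc
open Pool.Agent.H951R3.V (ell ell_pos)
open Pool.Agent.TH876.KR (form counting localHeight localHeight_nonneg localHeight_pos_iff m2)

variable {K : Type} [Field K] [NumberField K]

/-- the points `(a 0 : a 1)` and `(b 0 : b 1)` of the line have the same reduction at `v` -/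
def Meet (v : HeightOneSpectrum (𝓞 K)) (a b : Fin 2 → K) : Prop :=
  v.valuation K (a 0 * b 1 - a 1 * b 0) <
    max (v.valuation K (a 0)) (v.valuation K (a 1)) *
      max (v.valuation K (b 0)) (v.valuation K (b 1))

theorem max_rep2 (v : Pr K) (y z : K) : ∃ b : K, fv v b = max (fv v y) (fv v z) ∧
    v.valuation K b = max (v.valuation K y) (v.valuation K z) := by
  rcases le_or_gt (v.valuation K z) (v.valuation K y) with h | h
  · refine ⟨y, (max_eq_left ?_).symm, (max_eq_left h).symm⟩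
    rw [← not_lt, Pool.Agent.Y728.AK.fv_lt_iff, not_lt]
    exact h
  · exact ⟨z, (max_eq_right ((Pool.Agent.Y728.AK.fv_lt_iff v y z).2 h).le).symm,
      (max_eq_right h.le).symm⟩

theorem meet_iff (v : Pr K) (a b : Fin 2 → K) : Meet v a b ↔ Nr v a b := by
  obtain ⟨c, hc1, hc2⟩ := max_rep2 v (a 0) (a 1)
  obtain ⟨d, hd1, hd2⟩ := max_rep2 v (b 0) (b 1)
  unfold Meet Nr
  have e1 : m2 v a = fv v c := hc1.symm
  have e2 : m2 v b = fv v d := hd1.symm
  rw [e1, e2, ← hc2, ← hd2, ← map_mul, ← map_mul, Pool.Agent.Y728.AK.fv_lt_iff]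
  rfl

theorem meet_over {L : Type} [Field L] [NumberField L] [Algebra K L]
    (v : HeightOneSpectrum (𝓞 K)) (w : HeightOneSpectrum (𝓞 L)) [w.asIdeal.LiesOver v.asIdeal]
    (a b : Fin 2 → K) :
    Meet w (fun s => algebraMap K L (a s)) (fun s => algebraMap K L (b s)) ↔ Meet v a b := by
  have he : v.asIdeal.ramificationIdx' w.asIdeal ≠ 0 :=
    Ideal.IsDedekindDomain.ramificationIdx'_ne_zero_of_liesOver w.asIdeal v.ne_bot
  obtain ⟨e, hee⟩ : ∃ e, e = v.asIdeal.ramificationIdx' w.asIdeal := ⟨_, rfl⟩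
  have hv : ∀ z : K, w.valuation L (algebraMap K L z) = (v.valuation K z) ^ e := by
    intro z
    rw [hee]
    exact (HeightOneSpectrum.valuation_liesOver L v w z).symm
  rw [← hee] at he
  have hmax : ∀ y z : K, max (v.valuation K y ^ e) (v.valuation K z ^ e) =
      (max (v.valuation K y) (v.valuation K z)) ^ e := by
    intro y z
    rcases le_total (v.valuation K y) (v.valuation K z) with h | h
    · rw [max_eq_right h, max_eq_right (pow_le_pow_left₀ zero_le h e)]
    · rw [max_eq_left h, max_eq_left (pow_le_pow_left₀ zero_le h e)]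
  unfold Meet
  rw [← map_mul, ← map_mul, ← map_sub, hv, hv, hv, hv, hv, hmax, hmax, ← mul_pow]
  exact pow_lt_pow_iff_left₀ zero_le zero_le he

theorem form_map {L : Type} [Field L] [Algebra K L] {a b : Fin 2 → K} (h : form a b ≠ 0) :
    form (fun s => algebraMap K L (a s)) (fun s => algebraMap K L (b s)) ≠ 0 := by
  have e : form (fun s => algebraMap K L (a s)) (fun s => algebraMap K L (b s)) =
      algebraMap K L (form a b) := by
    unfold form
    rw [map_sub, map_mul, map_mul]
  rw [e]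
  exact (map_ne_zero _).2 h

theorem pt_map {L : Type} [Field L] [Algebra K L] (x : K) :
    (fun s => algebraMap K L (pt x s)) = pt (algebraMap K L x) := by
  funext s
  fin_cases s
  · rfl
  · exact map_one _

variable {q m : ℕ} (S : Set (HeightOneSpectrum (𝓞 K))) (a : Fin q → Fin 2 → K)

/-- the primes outside `S` at which the configuration meets a part of the boundary -/
def bdT (F : Finset (Fin m × Fin q)) (G : Finset (Fin m × Fin m)) (x : Fin m → K) :
    Set (HeightOneSpectrum (𝓞 K)) :=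
  {v | v ∉ S ∧ ((∃ p ∈ F, Nr v (a p.2) (pt (x p.1))) ∨ ∃ p ∈ G, Nr v (pt (x p.1)) (pt (x p.2)))}

variable {S a}

theorem bdT_fin {x : Fin m → K} (hf : ∀ i j, form (a j) (pt (x i)) ≠ 0)
    (hx : Function.Injective x) (F : Finset (Fin m × Fin q)) {G : Finset (Fin m × Fin m)}
    (hG : ∀ p ∈ G, p.1 < p.2) : (bdT S a F G x).Finite := by
  refine (bd_fin S a hf hx).subset ?_
  rintro v ⟨h, ⟨p, -, hp⟩ | ⟨p, hpG, hp⟩⟩
  · exact ⟨h, Or.inl ⟨p.1, p.2, hp⟩⟩
  · exact ⟨h, Or.inr ⟨p.1, p.2, (hG p hpG).ne, hp⟩⟩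

/-- **base change** -/
theorem base_T (L : Type) [Field L] [NumberField L] [Algebra K L]
    {x : Fin m → K} (hf : ∀ i j, form (a j) (pt (x i)) ≠ 0)
    (hx : Function.Injective x) (F : Finset (Fin m × Fin q)) {G : Finset (Fin m × Fin m)}
    (hG : ∀ p ∈ G, p.1 < p.2) (P : HeightOneSpectrum (𝓞 L) → Prop) [DecidablePred P]
    (hP : ∀ w, P w ↔ (∀ p ∈ S, w.asIdeal.comap (algebraMap (𝓞 K) (𝓞 L)) ≠ p.asIdeal) ∧
      ((∃ p ∈ F, Meet w (fun s => algebraMap K L (a p.2 s)) (pt (algebraMap K L (x p.1)))) ∨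
        ∃ p ∈ G, Meet w (pt (algebraMap K L (x p.1))) (pt (algebraMap K L (x p.2))))) :
    (Module.finrank K L : ℝ) * (Real.log |(discr K : ℝ)| + wt (bdT_fin (S := S) hf hx F hG).toFinset) ≤
      Real.log |(discr L : ℝ)| +
        ∑ᶠ w : HeightOneSpectrum (𝓞 L), if P w then Real.log (Ideal.absNorm w.asIdeal) else 0 := by
  classical
  have hfin : {w | P w}.Finite := by
    have h1 : (⋃ i : Fin m, ⋃ j : Fin q, {w : HeightOneSpectrum (𝓞 L) |
        Nr w (fun s => algebraMap K L (a j s)) (fun s => algebraMap K L (pt (x i) s))}).Finite :=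
      Set.finite_iUnion fun i => Set.finite_iUnion fun j => nr_fin (form_map (hf i j))
    have h2 : (⋃ i : Fin m, ⋃ k : Fin m, {w : HeightOneSpectrum (𝓞 L) | i ≠ k ∧
        Nr w (fun s => algebraMap K L (pt (x i) s)) (fun s => algebraMap K L (pt (x k) s))}).Finite := by
      refine Set.finite_iUnion fun i => Set.finite_iUnion fun k => ?_
      by_cases hik : i = k
      · refine Set.Finite.subset Set.finite_empty fun v hv => absurd hik hv.1
      · exact (nr_fin (form_map (form_pt_ne fun h => hik (hx h)))).subset fun v hv => hv.2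
    refine (h1.union h2).subset ?_
    intro w hw
    obtain ⟨-, ⟨p, -, hp⟩ | ⟨p, hpG, hp⟩⟩ := (hP w).1 hw
    · left
      rw [← pt_map, meet_iff] at hp
      exact Set.mem_iUnion.2 ⟨p.1, Set.mem_iUnion.2 ⟨p.2, hp⟩⟩
    · right
      rw [← pt_map, ← pt_map, meet_iff] at hp
      exact Set.mem_iUnion.2 ⟨p.1, Set.mem_iUnion.2 ⟨p.2, (hG p hpG).ne, hp⟩⟩
  have h := Pool.Agent.Y729.RV.base_change (k := K) (L := L)
    (bdT_fin (S := S) hf hx F hG).toFinset hfin.toFinset (by
      intro v hv w hw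
      rw [Set.Finite.mem_toFinset] at hv ⊢
      rw [Set.mem_ofPred_eq, hP]
      obtain ⟨hvS, hv⟩ := hv
      refine ⟨?_, ?_⟩
      · intro p hp hcon
        have h1 : v.asIdeal = w.asIdeal.comap (algebraMap (𝓞 K) (𝓞 L)) :=
          hw.over
        rw [hcon] at h1
        have h2 : v = p := HeightOneSpectrum.ext h1
        rw [h2] at hvS
        exact hvS hp
      · rcases hv with ⟨p, hp, hv⟩ | ⟨p, hp, hv⟩
        · refine Or.inl ⟨p, hp, ?_⟩
          rw [← pt_map, meet_over v w, meet_iff]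
          exact hv
        · refine Or.inr ⟨p, hp, ?_⟩
          rw [← pt_map, ← pt_map, meet_over v w, meet_iff]
          exact hv)
  have e : ∑ᶠ w : HeightOneSpectrum (𝓞 L), (if P w then Real.log (Ideal.absNorm w.asIdeal) else 0) =
      ∑ w ∈ hfin.toFinset, Real.log (Ideal.absNorm w.asIdeal : ℝ) := by
    rw [finsum_eq_sum_of_support_subset (s := hfin.toFinset)]
    · refine Finset.sum_congr rfl fun w hw => ?_
      rw [Set.Finite.mem_toFinset] at hw
      exact if_pos hw
    · intro w hw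
      rw [Finset.mem_coe, Set.Finite.mem_toFinset]
      by_contra hcon
      exact hw (if_neg hcon)
  rw [e]
  exact h

open Classical in
theorem counting_eq (S : Finset (HeightOneSpectrum (𝓞 K))) {x : K}
    (hf : ∀ j, form (a j) (pt x) ≠ 0) :
    (∑ᶠ v : HeightOneSpectrum (𝓞 K),
      if v ∉ S ∧ ∃ j, Meet v (a j) (pt x) then Real.log (Ideal.absNorm v.asIdeal) else 0) =
      counting (S : Set (HeightOneSpectrum (𝓞 K))) a ![x, 1] := by
  rw [counting_vs _ a hf]
  unfold wt
  rw [finsum_eq_sum_of_support_subset (s := vs (S : Set (HeightOneSpectrum (𝓞 K))) a x)]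
  · refine Finset.sum_congr rfl fun v hv => ?_
    rw [mem_vs _ a hf] at hv
    rw [if_pos]
    · rfl
    · obtain ⟨h1, j, h2⟩ := hv
      exact ⟨h1, j, (meet_iff v _ _).2 h2⟩
  · intro v hv
    rw [Finset.mem_coe, mem_vs _ a hf]
    by_contra hcon
    refine hv (if_neg ?_)
    rintro ⟨h1, j, h2⟩
    exact hcon ⟨h1, j, (meet_iff v _ _).1 h2⟩

end Pool.Agent.Y728.MN
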