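import Pool.Agent.Y728.MN.Main2
import Pool.Agent.Y93.MN.A
import Pool.Agent.Y841.MN.B
import Pool.Agent.Y950.MN.CD
import Pool.Agent.Y306.MNE
import Pool.Agent.Y421.MN.G12
import Pool.Agent.Y785.MN.G34

/-!
# The exceptional configurations: all parts together (helper728)
-/

set_option autoImplicit false

namespace Pool.Agent.Y728.MN

open NumberField IsDedekindDomain Height Finset Pool.Agent.H691R3 Pool.Agent.TH876.Loc
open Pool.Agent.TH876.KR (form counting)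

variable {K : Type} [Field K] [NumberField K] {q m : ℕ}
  {S : Set (HeightOneSpectrum (𝓞 K))} {a : Fin q → Fin 2 → K}

theorem stC (K : Type) [Field K] [NumberField K] : StmtC K :=
  Pool.Agent.Y950.MN.sC K (Pool.Agent.Y93.MN.sA K) (Pool.Agent.Y841.MN.sB K)

theorem stD (K : Type) [Field K] [NumberField K] : StmtD K :=
  Pool.Agent.Y950.MN.sD K (Pool.Agent.Y93.MN.sA K) (Pool.Agent.Y841.MN.sB K)

theorem stE (K : Type) [Field K] [NumberField K] : StmtE K :=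
  Pool.Agent.Y306.MNE.sE K (Pool.Agent.Y93.MN.sA K)

/-- **the number of the exceptional configurations** -/
theorem conf_exc_all (hq : 3 ≤ q) (hm : 0 < m) (hS : S.Finite)
    (ha : ∀ i j, i ≠ j → form (a i) (a j) ≠ 0) {κ : ℝ} (hκ : 0 < κ) (C₀ : ℝ) :
    ∃ ν C : ℝ, 0 < ν ∧ ν ≤ 1 / q ∧ 0 < C ∧ ∀ X : ℝ, 1 ≤ X → (CExc S a m κ C₀ X).Finite ∧
      ((CExc S a m κ C₀ X).ncard : ℝ) ≤ C * X ^ (2 * m / (q : ℝ) - ν) :=
  conf_exc hq hm hS ha (Pool.Agent.Y93.MN.sH K) (stD K)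
    (Pool.Agent.Y421.MN.sG1 S a (stE K) (Pool.Agent.Y93.MN.sF K) (Pool.Agent.Y93.MN.sH K))
    (Pool.Agent.Y421.MN.sG2 S a (stC K) (Pool.Agent.Y93.MN.sF K) (Pool.Agent.Y93.MN.sH K))
    (Pool.Agent.Y785.MN.sG3 (stC K) (Pool.Agent.Y93.MN.sF K) (Pool.Agent.Y93.MN.sH K))
    (Pool.Agent.Y785.MN.sG4 (stC K) (Pool.Agent.Y93.MN.sF K) (Pool.Agent.Y93.MN.sH K)) hκ C₀

end Pool.Agent.Y728.MN
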