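import Pool.Agent.Y728.MN.Lv
import Pool.Agent.Y728.MN.All

/-!
# The exceptional points of a product of curves (helper728)
-/

set_option autoImplicit false

namespace Pool.Agent.Y728.MN

open NumberField IsDedekindDomain Height Finset Pool.Agent.H691R3 Pool.Agent.TH876.Loc Polynomial
open Pool.Agent.Y728.AK
open Pool.Agent.H951R3.V (ell ell_pos)
open Pool.Agent.TH876.KR (form counting localHeight m2)

variable {K : Type} [Field K] [NumberField K] {q m : ℕ}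

/-- tuples with two equal coordinates or a coordinate in a finite set -/
theorem rest_count (hq : 3 ≤ q) (hm : 0 < m) {S : Set (HeightOneSpectrum (𝓞 K))} (hS : S.Finite)
    {a : Fin q → Fin 2 → K} (ha : ∀ i j, i ≠ j → form (a i) (a j) ≠ 0) (R : Finset K) :
    ∃ C : ℝ, 0 ≤ C ∧ ∀ X : ℝ, 1 ≤ X → ∀ B : Finset (Fin m → K),
      (∀ x ∈ B, (∀ i, x i ∈ GVal K S a X) ∧ ((∃ i k, i ≠ k ∧ x i = x k) ∨ ∃ i, x i ∈ R)) →
      (B.card : ℝ) ≤ C * X ^ (2 * m / (q : ℝ) - 1 / q) := by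
  classical
  have hm0 : (0 : ℝ) < m := by exact_mod_cast hm
  have hq0 : (3 : ℝ) ≤ q := by exact_mod_cast hq
  have hqp : (0 : ℝ) < q := by linarith
  obtain ⟨C0, h0⟩ := g_all K hq S hS a ha (1 / (q * m)) (by positivity)
  obtain ⟨C1, hC1e⟩ : ∃ C1 : ℝ, C1 = max C0 0 := ⟨_, rfl⟩
  have hC1 : 0 ≤ C1 := by rw [hC1e]; exact le_max_right _ _
  refine ⟨(m * m + m * R.card) * C1 ^ (m - 1), by positivity, fun X hX B hB => ?_⟩
  have hXp : 0 < X := by linarith
  obtain ⟨h1, h2⟩ := h0 X hX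
  obtain ⟨T, hT⟩ : ∃ T : Finset K, T = h1.toFinset := ⟨_, rfl⟩
  have hTm : ∀ t, t ∈ T ↔ t ∈ GVal K S a X := fun t => by rw [hT, Set.Finite.mem_toFinset]
  have hTc : (T.card : ℝ) ≤ C1 * X ^ (2 / (q : ℝ) + 1 / (q * m)) := by
    rw [hT, ← Set.ncard_eq_toFinset_card _ h1]
    refine h2.trans (mul_le_mul_of_nonneg_right ?_ (Real.rpow_pos_of_pos hXp _).le)
    rw [hC1e]
    exact le_max_left _ _
  -- two equal coordinates
  have hpair : ∀ i k : Fin m, ((B.filter fun x => i ≠ k ∧ x i = x k).card : ℝ) ≤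
      (T.card : ℝ) ^ (m - 1) := by
    intro i k
    by_cases hik : i = k
    · rw [Finset.filter_false_of_mem (fun x _ h => h.1 hik), Finset.card_empty, Nat.cast_zero]
      positivity
    have hm2 : 2 ≤ m := by
      have := Fintype.card_le_of_injective ![i, k] (inj2 hik)
      rwa [Fintype.card_fin, Fintype.card_fin] at this
    have h3 := tuple_count (r := 2) ![i, k] (inj2 hik) T (T.image fun t _ => t)
      (B.filter fun x => i ≠ k ∧ x i = x k) (by
        intro x hx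
        rw [Finset.mem_filter] at hx
        have hxT : ∀ i, x i ∈ T := fun i => (hTm _).2 ((hB x hx.1).1 i)
        refine ⟨hxT, Finset.mem_image.2 ⟨x i, hxT i, ?_⟩⟩
        funext s
        fin_cases s
        · rfl
        · exact hx.2.2)
    have h4 : (T.image fun (t : K) (_ : Fin 2) => t).card ≤ T.card := Finset.card_image_le
    have h5 := h3.trans (Nat.mul_le_mul_right _ h4)
    have h6 : T.card * T.card ^ (m - 2) = T.card ^ (m - 1) := by
      rw [← pow_succ']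
      congr 1
      omega
    rw [h6] at h5
    exact_mod_cast h5
  have hR := coord_count hm T R (B.filter fun x => ∃ i, x i ∈ R) (by
    intro x hx
    rw [Finset.mem_filter] at hx
    exact ⟨fun i => (hTm _).2 ((hB x hx.1).1 i), hx.2⟩)
  have hsub : B ⊆ ((univ : Finset (Fin m × Fin m)).biUnion fun p =>
      B.filter fun x => p.1 ≠ p.2 ∧ x p.1 = x p.2) ∪ B.filter fun x => ∃ i, x i ∈ R := by
    intro x hx
    rw [Finset.mem_union, Finset.mem_biUnion, Finset.mem_filter]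
    rcases (hB x hx).2 with ⟨i, k, h3, h4⟩ | h3
    · exact Or.inl ⟨(i, k), Finset.mem_univ _, Finset.mem_filter.2 ⟨hx, h3, h4⟩⟩
    · exact Or.inr ⟨hx, h3⟩
  have hle : (B.card : ℝ) ≤ ∑ p : Fin m × Fin m,
      ((B.filter fun x => p.1 ≠ p.2 ∧ x p.1 = x p.2).card : ℝ) +
        ((B.filter fun x => ∃ i, x i ∈ R).card : ℝ) := by
    have h3 := (Finset.card_le_card hsub).trans ((Finset.card_union_le _ _).trans
      (Nat.add_le_add_right Finset.card_biUnion_le _))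
    exact_mod_cast h3
  have hsum : ∑ p : Fin m × Fin m,
      ((B.filter fun x => p.1 ≠ p.2 ∧ x p.1 = x p.2).card : ℝ) ≤
      m * m * (T.card : ℝ) ^ (m - 1) := by
    refine (Finset.sum_le_sum fun p _ => hpair p.1 p.2).trans (le_of_eq ?_)
    rw [Finset.sum_const, Finset.card_univ, Fintype.card_prod, Fintype.card_fin, nsmul_eq_mul]
    push_cast
    ring
  have hpow : (T.card : ℝ) ^ (m - 1) ≤ C1 ^ (m - 1) * X ^ (2 * m / (q : ℝ) - 1 / q) := by
    refine (pow_le_pow_left₀ (Nat.cast_nonneg _) hTc _).trans ?_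
    rw [mul_pow]
    refine mul_le_mul_of_nonneg_left ?_ (by positivity)
    rw [← Real.rpow_natCast (X ^ _), ← Real.rpow_mul hXp.le]
    refine Real.rpow_le_rpow_of_exponent_le hX ?_
    rw [Nat.cast_sub (by omega : 1 ≤ m)]
    push_cast
    have e1 : (2 / (q : ℝ) + 1 / (q * m)) * ((m : ℝ) - 1) =
        2 * m / q - 1 / q - 1 / (q * m) := by
      field_simp
      ring
    rw [e1]
    have : 0 < 1 / ((q : ℝ) * m) := by positivity
    linarith
  have h7 : (m * m + m * (R.card : ℝ)) * (T.card : ℝ) ^ (m - 1) ≤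
      (m * m + m * (R.card : ℝ)) * (C1 ^ (m - 1) * X ^ (2 * m / (q : ℝ) - 1 / q)) :=
    mul_le_mul_of_nonneg_left hpow (by positivity)
  have h8 : (m * m + m * (R.card : ℝ)) * (T.card : ℝ) ^ (m - 1) =
      m * m * (T.card : ℝ) ^ (m - 1) + m * ((R.card : ℝ) * (T.card : ℝ) ^ (m - 1)) := by ring
  rw [h8] at h7
  rw [mul_assoc]
  linarith

/-- the tuples of points of the line off the graph divisors -/
def TupG (S : Set (HeightOneSpectrum (𝓞 K))) (a : Fin q → Fin 2 → K) (G : Finset (Fin m × Fin m))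
    (X : ℝ) : Set (Fin m → K) :=
  {x | (∀ i, x i ∈ GVal K S a X) ∧ ∀ p ∈ G, x p.1 ≠ x p.2}

theorem tup_all (hq : 3 ≤ q) (hm : 0 < m) {S : Set (HeightOneSpectrum (𝓞 K))} (hS : S.Finite)
    {a : Fin q → Fin 2 → K} (ha : ∀ i j, i ≠ j → form (a i) (a j) ≠ 0)
    (G : Finset (Fin m × Fin m)) (δ : ℝ) (hδ : 0 < δ) :
    ∃ C : ℝ, ∀ X : ℝ, 1 ≤ X → (TupG S a G X).Finite ∧
      ((TupG S a G X).ncard : ℝ) ≤ C * X ^ (2 * m / (q : ℝ) + δ) := by
  have hm0 : (0 : ℝ) < m := by exact_mod_cast hm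
  obtain ⟨C, h⟩ := g_all K hq S hS a ha (δ / m) (by positivity)
  refine ⟨C ^ m, fun X hX => ?_⟩
  have hX0 : 0 < X := by linarith
  obtain ⟨h1, h2⟩ := h X hX
  have hsub : TupG S a G X ⊆
      (Fintype.piFinset fun _ : Fin m => h1.toFinset : Finset (Fin m → K)) := by
    intro x hx
    rw [Finset.mem_coe, Fintype.mem_piFinset]
    intro i
    rw [Set.Finite.mem_toFinset]
    exact hx.1 i
  have hfin : (TupG S a G X).Finite := (Finset.finite_toSet _).subset hsub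
  refine ⟨hfin, ?_⟩
  have h3 := Set.ncard_le_ncard hsub (Finset.finite_toSet _)
  rw [Set.ncard_coe_finset, Fintype.card_piFinset, Finset.prod_const, Finset.card_univ,
    Fintype.card_fin, ← Set.ncard_eq_toFinset_card _ h1] at h3
  have h4 : ((TupG S a G X).ncard : ℝ) ≤ ((GVal K S a X).ncard : ℝ) ^ m := by exact_mod_cast h3
  refine h4.trans ((pow_le_pow_left₀ (Nat.cast_nonneg _) h2 m).trans (le_of_eq ?_))
  rw [mul_pow, ← Real.rpow_natCast (X ^ _), ← Real.rpow_mul hX0.le]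
  congr 2
  field_simp

theorem tup_low (hq : 3 ≤ q) (hm : 0 < m) {S : Set (HeightOneSpectrum (𝓞 K))} (hS : S.Finite)
    {a : Fin q → Fin 2 → K} (ha : ∀ i j, i ≠ j → form (a i) (a j) ≠ 0)
    {G : Finset (Fin m × Fin m)} (hG : ∀ p ∈ G, p.1 < p.2) (δ : ℝ) (hδ : 0 < δ) :
    ∃ X₀ : ℝ, 1 ≤ X₀ ∧ ∀ X : ℝ, X₀ ≤ X →
      X ^ (2 * m / (q : ℝ) - δ) ≤ ((TupG S a G X).ncard : ℝ) := by
  obtain ⟨C, hC⟩ := tup_all hq hm hS ha G 1 one_pos
  obtain ⟨X0, hX0, h⟩ := conf_low (m := m) hq hm hS ha δ hδ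
  refine ⟨X0, hX0, fun X hX => (h X hX).trans ?_⟩
  have hsub : Conf S a m X ⊆ TupG S a G X := fun x hx =>
    ⟨hx.1, fun p hp h => (hG p hp).ne (hx.2 h)⟩
  exact_mod_cast Set.ncard_le_ncard hsub (hC X (hX0.trans hX)).1

/-- the number of exceptions, if they are contained in the exceptional configurations and the
degenerate tuples -/
theorem exc_all (hq : 3 ≤ q) (hm : 0 < m) {S : Set (HeightOneSpectrum (𝓞 K))} (hS : S.Finite)
    {a : Fin q → Fin 2 → K} (ha : ∀ i j, i ≠ j → form (a i) (a j) ≠ 0) (R : Finset K)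
    {κ : ℝ} (hκ : 0 < κ) (C₀ : ℝ) (Ex : ℝ → Set (Fin m → K))
    (hEx : ∀ X, ∀ x ∈ Ex X, (∀ i, x i ∈ GVal K S a X) ∧
      (((∃ i k, i ≠ k ∧ x i = x k) ∨ ∃ i, x i ∈ R) ∨ x ∈ CExc S a m κ C₀ X)) :
    ∃ ν C : ℝ, 0 < ν ∧ 0 < C ∧ ∀ X : ℝ, 1 ≤ X →
      ((Ex X).ncard : ℝ) ≤ C * X ^ (2 * m / (q : ℝ) - ν) := by
  classical
  have hq0 : (3 : ℝ) ≤ q := by exact_mod_cast hq
  have hqp : (0 : ℝ) < q := by linarith
  obtain ⟨ν, C, hν, hνq, hC, h⟩ := conf_exc_all (m := m) hq hm hS ha hκ C₀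
  obtain ⟨C', hC', h'⟩ := rest_count hq hm hS ha R
  obtain ⟨C2, h2⟩ := g_all K hq S hS a ha 1 one_pos
  refine ⟨ν, C + C', hν, by positivity, fun X hX => ?_⟩
  have hXp : 0 < X := by linarith
  obtain ⟨h3, -⟩ := h2 X hX
  have hfin : {x : Fin m → K | (∀ i, x i ∈ GVal K S a X) ∧
      ((∃ i k, i ≠ k ∧ x i = x k) ∨ ∃ i, x i ∈ R)}.Finite := by
    refine (Finset.finite_toSet (Fintype.piFinset fun _ : Fin m => h3.toFinset)).subset ?_
    intro x hx
    rw [Finset.mem_coe, Fintype.mem_piFinset]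
    intro i
    rw [Set.Finite.mem_toFinset]
    exact hx.1 i
  obtain ⟨h4, h5⟩ := h X hX
  have hsub : Ex X ⊆ {x : Fin m → K | (∀ i, x i ∈ GVal K S a X) ∧
      ((∃ i k, i ≠ k ∧ x i = x k) ∨ ∃ i, x i ∈ R)} ∪ CExc S a m κ C₀ X := by
    intro x hx
    obtain ⟨h6, h7 | h7⟩ := hEx X x hx
    · exact Or.inl ⟨h6, h7⟩
    · exact Or.inr h7
  have h6 : ((Ex X).ncard : ℝ) ≤ ({x : Fin m → K | (∀ i, x i ∈ GVal K S a X) ∧
      ((∃ i k, i ≠ k ∧ x i = x k) ∨ ∃ i, x i ∈ R)}.ncard : ℝ) + (CExc S a m κ C₀ X).ncard := by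
    exact_mod_cast (Set.ncard_le_ncard hsub (hfin.union h4)).trans (Set.ncard_union_le _ _)
  have h7 := h' X hX hfin.toFinset (fun x hx => by
    rw [Set.Finite.mem_toFinset] at hx
    exact hx)
  rw [← Set.ncard_eq_toFinset_card _ hfin] at h7
  have h8 : X ^ (2 * m / (q : ℝ) - 1 / q) ≤ X ^ (2 * m / (q : ℝ) - ν) :=
    Real.rpow_le_rpow_of_exponent_le hX (by linarith)
  have h9 := h7.trans (mul_le_mul_of_nonneg_left h8 hC')
  rw [add_mul]
  linarith

end Pool.Agent.Y728.MN
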