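import Pool.Agent.Y728.MN.Lam

/-!
# Parts of the boundary (helper728)
-/

set_option autoImplicit false

namespace Pool.Agent.Y728.MN

open NumberField IsDedekindDomain Height Finset Pool.Agent.H691R3 Pool.Agent.TH876.Loc
open Pool.Agent.H951R3.V (ell ell_pos)
open Pool.Agent.TH876.KR (form counting localHeight localHeight_nonneg localHeight_pos_iff m2)

variable {K : Type} [Field K] [NumberField K]

/-- the weight of the primes at which a point and one of the given points are congruent -/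
def StmtN {q : ℕ} (a : Fin q → Fin 2 → K) : Prop :=
  ∀ (j : Fin q) (x : K) (h : form (a j) (pt x) ≠ 0),
    wt (nr_fin h).toFinset ≤ logHeight (a j) + logHeight₁ x + totalWeight K * Real.log 2

theorem wt_nr_le {x y : K} (h : form (pt x) (pt y) ≠ 0) :
    wt (nr_fin h).toFinset ≤ logHeight₁ x + logHeight₁ y + totalWeight K * Real.log 2 := by
  have hxy : x ≠ y := by
    intro e
    apply h
    rw [e]
    show y * 1 - 1 * y = 0
    ring
  refine wt_meet_le hxy _ fun v hv => ?_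
  rw [Set.Finite.mem_toFinset] at hv
  exact (meet_iff v _ _).2 hv

theorem wt_union_le [DecidableEq (HeightOneSpectrum (𝓞 K))]
    (A B : Finset (HeightOneSpectrum (𝓞 K))) : wt (A ∪ B) ≤ wt A + wt B := by
  unfold wt
  rw [← Finset.sum_union_inter]
  have : 0 ≤ ∑ v ∈ A ∩ B, ell v := Finset.sum_nonneg fun v _ => (ell_pos v).le
  linarith

variable {q m : ℕ} {S : Set (HeightOneSpectrum (𝓞 K))} {a : Fin q → Fin 2 → K}

theorem sum_fst (f : Fin m → ℝ) : ∑ p : Fin m × Fin q, f p.1 = q * ∑ i, f i := by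
  rw [Fintype.sum_prod_type, Finset.mul_sum]
  refine Finset.sum_congr rfl fun i _ => ?_
  show ∑ _y : Fin q, f i = q * f i
  rw [Finset.sum_const, Finset.card_univ, Fintype.card_fin, nsmul_eq_mul]

theorem sum_pairs (f : Fin m → ℝ) :
    ∑ p ∈ univ.filter (fun p : Fin m × Fin m => p.1 < p.2), (f p.1 + f p.2) =
      ((m : ℝ) - 1) * ∑ i, f i := by
  have h1 : ∑ p ∈ univ.filter (fun p : Fin m × Fin m => p.1 < p.2), f p.2 =
      ∑ p ∈ univ.filter (fun p : Fin m × Fin m => p.2 < p.1), f p.1 := by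
    refine Finset.sum_nbij' (fun p => (p.2, p.1)) (fun p => (p.2, p.1)) ?_ ?_ ?_ ?_ ?_
    · intro p hp
      rw [Finset.mem_filter] at hp ⊢
      exact ⟨Finset.mem_univ _, hp.2⟩
    · intro p hp
      rw [Finset.mem_filter] at hp ⊢
      exact ⟨Finset.mem_univ _, hp.2⟩
    · intro p _; rfl
    · intro p _; rfl
    · intro p _; rfl
  have h2 : ∑ p ∈ univ.filter (fun p : Fin m × Fin m => p.1 = p.2), f p.1 = ∑ i, f i := by
    symm
    refine Finset.sum_nbij' (fun i => (i, i)) (fun p => p.1) ?_ ?_ ?_ ?_ ?_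
    · intro i _
      rw [Finset.mem_filter]
      exact ⟨Finset.mem_univ _, rfl⟩
    · intro p _
      exact Finset.mem_univ _
    · intro i _; rfl
    · intro p hp
      rw [Finset.mem_filter] at hp
      exact Prod.ext rfl hp.2
    · intro p _; rfl
  have h3 : ∑ p : Fin m × Fin m, f p.1 =
      ∑ p ∈ univ.filter (fun p : Fin m × Fin m => p.1 < p.2), f p.1 +
      (∑ p ∈ univ.filter (fun p : Fin m × Fin m => p.1 = p.2), f p.1 +
        ∑ p ∈ univ.filter (fun p : Fin m × Fin m => p.2 < p.1), f p.1) := by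
    simp only [Finset.sum_filter]
    rw [← Finset.sum_add_distrib, ← Finset.sum_add_distrib]
    refine Finset.sum_congr rfl fun p _ => ?_
    rcases lt_trichotomy p.1 p.2 with h | h | h
    · rw [if_pos h, if_neg h.ne, if_neg (not_lt.2 h.le)]
      ring
    · rw [if_neg (by rw [h]; exact lt_irrefl _), if_pos h, if_neg (by rw [h]; exact lt_irrefl _)]
      ring
    · rw [if_neg (not_lt.2 h.le), if_neg h.ne', if_pos h]
      ring
  rw [Finset.sum_add_distrib, h1]
  rw [h2, sum_fst] at h3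
  linarith

/-- the constant -/
noncomputable def cst (a : Fin q → Fin 2 → K) (m : ℕ) : ℝ :=
  m * ∑ j, (logHeight (a j) + totalWeight K * Real.log 2) + m * m * (totalWeight K * Real.log 2)

theorem logHeight_pt (x : K) : logHeight (pt x) = logHeight₁ x :=
  (logHeight₁_eq_logHeight x).symm

theorem stN_pt (b : Fin q → K) : StmtN (fun j => pt (b j)) := by
  intro j x h
  rw [logHeight_pt]
  exact wt_nr_le h

/-- the whole boundary in terms of a part -/
theorem nn_le (hN : StmtN a) {x : Fin m → K} (hf : ∀ i j, form (a j) (pt (x i)) ≠ 0)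
    (hx : Function.Injective x) (F : Finset (Fin m × Fin q)) {G : Finset (Fin m × Fin m)}
    (hG : ∀ p ∈ G, p.1 < p.2) :
    nn S a x ≤ wt (bdT_fin (S := S) hf hx F hG).toFinset + cst a m +
      (∑ p ∈ Fᶜ, logHeight₁ (x p.1) +
        ∑ p ∈ univ.filter (fun p : Fin m × Fin m => p.1 < p.2) \ G,
          (logHeight₁ (x p.1) + logHeight₁ (x p.2))) := by
  classical
  obtain ⟨c, hc⟩ : ∃ c : ℝ, c = totalWeight K * Real.log 2 := ⟨_, rfl⟩
  have hc0 : 0 ≤ c := by
    rw [hc]
    have := Real.log_nonneg (by norm_num : (1 : ℝ) ≤ 2)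
    positivity
  obtain ⟨P, hP⟩ : ∃ P : Finset (Fin m × Fin m), P = univ.filter fun p => p.1 < p.2 := ⟨_, rfl⟩
  have hPm : ∀ p, p ∈ P ↔ p.1 < p.2 := fun p => by rw [hP, Finset.mem_filter]; simp
  obtain ⟨A1, hA1⟩ : ∃ A1 : Fin m × Fin q → Finset (HeightOneSpectrum (𝓞 K)),
    A1 = fun p => (nr_fin (hf p.1 p.2)).toFinset := ⟨_, rfl⟩
  obtain ⟨A2, hA2⟩ : ∃ A2 : Fin m × Fin m → Finset (HeightOneSpectrum (𝓞 K)),
    A2 = fun p => if h : form (pt (x p.1)) (pt (x p.2)) ≠ 0 then (nr_fin h).toFinset else ∅ :=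
      ⟨_, rfl⟩
  have hsub : (bd_fin S a hf hx).toFinset ⊆ (bdT_fin (S := S) hf hx F hG).toFinset ∪
      (Fᶜ.biUnion A1 ∪ (P \ G).biUnion A2) := by
    intro v hv
    rw [Set.Finite.mem_toFinset] at hv
    obtain ⟨hvS, ⟨i, j, hv⟩ | ⟨i, k, hik, hv⟩⟩ := hv
    · by_cases hF : (i, j) ∈ F
      · rw [Finset.mem_union]
        left
        rw [Set.Finite.mem_toFinset]
        exact ⟨hvS, Or.inl ⟨(i, j), hF, hv⟩⟩
      · rw [Finset.mem_union, Finset.mem_union]
        refine Or.inr (Or.inl (Finset.mem_biUnion.2 ⟨(i, j), Finset.mem_compl.2 hF, ?_⟩))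
        rw [hA1]
        exact (Set.Finite.mem_toFinset _).2 hv
    · -- order the pair
      obtain ⟨p, hp, hpv⟩ : ∃ p : Fin m × Fin m, p.1 < p.2 ∧ Nr v (pt (x p.1)) (pt (x p.2)) := by
        rcases lt_or_gt_of_ne hik with h | h
        · exact ⟨(i, k), h, hv⟩
        · exact ⟨(k, i), h, nr_symm hv⟩
      by_cases hpG : p ∈ G
      · rw [Finset.mem_union]
        left
        rw [Set.Finite.mem_toFinset]
        exact ⟨hvS, Or.inr ⟨p, hpG, hpv⟩⟩
      · rw [Finset.mem_union, Finset.mem_union]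
        refine Or.inr (Or.inr (Finset.mem_biUnion.2 ⟨p, ?_, ?_⟩))
        · rw [Finset.mem_sdiff, hPm]
          exact ⟨hp, hpG⟩
        · have h0 : form (pt (x p.1)) (pt (x p.2)) ≠ 0 := form_pt_ne fun h => hp.ne (hx h)
          rw [hA2]
          beta_reduce
          rw [dif_pos h0]
          exact (Set.Finite.mem_toFinset _).2 hpv
  have h1 : nn S a x ≤ wt (bdT_fin (S := S) hf hx F hG).toFinset +
      (∑ p ∈ Fᶜ, wt (A1 p) + ∑ p ∈ P \ G, wt (A2 p)) := by
    rw [nn_eq S a (bd_fin S a hf hx)]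
    refine (wt_mono hsub).trans ((wt_union_le _ _).trans ?_)
    refine add_le_add le_rfl ((wt_union_le _ _).trans ?_)
    exact add_le_add (wt_biUnion_le _ _) (wt_biUnion_le _ _)
  have h2 : ∑ p ∈ Fᶜ, wt (A1 p) ≤ ∑ p ∈ Fᶜ, logHeight₁ (x p.1) + m * ∑ j, (logHeight (a j) + c) := by
    have h3 : ∀ p ∈ Fᶜ, wt (A1 p) ≤ logHeight₁ (x p.1) + (logHeight (a p.2) + c) := by
      intro p _
      have := hN _ _ (hf p.1 p.2)
      rw [← hc] at this
      rw [hA1]
      beta_reduce
      linarith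
    refine (Finset.sum_le_sum h3).trans ?_
    rw [Finset.sum_add_distrib]
    refine add_le_add le_rfl ?_
    have h4 : ∑ p ∈ Fᶜ, (logHeight (a p.2) + c) ≤
        ∑ p : Fin m × Fin q, (logHeight (a p.2) + c) := by
      refine Finset.sum_le_sum_of_subset_of_nonneg (Finset.subset_univ _) fun p _ _ => ?_
      have := logHeight_nonneg (a p.2)
      linarith
    refine h4.trans (le_of_eq ?_)
    rw [Fintype.sum_prod_type_right, Finset.mul_sum]
    refine Finset.sum_congr rfl fun j _ => ?_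
    show ∑ _y : Fin m, (logHeight (a j) + c) = m * (logHeight (a j) + c)
    rw [Finset.sum_const, Finset.card_univ, Fintype.card_fin, nsmul_eq_mul]
  have h5 : ∑ p ∈ P \ G, wt (A2 p) ≤ ∑ p ∈ P \ G, (logHeight₁ (x p.1) + logHeight₁ (x p.2)) +
      m * m * c := by
    have h3 : ∀ p ∈ P \ G, wt (A2 p) ≤ (logHeight₁ (x p.1) + logHeight₁ (x p.2)) + c := by
      intro p hp
      rw [Finset.mem_sdiff, hPm] at hp
      have h0 : form (pt (x p.1)) (pt (x p.2)) ≠ 0 := form_pt_ne fun h => hp.1.ne (hx h)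
      have := wt_nr_le h0
      rw [← hc] at this
      rw [hA2]
      beta_reduce
      rw [dif_pos h0]
      exact this
    refine (Finset.sum_le_sum h3).trans ?_
    rw [Finset.sum_add_distrib]
    refine add_le_add le_rfl ?_
    rw [Finset.sum_const, nsmul_eq_mul]
    refine mul_le_mul_of_nonneg_right ?_ hc0
    have : (P \ G).card ≤ m * m := by
      refine (Finset.card_le_univ _).trans ?_
      rw [Fintype.card_prod, Fintype.card_fin]
    exact_mod_cast this
  rw [← hP]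
  unfold cst
  rw [← hc]
  linarith

/-- **the inequality for a part of the boundary** -/
theorem sub_lower (hN : StmtN a) {x : Fin m → K} (hf : ∀ i j, form (a j) (pt (x i)) ≠ 0)
    (hx : Function.Injective x) (F : Finset (Fin m × Fin q)) {G : Finset (Fin m × Fin m)}
    (hG : ∀ p ∈ G, p.1 < p.2) {κ C₀ : ℝ}
    (h : ((q : ℝ) + m - 1 - κ) * ∑ i, logHeight₁ (x i) ≤ nn S a x + (C₀ - cst a m)) :
    ∑ p ∈ F, logHeight₁ (x p.1) + ∑ p ∈ G, (logHeight₁ (x p.1) + logHeight₁ (x p.2)) -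
      κ * ∑ i, logHeight₁ (x i) ≤ wt (bdT_fin (S := S) hf hx F hG).toFinset + C₀ := by
  classical
  have h1 := nn_le (S := S) hN hf hx F hG
  have h2 : ∑ p ∈ F, logHeight₁ (x p.1) + ∑ p ∈ Fᶜ, logHeight₁ (x p.1) =
      q * ∑ i, logHeight₁ (x i) := by
    rw [Finset.sum_add_sum_compl, sum_fst (fun i => logHeight₁ (x i))]
  have hGP : G ⊆ univ.filter (fun p : Fin m × Fin m => p.1 < p.2) := fun p hp =>
    Finset.mem_filter.2 ⟨Finset.mem_univ _, hG p hp⟩
  have h3 : ∑ p ∈ univ.filter (fun p : Fin m × Fin m => p.1 < p.2) \ G,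
        (logHeight₁ (x p.1) + logHeight₁ (x p.2)) +
      ∑ p ∈ G, (logHeight₁ (x p.1) + logHeight₁ (x p.2)) =
      ((m : ℝ) - 1) * ∑ i, logHeight₁ (x i) := by
    rw [Finset.sum_sdiff hGP, sum_pairs (fun i => logHeight₁ (x i))]
  have h4 : ((q : ℝ) + m - 1 - κ) * ∑ i, logHeight₁ (x i) =
      q * ∑ i, logHeight₁ (x i) + ((m : ℝ) - 1) * ∑ i, logHeight₁ (x i) -
        κ * ∑ i, logHeight₁ (x i) := by ring
  rw [h4] at h
  linarith

end Pool.Agent.Y728.MN
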