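import Pool.Agent.Y728.MN.Brd
import Pool.Agent.Y728.AK.GBL
import Pool.Agent.Y93.MN.A

/-!
# The local heights of the diagonal (helper728)
-/

set_option autoImplicit false

namespace Pool.Agent.Y728.MN

open NumberField IsDedekindDomain Height Finset Pool.Agent.TH876.Loc
open Pool.Agent.H691R3 hiding mt av mt_pos
open Pool.Agent.Y728.AK (height_eq)
open Pool.Agent.H951R3.V (ell ell_pos)
open Pool.Agent.TH876.KR (form counting localHeight localHeight_nonneg m2)

variable {K : Type} [Field K] [NumberField K]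

/-- the local height of the diagonal at an infinite place -/
noncomputable def lamI (w : InfinitePlace K) (x y : K) : ℝ :=
  Real.log (max (w x) 1 * max (w y) 1 / w (x - y))

/-- the local height of the diagonal at a prime -/
noncomputable def lamF (v : HeightOneSpectrum (𝓞 K)) (x y : K) : ℝ :=
  Real.log (max (fv v x) 1 * max (fv v y) 1 / fv v (x - y))

theorem max_lg (v : Pl K) {x : K} (hx : x ≠ 0) :
    max 0 (lg v x) = mt v * Real.log (max (av v x) 1) := by
  unfold lg
  have hm := (mt_pos v).le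
  have hp : 0 < av v x := (av v).pos hx
  rcases le_total (av v x) 1 with h | h
  · rw [max_eq_right h, Real.log_one, mul_zero]
    exact max_eq_left (mul_nonpos_of_nonneg_of_nonpos hm (Real.log_nonpos hp.le h))
  · rw [max_eq_left h]
    exact max_eq_right (mul_nonneg hm (Real.log_nonneg h))

theorem height_pl (x : K) : ∃ V0 : Finset (Pr K), ∀ V : Finset (Pr K), V0 ⊆ V →
    logHeight₁ x = ∑ v ∈ Spl V, mt v * Real.log (max (av v x) 1) := by
  classical
  by_cases hx : x = 0
  · refine ⟨∅, fun V _ => ?_⟩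
    rw [hx, logHeight₁_zero]
    symm
    refine Finset.sum_eq_zero fun v _ => ?_
    rw [map_zero, max_eq_right zero_le_one, Real.log_one, mul_zero]
  · refine ⟨(fv_support_finite hx).toFinset, fun V hV => ?_⟩
    rw [height_eq V (fun v hv => ?_)]
    · exact Finset.sum_congr rfl fun v _ => max_lg v hx
    · by_contra h
      apply hv
      apply hV
      rw [Set.Finite.mem_toFinset]
      exact h

/-- **the global height as the sum of the local heights of the diagonal** -/
theorem lam_sum {x y : K} (h : x ≠ y) : ∃ V0 : Finset (Pr K), ∀ V : Finset (Pr K), V0 ⊆ V →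
    ∑ w : InfinitePlace K, (w.mult : ℝ) * lamI w x y + ∑ v ∈ V, lamF v x y =
      logHeight₁ x + logHeight₁ y := by
  classical
  obtain ⟨V1, h1⟩ := height_pl x
  obtain ⟨V2, h2⟩ := height_pl y
  have hxy : x - y ≠ 0 := sub_ne_zero.2 h
  refine ⟨V1 ∪ (V2 ∪ (fv_support_finite hxy).toFinset), fun V hV => ?_⟩
  have e1 := h1 V (Finset.subset_union_left.trans hV)
  have e2 := h2 V ((Finset.subset_union_left.trans Finset.subset_union_right).trans hV)
  have e3 := sum_lg hxy (V := V) (fun v hv => by
    by_contra hcon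
    apply hv
    apply hV
    refine Finset.mem_union_right _ (Finset.mem_union_right _ ?_)
    rw [Set.Finite.mem_toFinset]
    exact hcon)
  have e4 : ∑ v ∈ Spl V, (mt v * Real.log (max (av v x) 1) + mt v * Real.log (max (av v y) 1) -
      lg v (x - y)) = logHeight₁ x + logHeight₁ y := by
    rw [Finset.sum_sub_distrib, Finset.sum_add_distrib, ← e1, ← e2, e3, sub_zero]
  rw [← e4, sum_Spl]
  have hpos : ∀ (v : Pl K) (z : K), max (av v z) 1 ≠ 0 := fun v z =>
    (lt_of_lt_of_le one_pos (le_max_right _ _)).ne'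
  have hterm : ∀ v : Pl K, mt v * Real.log (max (av v x) 1) + mt v * Real.log (max (av v y) 1) -
      lg v (x - y) = mt v * Real.log (max (av v x) 1 * max (av v y) 1 / av v (x - y)) := by
    intro v
    unfold lg
    rw [Real.log_div (mul_ne_zero (hpos v x) (hpos v y)) ((av v).pos hxy).ne',
      Real.log_mul (hpos v x) (hpos v y)]
    ring
  congr 1
  · refine Finset.sum_congr rfl fun w _ => ?_
    rw [hterm]
    rfl
  · refine Finset.sum_congr rfl fun v _ => ?_
    rw [hterm]
    show lamF v x y = 1 * lamF v x y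
    rw [one_mul]

theorem lamF_eq (v : Pr K) (x y : K) : lamF v x y = localHeight v (pt x) (pt y) := by
  unfold lamF
  rw [Pool.Agent.TH876.KR.localHeight_eq, m2_pt, m2_pt]
  have e : form (pt x) (pt y) = x - y := by
    show x * 1 - 1 * y = x - y
    ring
  rw [e]

theorem lamF_nonneg (v : Pr K) {x y : K} (h : x ≠ y) : 0 ≤ lamF v x y := by
  rw [lamF_eq]
  exact localHeight_nonneg v (form_pt_ne h)

/-- a positive local height is at least `log Nv` -/
theorem ell_le_lamF (v : Pr K) {x y : K} (h : x ≠ y) (hm : Meet v (pt x) (pt y)) :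
    ell v ≤ lamF v x y := by
  obtain ⟨c, hc1, -⟩ := max_rep2 v x 1
  obtain ⟨d, hd1, -⟩ := max_rep2 v y 1
  have hxy : x - y ≠ 0 := sub_ne_zero.2 h
  rw [map_one] at hc1 hd1
  have hc0 : c ≠ 0 := by
    intro h0
    rw [h0, map_zero] at hc1
    have : (1 : ℝ) ≤ max (fv v x) 1 := le_max_right _ _
    linarith
  have hd0 : d ≠ 0 := by
    intro h0
    rw [h0, map_zero] at hd1
    have : (1 : ℝ) ≤ max (fv v y) 1 := le_max_right _ _
    linarith
  obtain ⟨z, hz⟩ : ∃ z : K, z = c * d / (x - y) := ⟨_, rfl⟩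
  have hz0 : z ≠ 0 := by rw [hz]; exact div_ne_zero (mul_ne_zero hc0 hd0) hxy
  have e1 : lamF v x y = Real.log (fv v z) := by
    unfold lamF
    rw [hz, map_div₀, map_mul, hc1, hd1]
  have h1 : 1 < fv v z := by
    rw [meet_iff] at hm
    have h2 : fv v (form (pt x) (pt y)) < m2 v (pt x) * m2 v (pt y) := hm
    rw [m2_pt, m2_pt, ← hc1, ← hd1, ← map_mul] at h2
    have e : form (pt x) (pt y) = x - y := by
      show x * 1 - 1 * y = x - y
      ring
    rw [e] at h2
    rw [hz, map_div₀, one_lt_div ((fv v).pos hxy)]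
    exact h2
  obtain ⟨n, hn⟩ := fv_zpow v hz0
  have hn0 : 0 < n := by
    by_contra hcon
    push Not at hcon
    have h2 : Nv v ^ n ≤ 1 := zpow_le_one_of_nonpos₀ (by linarith [two_le_Nv v]) hcon
    rw [← hn] at h2
    linarith
  rw [e1, hn, Real.log_zpow]
  have h2 : (1 : ℝ) ≤ ((n : ℤ) : ℝ) := by exact_mod_cast (by omega : (1 : ℤ) ≤ n)
  show ell v ≤ (n : ℝ) * ell v
  nlinarith [ell_pos v]

/-- the archimedean terms are almost nonnegative -/
theorem lamI_ge (w : InfinitePlace K) {x y : K} (h : x ≠ y) : -Real.log 2 ≤ lamI w x y := by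
  have hxy : x - y ≠ 0 := sub_ne_zero.2 h
  have hp : 0 < w (x - y) := InfinitePlace.pos_iff.2 hxy
  have h1 : w (x - y) ≤ w x + w y := by
    have h2 := w.1.add_le x (-y)
    rw [← sub_eq_add_neg] at h2
    have h3 : w.1 (-y) = w.1 y := w.1.map_neg y
    rw [h3] at h2
    exact h2
  have hx1 : w x ≤ max (w x) 1 := le_max_left _ _
  have hy1 : w y ≤ max (w y) 1 := le_max_left _ _
  have hx2 : 1 ≤ max (w x) 1 := le_max_right _ _
  have hy2 : 1 ≤ max (w y) 1 := le_max_right _ _
  have h2 : w (x - y) ≤ 2 * (max (w x) 1 * max (w y) 1) := by nlinarith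
  unfold lamI
  rw [← Real.log_inv]
  refine Real.log_le_log (by norm_num) ?_
  rw [le_div_iff₀ hp]
  linarith

/-- the weight of the primes at which two elements are congruent, with the archimedean local
heights and those at a set of primes -/
theorem lam_le {x y : K} (h : x ≠ y) (F : Finset (Pr K)) (Q : Finset (Pr K))
    (hF : ∀ v ∈ F, Meet v (pt x) (pt y)) (hFQ : Disjoint F Q) :
    wt F + ∑ w : InfinitePlace K, (w.mult : ℝ) * max 0 (lamI w x y) + ∑ v ∈ Q, lamF v x y ≤
      logHeight₁ x + logHeight₁ y + totalWeight K * Real.log 2 := by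
  classical
  obtain ⟨V0, hV⟩ := lam_sum h
  have h1 := hV (V0 ∪ (F ∪ Q)) Finset.subset_union_left
  have h2 : ∑ v ∈ F ∪ Q, lamF v x y ≤ ∑ v ∈ V0 ∪ (F ∪ Q), lamF v x y :=
    Finset.sum_le_sum_of_subset_of_nonneg Finset.subset_union_right fun v _ _ => lamF_nonneg v h
  rw [Finset.sum_union hFQ] at h2
  have h3 : wt F ≤ ∑ v ∈ F, lamF v x y :=
    Finset.sum_le_sum fun v hv => ell_le_lamF v h (hF v hv)
  have h4 : ∑ w : InfinitePlace K, (w.mult : ℝ) * max 0 (lamI w x y) ≤
      ∑ w : InfinitePlace K, (w.mult : ℝ) * lamI w x y + totalWeight K * Real.log 2 := by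
    rw [NumberField.totalWeight_eq_sum_mult, Nat.cast_sum, Finset.sum_mul,
      ← Finset.sum_add_distrib]
    refine Finset.sum_le_sum fun w _ => ?_
    have h5 := lamI_ge w h
    have h6 : max 0 (lamI w x y) ≤ lamI w x y + Real.log 2 := by
      refine max_le (by linarith) ?_
      have := Real.log_nonneg (by norm_num : (1 : ℝ) ≤ 2)
      linarith
    have h7 := mul_le_mul_of_nonneg_left h6 (Nat.cast_nonneg w.mult : (0 : ℝ) ≤ w.mult)
    linarith
  linarith

/-- the weight of the primes at which two elements are congruent -/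
theorem wt_meet_le {x y : K} (h : x ≠ y) (F : Finset (Pr K))
    (hF : ∀ v ∈ F, Meet v (pt x) (pt y)) :
    wt F ≤ logHeight₁ x + logHeight₁ y + totalWeight K * Real.log 2 := by
  have h1 := lam_le h F ∅ hF (Finset.disjoint_empty_right _)
  rw [Finset.sum_empty, add_zero] at h1
  have h2 : 0 ≤ ∑ w : InfinitePlace K, (w.mult : ℝ) * max 0 (lamI w x y) :=
    Finset.sum_nonneg fun w _ => mul_nonneg (Nat.cast_nonneg _) (le_max_left _ _)
  linarith

end Pool.Agent.Y728.MN
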