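import Pool.Agent.Y728.MN.Det2

/-!
# Counting tuples with a bad part (helper728)
-/

set_option autoImplicit false

namespace Pool.Agent.Y728.MN

open NumberField IsDedekindDomain Height Finset Pool.Agent.H691R3 Pool.Agent.TH876.Loc
open Pool.Agent.H951R3.V (ell ell_pos)
open Pool.Agent.TH876.KR (form counting localHeight localHeight_nonneg localHeight_pos_iff m2)

variable {K : Type} [Field K] [NumberField K]

theorem tuple_count {r m : ℕ} (σ : Fin r → Fin m) (hσ : Function.Injective σ) (T : Finset K)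
    (P : Finset (Fin r → K)) (B : Finset (Fin m → K))
    (hB : ∀ x ∈ B, (∀ i, x i ∈ T) ∧ (fun s => x (σ s)) ∈ P) :
    B.card ≤ P.card * T.card ^ (m - r) := by
  classical
  have hc : Fintype.card {i : Fin m // i ∉ Set.range σ} = m - r := by
    rw [Fintype.card_subtype_compl (fun i => i ∈ Set.range σ), Fintype.card_fin]
    congr 1
    have h0 : Fintype.card (Set.range σ) = r := by
      rw [Set.card_range_of_injective hσ, Fintype.card_fin]
    refine Eq.trans ?_ h0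
    exact Fintype.card_congr (Equiv.refl _)
  have h1 : (P ×ˢ (Fintype.piFinset fun _ : {i : Fin m // i ∉ Set.range σ} => T)).card =
      P.card * T.card ^ (m - r) := by
    rw [Finset.card_product, Fintype.card_piFinset, Finset.prod_const, Finset.card_univ, hc]
  rw [← h1]
  refine Finset.card_le_card_of_injOn (fun x => (fun s => x (σ s), fun i => x i.1)) ?_ ?_
  · intro x hx
    obtain ⟨h2, h3⟩ := hB x hx
    rw [Finset.mem_coe, Finset.mem_product]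
    refine ⟨h3, ?_⟩
    rw [Fintype.mem_piFinset]
    exact fun i => h2 i.1
  · intro x _ y _ h
    simp only [Prod.mk.injEq] at h
    funext i
    by_cases hi : i ∈ Set.range σ
    · obtain ⟨s, rfl⟩ := hi
      exact congrFun h.1 s
    · exact congrFun h.2 ⟨i, hi⟩

/-- the tuples with a property are few -/
def Ev (r : ℕ) (Bad : ℝ → (Fin r → K) → Prop) : Prop :=
  ∃ η C : ℝ, 0 < η ∧ 0 < C ∧ ∀ Y : ℝ, 0 ≤ Y → ∀ E : Finset (Fin r → K),
    (∀ p ∈ E, Bad Y p) → (E.card : ℝ) ≤ C * Real.exp ((2 * r - η) * Y)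

theorem ev_all {q m r : ℕ} (hq : 3 ≤ q) (hr : r ≤ 4) {Bad : ℝ → (Fin r → K) → Prop}
    (h : Ev r Bad) : ∃ η : ℝ, 0 < η ∧ ∀ κ₁ δ C₂ : ℝ, 0 ≤ κ₁ → 0 ≤ δ → 0 < C₂ →
      8 * κ₁ + m * δ ≤ η / (2 * q) → ∃ C' : ℝ, 0 < C' ∧ ∀ X : ℝ, 1 ≤ X → ∀ T : Finset K,
        (T.card : ℝ) ≤ C₂ * X ^ (2 / (q : ℝ) + δ) → ∀ B : Finset (Fin m → K),
        (∀ x ∈ B, (∀ i, x i ∈ T) ∧ ∃ σ : Fin r → Fin m, Function.Injective σ ∧
          Bad ((1 / (q : ℝ) + κ₁) * Real.log X) (fun s => x (σ s))) →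
        (B.card : ℝ) ≤ C' * X ^ (2 * m / (q : ℝ) - η / (2 * q)) := by
  classical
  have hq0 : (3 : ℝ) ≤ q := by exact_mod_cast hq
  have hqp : (0 : ℝ) < q := by linarith
  obtain ⟨η, C, hη, hC, h⟩ := h
  refine ⟨η, hη, fun κ₁ δ C₂ hκ₁ hδ hC₂ hsm => ?_⟩
  refine ⟨(m : ℝ) ^ r * (C * C₂ ^ (m - r)) + 1, by positivity, fun X hX T hT B hB => ?_⟩
  have hX0 : 0 < X := by linarith
  have hlog : 0 ≤ Real.log X := Real.log_nonneg hX
  have hY : 0 ≤ (1 / (q : ℝ) + κ₁) * Real.log X := by positivity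
  -- the bound for a given `σ`
  have hone : ∀ σ : Fin r → Fin m, Function.Injective σ →
      ((B.filter fun x => Bad ((1 / (q : ℝ) + κ₁) * Real.log X) (fun s => x (σ s))).card : ℝ) ≤
        C * C₂ ^ (m - r) * X ^ (2 * m / (q : ℝ) - η / (2 * q)) := by
    intro σ hσ
    have hrm : r ≤ m := by
      have := Fintype.card_le_of_injective σ hσ
      rwa [Fintype.card_fin, Fintype.card_fin] at this
    obtain ⟨B', hB'⟩ : ∃ B' : Finset (Fin m → K),
      B' = B.filter fun x => Bad ((1 / (q : ℝ) + κ₁) * Real.log X) (fun s => x (σ s)) := ⟨_, rfl⟩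
    rw [← hB']
    have h1 : ∀ x ∈ B', (∀ i, x i ∈ T) ∧ (fun s => x (σ s)) ∈ B'.image fun x s => x (σ s) := by
      intro x hx
      refine ⟨?_, Finset.mem_image_of_mem _ hx⟩
      rw [hB', Finset.mem_filter] at hx
      exact (hB x hx.1).1
    have h2 := tuple_count σ hσ T (B'.image fun x s => x (σ s)) B' h1
    have h3 := h _ hY (B'.image fun x s => x (σ s)) (by
      intro p hp
      obtain ⟨x, hx, rfl⟩ := Finset.mem_image.1 hp
      rw [hB', Finset.mem_filter] at hx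
      exact hx.2)
    have h4 : (B'.card : ℝ) ≤ ((B'.image fun x s => x (σ s)).card : ℝ) * (T.card : ℝ) ^ (m - r) := by
      exact_mod_cast h2
    have h5 : (T.card : ℝ) ^ (m - r) ≤ (C₂ * X ^ (2 / (q : ℝ) + δ)) ^ (m - r) :=
      pow_le_pow_left₀ (Nat.cast_nonneg _) hT _
    have h6 : Real.exp ((2 * r - η) * ((1 / (q : ℝ) + κ₁) * Real.log X)) =
        X ^ ((2 * r - η) * (1 / (q : ℝ) + κ₁)) := by
      rw [Real.rpow_def_of_pos hX0]
      congr 1
      ring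
    have h7 : (C₂ * X ^ (2 / (q : ℝ) + δ)) ^ (m - r) =
        C₂ ^ (m - r) * X ^ ((2 / (q : ℝ) + δ) * ((m - r : ℕ) : ℝ)) := by
      rw [mul_pow, Real.rpow_mul hX0.le, Real.rpow_natCast]
    rw [h6] at h3
    rw [h7] at h5
    have h8 : (B'.card : ℝ) ≤ (C * X ^ ((2 * r - η) * (1 / (q : ℝ) + κ₁))) *
        (C₂ ^ (m - r) * X ^ ((2 / (q : ℝ) + δ) * ((m - r : ℕ) : ℝ))) :=
      h4.trans (mul_le_mul h3 h5 (by positivity) (by positivity))
    refine h8.trans ?_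
    have h9 : (C * X ^ ((2 * r - η) * (1 / (q : ℝ) + κ₁))) *
        (C₂ ^ (m - r) * X ^ ((2 / (q : ℝ) + δ) * ((m - r : ℕ) : ℝ))) =
        C * C₂ ^ (m - r) * X ^ ((2 * r - η) * (1 / (q : ℝ) + κ₁) +
          (2 / (q : ℝ) + δ) * ((m - r : ℕ) : ℝ)) := by
      rw [Real.rpow_add hX0]
      ring
    rw [h9]
    refine mul_le_mul_of_nonneg_left ?_ (by positivity)
    refine Real.rpow_le_rpow_of_exponent_le hX ?_
    have hr4 : (r : ℝ) ≤ 4 := by exact_mod_cast hr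
    have h10 : ((m - r : ℕ) : ℝ) = m - r := by
      rw [Nat.cast_sub hrm]
    rw [h10]
    have h11 : (2 * r - η) * (1 / (q : ℝ) + κ₁) + (2 / (q : ℝ) + δ) * ((m : ℝ) - r) =
        2 * m / (q : ℝ) - η / q + (2 * (r * κ₁) - η * κ₁ + m * δ - r * δ) := by
      field_simp
      ring
    rw [h11]
    have h12 : (r : ℝ) * κ₁ ≤ 4 * κ₁ := mul_le_mul_of_nonneg_right hr4 hκ₁
    have h13 : 0 ≤ η * κ₁ := by positivity
    have h14 : 0 ≤ (r : ℝ) * δ := by positivity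
    have h15 : η / q = 2 * (η / (2 * q)) := by
      field_simp
    rw [h15]
    linarith
  -- all `σ`
  have hsub : B ⊆ (univ.filter fun σ : Fin r → Fin m => Function.Injective σ).biUnion fun σ =>
      B.filter fun x => Bad ((1 / (q : ℝ) + κ₁) * Real.log X) (fun s => x (σ s)) := by
    intro x hx
    obtain ⟨-, σ, hσ, hb⟩ := hB x hx
    rw [Finset.mem_biUnion]
    refine ⟨σ, ?_, ?_⟩
    · rw [Finset.mem_filter]
      exact ⟨Finset.mem_univ _, hσ⟩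
    · rw [Finset.mem_filter]
      exact ⟨hx, hb⟩
  obtain ⟨W, hW⟩ : ∃ W : ℝ, W = X ^ (2 * m / (q : ℝ) - η / (2 * q)) := ⟨_, rfl⟩
  have hW0 : 0 < W := by rw [hW]; exact Real.rpow_pos_of_pos hX0 _
  rw [← hW] at hone ⊢
  have h1 : (B.card : ℝ) ≤ ∑ σ ∈ univ.filter fun σ : Fin r → Fin m => Function.Injective σ,
      ((B.filter fun x => Bad ((1 / (q : ℝ) + κ₁) * Real.log X) (fun s => x (σ s))).card : ℝ) := by
    exact_mod_cast (Finset.card_le_card hsub).trans Finset.card_biUnion_le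
  have h2 : ∑ σ ∈ univ.filter fun σ : Fin r → Fin m => Function.Injective σ,
      ((B.filter fun x => Bad ((1 / (q : ℝ) + κ₁) * Real.log X) (fun s => x (σ s))).card : ℝ) ≤
      ∑ σ ∈ univ.filter fun σ : Fin r → Fin m => Function.Injective σ, C * C₂ ^ (m - r) * W :=
    Finset.sum_le_sum fun σ hσ => hone σ (Finset.mem_filter.1 hσ).2
  rw [Finset.sum_const, nsmul_eq_mul] at h2
  have h3 : ((univ.filter fun σ : Fin r → Fin m => Function.Injective σ).card : ℝ) ≤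
      (m : ℝ) ^ r := by
    have : (univ.filter fun σ : Fin r → Fin m => Function.Injective σ).card ≤ m ^ r := by
      refine (Finset.card_le_univ _).trans ?_
      rw [Fintype.card_fun, Fintype.card_fin, Fintype.card_fin]
    exact_mod_cast this
  have h4 : ((univ.filter fun σ : Fin r → Fin m => Function.Injective σ).card : ℝ) *
      (C * C₂ ^ (m - r) * W) ≤ (m : ℝ) ^ r * (C * C₂ ^ (m - r) * W) :=
    mul_le_mul_of_nonneg_right h3 (by positivity)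
  have h5 : ((m : ℝ) ^ r * (C * C₂ ^ (m - r)) + 1) * W =
      (m : ℝ) ^ r * (C * C₂ ^ (m - r) * W) + W := by ring
  rw [h5]
  linarith

/-! ### The events -/

open Classical in
/-- the height is too small -/
def Bad0 (Y : ℝ) (p : Fin 1 → K) : Prop := logHeight₁ (p 0) < Y / 2

/-- too few common primes -/
def Bad1 (δ Y : ℝ) (p : Fin 2 → K) : Prop :=
  p 0 ≠ 0 ∧ p 1 ≠ 0 ∧ p 0 ≠ p 1 ∧ logHeight₁ (p 0) ≤ Y ∧ logHeight₁ (p 1) ≤ Y ∧
    wt (zr (p 0 / p 1 - 1)) ≤ (2 - δ) * Y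

variable {q : ℕ} (S : Set (HeightOneSpectrum (𝓞 K))) (a : Fin q → Fin 2 → K)

open Classical in
def Bad2 (δ Y : ℝ) (p : Fin 2 → K) : Prop :=
  (∀ j, form (a j) ![p 0, 1] ≠ 0) ∧ (∀ j, form (a j) ![p 1, 1] ≠ 0) ∧
    logHeight₁ (p 0) ≤ Y ∧ logHeight₁ (p 1) ≤ Y ∧ δ * Y ≤ wt (vs S a (p 0) ∩ vs S a (p 1))

open Classical in
def Bad3 (δ Y : ℝ) (p : Fin 3 → K) : Prop :=
  (∀ j, form (a j) ![p 0, 1] ≠ 0) ∧ p 1 ≠ 0 ∧ p 2 ≠ 0 ∧ p 1 ≠ p 2 ∧
    logHeight₁ (p 0) ≤ Y ∧ logHeight₁ (p 1) ≤ Y ∧ logHeight₁ (p 2) ≤ Y ∧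
      δ * Y ≤ wt (vs S a (p 0) ∩ zr (p 1 / p 2 - 1))

open Classical in
def Bad4 (δ Y : ℝ) (p : Fin 3 → K) : Prop :=
  p 0 ≠ 0 ∧ p 1 ≠ 0 ∧ p 2 ≠ 0 ∧ p 0 ≠ p 1 ∧ p 0 ≠ p 2 ∧ p 1 ≠ p 2 ∧
    logHeight₁ (p 0) ≤ Y ∧ logHeight₁ (p 1) ≤ Y ∧ logHeight₁ (p 2) ≤ Y ∧
      δ * Y ≤ wt (zr (p 0 / p 1 - 1) ∩ zr (p 0 / p 2 - 1))

open Classical in
def Bad5 (δ Y : ℝ) (p : Fin 4 → K) : Prop :=
  (p 0 ≠ 0 ∧ p 1 ≠ 0 ∧ p 0 ≠ p 1) ∧ (p 2 ≠ 0 ∧ p 3 ≠ 0 ∧ p 2 ≠ p 3) ∧
    logHeight₁ (p 0) ≤ Y ∧ logHeight₁ (p 1) ≤ Y ∧ logHeight₁ (p 2) ≤ Y ∧ logHeight₁ (p 3) ≤ Y ∧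
      δ * Y ≤ wt (zr (p 0 / p 1 - 1) ∩ zr (p 2 / p 3 - 1))

theorem ev0 (h : StmtH K) : Ev 1 (Bad0 (K := K)) := by
  classical
  obtain ⟨C, hC, h⟩ := h 1 one_pos
  refine ⟨1 / 2, C, by norm_num, hC, fun Y hY E hE => ?_⟩
  have hinj : Set.InjOn (fun p : Fin 1 → K => p 0) E := by
    intro p _ p' _ hp
    funext i
    fin_cases i
    exact hp
  have h1 := h (Y / 2) (by linarith) (E.image fun p => p 0) (by
    intro x hx
    obtain ⟨p, hp, rfl⟩ := Finset.mem_image.1 hx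
    exact (hE p hp).le)
  rw [Finset.card_image_of_injOn hinj] at h1
  refine h1.trans_eq ?_
  congr 2
  push_cast
  ring

theorem ev1 (h : StmtD K) {δ : ℝ} (hδ : 0 < δ) : Ev 2 (Bad1 (K := K) δ) := by
  classical
  obtain ⟨η, C, hη, hC, h⟩ := h δ hδ
  refine ⟨η, C, hη, hC, fun Y hY E hE => ?_⟩
  have hinj : Set.InjOn (fun p : Fin 2 → K => (p 0, p 1)) E := by
    intro p _ p' _ hp
    simp only [Prod.mk.injEq] at hp
    funext i
    fin_cases i
    · exact hp.1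
    · exact hp.2
  have h1 := h Y hY (E.image fun p => (p 0, p 1)) (by
    intro x hx
    obtain ⟨p, hp, rfl⟩ := Finset.mem_image.1 hx
    exact hE p hp)
  rw [Finset.card_image_of_injOn hinj] at h1
  refine h1.trans_eq ?_
  congr 2
  push_cast
  ring

theorem ev2 (h : StmtG1 S a) {δ : ℝ} (hδ : 0 < δ) : Ev 2 (Bad2 S a δ) := by
  classical
  obtain ⟨η, C, hη, hC, h⟩ := h δ hδ
  refine ⟨η, C, hη, hC, fun Y hY E hE => ?_⟩
  have hinj : Set.InjOn (fun p : Fin 2 → K => (p 0, p 1)) E := by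
    intro p _ p' _ hp
    simp only [Prod.mk.injEq] at hp
    funext i
    fin_cases i
    · exact hp.1
    · exact hp.2
  have h1 := h Y hY (E.image fun p => (p 0, p 1)) (by
    intro x hx
    obtain ⟨p, hp, rfl⟩ := Finset.mem_image.1 hx
    exact hE p hp)
  rw [Finset.card_image_of_injOn hinj] at h1
  refine h1.trans_eq ?_
  congr 2
  push_cast
  ring

theorem ev3 (h : StmtG2 S a) {δ : ℝ} (hδ : 0 < δ) : Ev 3 (Bad3 S a δ) := by
  classical
  obtain ⟨η, C, hη, hC, h⟩ := h δ hδ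
  refine ⟨η, C, hη, hC, fun Y hY E hE => ?_⟩
  have hinj : Set.InjOn (fun p : Fin 3 → K => (p 0, p 1, p 2)) E := by
    intro p _ p' _ hp
    simp only [Prod.mk.injEq] at hp
    funext i
    fin_cases i
    · exact hp.1
    · exact hp.2.1
    · exact hp.2.2
  have h1 := h Y hY (E.image fun p => (p 0, p 1, p 2)) (by
    intro x hx
    obtain ⟨p, hp, rfl⟩ := Finset.mem_image.1 hx
    exact hE p hp)
  rw [Finset.card_image_of_injOn hinj] at h1
  refine h1.trans_eq ?_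
  congr 2
  push_cast
  ring

theorem ev4 (h : StmtG3 K) {δ : ℝ} (hδ : 0 < δ) : Ev 3 (Bad4 (K := K) δ) := by
  classical
  obtain ⟨η, C, hη, hC, h⟩ := h δ hδ
  refine ⟨η, C, hη, hC, fun Y hY E hE => ?_⟩
  have hinj : Set.InjOn (fun p : Fin 3 → K => (p 0, p 1, p 2)) E := by
    intro p _ p' _ hp
    simp only [Prod.mk.injEq] at hp
    funext i
    fin_cases i
    · exact hp.1
    · exact hp.2.1
    · exact hp.2.2
  have h1 := h Y hY (E.image fun p => (p 0, p 1, p 2)) (by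
    intro x hx
    obtain ⟨p, hp, rfl⟩ := Finset.mem_image.1 hx
    exact hE p hp)
  rw [Finset.card_image_of_injOn hinj] at h1
  refine h1.trans_eq ?_
  congr 2
  push_cast
  ring

theorem ev5 (h : StmtG4 K) {δ : ℝ} (hδ : 0 < δ) : Ev 4 (Bad5 (K := K) δ) := by
  classical
  obtain ⟨η, C, hη, hC, h⟩ := h δ hδ
  refine ⟨η, C, hη, hC, fun Y hY E hE => ?_⟩
  have hinj : Set.InjOn (fun p : Fin 4 → K => ((p 0, p 1), (p 2, p 3))) E := by
    intro p _ p' _ hp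
    simp only [Prod.mk.injEq] at hp
    funext i
    fin_cases i
    · exact hp.1.1
    · exact hp.1.2
    · exact hp.2.1
    · exact hp.2.2
  have h1 := h Y hY (E.image fun p => ((p 0, p 1), (p 2, p 3))) (by
    intro x hx
    obtain ⟨p, hp, rfl⟩ := Finset.mem_image.1 hx
    exact hE p hp)
  rw [Finset.card_image_of_injOn hinj] at h1
  refine h1.trans_eq ?_
  congr 2
  push_cast
  ring

end Pool.Agent.Y728.MN
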