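import Pool.Agent.Y728.AK.GenPts
import Pool.Agent.H951R3.V.V3

/-!
# The truncated inequality on the moduli spaces `M_{0,n}` (configurations of `m` points on the line
minus `q ≥ 3` points) over a number field: definitions and statements of the parts (helper728)
-/

set_option autoImplicit false

namespace Pool.Agent.Y728.MN

open NumberField IsDedekindDomain Height Finset Pool.Agent.H691R3 Pool.Agent.H951R3.V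
open Pool.Agent.TH876.KR (form counting localHeight)

variable {K : Type} [Field K] [NumberField K]

/-- the weight of a finite set of primes -/
noncomputable def wt (F : Finset (HeightOneSpectrum (𝓞 K))) : ℝ := ∑ v ∈ F, ell v

theorem zr_fin (x : K) : {v : HeightOneSpectrum (𝓞 K) | x ≠ 0 ∧ fv v x < 1}.Finite := by
  by_cases hx : x = 0
  · exact Set.Finite.subset Set.finite_empty fun v hv => absurd hx hv.1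
  · refine (fv_support_finite hx).subset fun v hv => ?_
    exact hv.2.ne

/-- the primes at which `x` has a zero (`∅` for `x = 0`); `zr x⁻¹` is the set of the poles and
`zr (x - 1)` the set of the primes at which `x` reduces to `1` -/
noncomputable def zr (x : K) : Finset (HeightOneSpectrum (𝓞 K)) := (zr_fin x).toFinset

theorem mem_zr {x : K} {v : HeightOneSpectrum (𝓞 K)} : v ∈ zr x ↔ x ≠ 0 ∧ fv v x < 1 := by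
  unfold zr
  rw [Set.Finite.mem_toFinset]
  rfl

/-- the logarithm of the norm of the numerator ideal of `x`; `nu x⁻¹` is that of the
denominator -/
noncomputable def nu (x : K) : ℝ := ∑ v ∈ zr x, -Real.log (fv v x)

open Classical in
/-- the primes outside `S` at which `x` reduces to one of the points `a j` -/
noncomputable def vs {q : ℕ} (S : Set (HeightOneSpectrum (𝓞 K))) (a : Fin q → Fin 2 → K) (x : K) :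
    Finset (HeightOneSpectrum (𝓞 K)) :=
  if h : {v : HeightOneSpectrum (𝓞 K) | v ∉ S ∧ ∃ j, 0 < localHeight v (a j) ![x, 1]}.Finite
    then h.toFinset else ∅

variable (K)

/-- MA: elements with zeros at `g` and with few zeros and poles. -/
def StmtA : Prop :=
  ∀ δ : ℝ, 0 < δ → ∃ C : ℝ, 0 < C ∧ ∀ Y T₁ T₂ : ℝ, 0 ≤ Y → 0 ≤ T₁ → 0 ≤ T₂ →
    ∀ (g : Finset (HeightOneSpectrum (𝓞 K))) (E : Finset K),
      (∀ x ∈ E, x ≠ 0 ∧ logHeight₁ x ≤ Y ∧ g ⊆ zr x ∧ wt (zr x) ≤ T₁ ∧ wt (zr x⁻¹) ≤ T₂) →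
      (E.card : ℝ) ≤ C * Real.exp (T₁ - wt g + T₂ + δ * (Y + T₁ + T₂))

/-- MF: the number of subsets of a set of primes. -/
def StmtF : Prop :=
  ∀ δ : ℝ, 0 < δ → ∃ C : ℝ, 0 < C ∧ ∀ F : Finset (HeightOneSpectrum (𝓞 K)),
    (2 : ℝ) ^ F.card ≤ C * Real.exp (δ * wt F)

/-- MH: the number of elements of bounded height. -/
def StmtH : Prop :=
  ∀ δ : ℝ, 0 < δ → ∃ C : ℝ, 0 < C ∧ ∀ Y : ℝ, 0 ≤ Y → ∀ E : Finset K,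
    (∀ x ∈ E, logHeight₁ x ≤ Y) → (E.card : ℝ) ≤ C * Real.exp ((2 + δ) * Y)

/-- MB: pairs with given quotient. -/
def StmtB : Prop :=
  ∀ δ : ℝ, 0 < δ → ∃ C : ℝ, 0 < C ∧ ∀ Y : ℝ, 0 ≤ Y → ∀ z : K, z ≠ 0 → ∀ E : Finset K,
    (∀ x ∈ E, x ≠ 0 ∧ logHeight₁ x ≤ Y ∧ logHeight₁ (x / z) ≤ Y) →
    (E.card : ℝ) ≤ C * Real.exp ((2 + δ) * Y - max (nu z) (nu z⁻¹))

/-- MC: pairs which are congruent at many primes. -/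
def StmtC : Prop :=
  ∀ δ : ℝ, 0 < δ → ∃ C : ℝ, 0 < C ∧ ∀ Y : ℝ, 0 ≤ Y →
    ∀ (g : Finset (HeightOneSpectrum (𝓞 K))) (E : Finset (K × K)),
      (∀ p ∈ E, p.1 ≠ 0 ∧ p.2 ≠ 0 ∧ p.1 ≠ p.2 ∧ logHeight₁ p.1 ≤ Y ∧ logHeight₁ p.2 ≤ Y ∧
        g ⊆ zr (p.1 / p.2 - 1)) →
      (E.card : ℝ) ≤ C * Real.exp ((4 + δ) * Y - wt g)

/-- MD: pairs which are congruent at too few primes. -/
def StmtD : Prop :=
  ∀ δ : ℝ, 0 < δ → ∃ η C : ℝ, 0 < η ∧ 0 < C ∧ ∀ Y : ℝ, 0 ≤ Y → ∀ E : Finset (K × K),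
    (∀ p ∈ E, p.1 ≠ 0 ∧ p.2 ≠ 0 ∧ p.1 ≠ p.2 ∧ logHeight₁ p.1 ≤ Y ∧ logHeight₁ p.2 ≤ Y ∧
      wt (zr (p.1 / p.2 - 1)) ≤ (2 - δ) * Y) →
    (E.card : ℝ) ≤ C * Real.exp ((4 - η) * Y)

/-- ME: elements which are congruent to a given point at many primes. -/
def StmtE : Prop :=
  ∀ (a : Fin 2 → K) (δ : ℝ), 0 < δ → ∃ C : ℝ, 0 < C ∧ ∀ Y : ℝ, 0 ≤ Y →
    ∀ (g : Finset (HeightOneSpectrum (𝓞 K))) (E : Finset K),
      (∀ x ∈ E, form a ![x, 1] ≠ 0 ∧ logHeight₁ x ≤ Y ∧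
        ∀ v ∈ g, 0 < localHeight v a ![x, 1]) →
      (E.card : ℝ) ≤ C * Real.exp ((2 + δ) * Y - wt g)

variable {K} {q : ℕ} (S : Set (HeightOneSpectrum (𝓞 K))) (a : Fin q → Fin 2 → K)

open Classical in
/-- MG1: two elements with many common primes. -/
def StmtG1 : Prop :=
  ∀ δ : ℝ, 0 < δ → ∃ η C : ℝ, 0 < η ∧ 0 < C ∧ ∀ Y : ℝ, 0 ≤ Y → ∀ E : Finset (K × K),
    (∀ p ∈ E, (∀ j, form (a j) ![p.1, 1] ≠ 0) ∧ (∀ j, form (a j) ![p.2, 1] ≠ 0) ∧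
      logHeight₁ p.1 ≤ Y ∧ logHeight₁ p.2 ≤ Y ∧ δ * Y ≤ wt (vs S a p.1 ∩ vs S a p.2)) →
    (E.card : ℝ) ≤ C * Real.exp ((4 - η) * Y)

open Classical in
/-- MG2: an element and a pair with many common primes. -/
def StmtG2 : Prop :=
  ∀ δ : ℝ, 0 < δ → ∃ η C : ℝ, 0 < η ∧ 0 < C ∧ ∀ Y : ℝ, 0 ≤ Y → ∀ E : Finset (K × K × K),
    (∀ p ∈ E, (∀ j, form (a j) ![p.1, 1] ≠ 0) ∧ p.2.1 ≠ 0 ∧ p.2.2 ≠ 0 ∧ p.2.1 ≠ p.2.2 ∧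
      logHeight₁ p.1 ≤ Y ∧ logHeight₁ p.2.1 ≤ Y ∧ logHeight₁ p.2.2 ≤ Y ∧
      δ * Y ≤ wt (vs S a p.1 ∩ zr (p.2.1 / p.2.2 - 1))) →
    (E.card : ℝ) ≤ C * Real.exp ((6 - η) * Y)

variable (K)

open Classical in
/-- MG3: three elements which are congruent at many primes. -/
def StmtG3 : Prop :=
  ∀ δ : ℝ, 0 < δ → ∃ η C : ℝ, 0 < η ∧ 0 < C ∧ ∀ Y : ℝ, 0 ≤ Y → ∀ E : Finset (K × K × K),
    (∀ p ∈ E, p.1 ≠ 0 ∧ p.2.1 ≠ 0 ∧ p.2.2 ≠ 0 ∧ p.1 ≠ p.2.1 ∧ p.1 ≠ p.2.2 ∧ p.2.1 ≠ p.2.2 ∧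
      logHeight₁ p.1 ≤ Y ∧ logHeight₁ p.2.1 ≤ Y ∧ logHeight₁ p.2.2 ≤ Y ∧
      δ * Y ≤ wt (zr (p.1 / p.2.1 - 1) ∩ zr (p.1 / p.2.2 - 1))) →
    (E.card : ℝ) ≤ C * Real.exp ((6 - η) * Y)

open Classical in
/-- MG4: two pairs with many common primes. -/
def StmtG4 : Prop :=
  ∀ δ : ℝ, 0 < δ → ∃ η C : ℝ, 0 < η ∧ 0 < C ∧ ∀ Y : ℝ, 0 ≤ Y →
    ∀ E : Finset ((K × K) × (K × K)),
    (∀ p ∈ E, (p.1.1 ≠ 0 ∧ p.1.2 ≠ 0 ∧ p.1.1 ≠ p.1.2) ∧ (p.2.1 ≠ 0 ∧ p.2.2 ≠ 0 ∧ p.2.1 ≠ p.2.2) ∧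
      logHeight₁ p.1.1 ≤ Y ∧ logHeight₁ p.1.2 ≤ Y ∧ logHeight₁ p.2.1 ≤ Y ∧ logHeight₁ p.2.2 ≤ Y ∧
      δ * Y ≤ wt (zr (p.1.1 / p.1.2 - 1) ∩ zr (p.2.1 / p.2.2 - 1))) →
    (E.card : ℝ) ≤ C * Real.exp ((8 - η) * Y)

end Pool.Agent.Y728.MN
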