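import Pool.Agent.Y728.MN.Def

/-!
# The inequality for a tuple in general position (helper728)
-/

set_option autoImplicit false

namespace Pool.Agent.Y728.MN

open NumberField IsDedekindDomain Height Finset Pool.Agent.H691R3 Pool.Agent.TH876.Loc
open Pool.Agent.H951R3.V (ell ell_pos)
open Pool.Agent.TH876.KR (form counting localHeight localHeight_nonneg localHeight_pos_iff m2)

variable {K : Type} [Field K] [NumberField K]

theorem wt_nonneg (F : Finset (HeightOneSpectrum (𝓞 K))) : 0 ≤ wt F :=
  Finset.sum_nonneg fun v _ => (ell_pos v).le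

theorem wt_mono {F G : Finset (HeightOneSpectrum (𝓞 K))} (h : F ⊆ G) : wt F ≤ wt G :=
  Finset.sum_le_sum_of_subset_of_nonneg h fun v _ _ => (ell_pos v).le

theorem wt_biUnion_le {ι : Type*} [DecidableEq (HeightOneSpectrum (𝓞 K))] (T : Finset ι)
    (A : ι → Finset (HeightOneSpectrum (𝓞 K))) : wt (T.biUnion A) ≤ ∑ i ∈ T, wt (A i) := by
  classical
  induction T using Finset.induction_on with
  | empty => simp [wt]
  | insert t T ht ih =>
    rw [Finset.biUnion_insert, Finset.sum_insert ht]
    have h1 : wt (A t ∪ T.biUnion A) + wt (A t ∩ T.biUnion A) = wt (A t) + wt (T.biUnion A) :=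
      Finset.sum_union_inter
    have h2 := wt_nonneg (A t ∩ T.biUnion A)
    linarith

/-- the weight of a union -/
theorem union_lower {ι : Type*} [DecidableEq ι] [DecidableEq (HeightOneSpectrum (𝓞 K))]
    (T : Finset ι) (A : ι → Finset (HeightOneSpectrum (𝓞 K))) :
    ∑ i ∈ T, wt (A i) ≤ wt (T.biUnion A) + ∑ i ∈ T, ∑ j ∈ T.erase i, wt (A i ∩ A j) := by
  induction T using Finset.induction_on with
  | empty => simp [wt]
  | insert t T ht ih =>
    rw [Finset.biUnion_insert, Finset.sum_insert ht, Finset.sum_insert ht, Finset.erase_insert ht]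
    have h1 : wt (A t ∪ T.biUnion A) + wt (A t ∩ T.biUnion A) = wt (A t) + wt (T.biUnion A) :=
      Finset.sum_union_inter
    have h2 : wt (A t ∩ T.biUnion A) ≤ ∑ j ∈ T, wt (A t ∩ A j) := by
      have h3 : A t ∩ T.biUnion A = T.biUnion fun j => A t ∩ A j := by
        rw [Finset.inter_biUnion]
      rw [h3]
      exact wt_biUnion_le T _
    have h4 : ∑ i ∈ T, ∑ j ∈ T.erase i, wt (A i ∩ A j) ≤
        ∑ i ∈ T, ∑ j ∈ (insert t T).erase i, wt (A i ∩ A j) := by
      refine Finset.sum_le_sum fun i _ => ?_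
      exact Finset.sum_le_sum_of_subset_of_nonneg
        (Finset.erase_subset_erase _ (Finset.subset_insert _ _)) fun j _ _ => wt_nonneg _
    linarith

/-- the points `a` and `b` have the same reduction at `v` -/
def Nr (v : HeightOneSpectrum (𝓞 K)) (a b : Fin 2 → K) : Prop :=
  fv v (form a b) < m2 v a * m2 v b

theorem nr_symm {v : HeightOneSpectrum (𝓞 K)} {a b : Fin 2 → K} (h : Nr v a b) : Nr v b a := by
  unfold Nr at *
  have e : form b a = - form a b := by
    show b 0 * a 1 - b 1 * a 0 = -(a 0 * b 1 - a 1 * b 0)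
    ring
  rw [e, (fv v).map_neg, mul_comm]
  exact h

theorem m2_pos (v : HeightOneSpectrum (𝓞 K)) {b : Fin 2 → K} (hb : b ≠ 0) : 0 < m2 v b := by
  have h : b 0 ≠ 0 ∨ b 1 ≠ 0 := by
    by_contra hcon
    rw [not_or, not_not, not_not] at hcon
    apply hb
    funext i
    fin_cases i
    · exact hcon.1
    · exact hcon.2
  rcases h with h | h
  · exact lt_of_lt_of_le ((fv v).pos h) (le_max_left _ _)
  · exact lt_of_lt_of_le ((fv v).pos h) (le_max_right _ _)

theorem m2_nonneg (v : HeightOneSpectrum (𝓞 K)) (b : Fin 2 → K) : 0 ≤ m2 v b :=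
  ((fv v).nonneg _).trans (le_max_left _ _)

theorem nr_pos {v : HeightOneSpectrum (𝓞 K)} {a b : Fin 2 → K} (h : Nr v a b) :
    0 < m2 v a ∧ 0 < m2 v b := by
  have h1 : 0 < m2 v a * m2 v b := lt_of_le_of_lt ((fv v).nonneg _) h
  constructor
  · by_contra hcon
    have : m2 v a = 0 := le_antisymm (not_lt.1 hcon) (m2_nonneg v a)
    rw [this, zero_mul] at h1
    exact lt_irrefl _ h1
  · by_contra hcon
    have : m2 v b = 0 := le_antisymm (not_lt.1 hcon) (m2_nonneg v b)
    rw [this, mul_zero] at h1
    exact lt_irrefl _ h1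

theorem nr_trans {v : HeightOneSpectrum (𝓞 K)} {a b c : Fin 2 → K} (h1 : Nr v a b)
    (h2 : Nr v b c) : Nr v a c := by
  obtain ⟨pa, pb⟩ := nr_pos h1
  obtain ⟨-, pc⟩ := nr_pos h2
  unfold Nr at *
  have key : ∀ i : Fin 2, fv v (form a c * b i) < m2 v a * m2 v b * m2 v c := by
    intro i
    have e : form a c * b i = form b c * a i + form a b * c i := by
      fin_cases i
      · show (a 0 * c 1 - a 1 * c 0) * b 0 = (b 0 * c 1 - b 1 * c 0) * a 0 +
          (a 0 * b 1 - a 1 * b 0) * c 0
        ring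
      · show (a 0 * c 1 - a 1 * c 0) * b 1 = (b 0 * c 1 - b 1 * c 0) * a 1 +
          (a 0 * b 1 - a 1 * b 0) * c 1
        ring
    rw [e]
    refine lt_of_le_of_lt (fv_na v _ _) (max_lt ?_ ?_)
    · rw [map_mul]
      have h3 : fv v (a i) ≤ m2 v a := by
        fin_cases i
        · exact le_max_left _ _
        · exact le_max_right _ _
      calc fv v (form b c) * fv v (a i) ≤ fv v (form b c) * m2 v a :=
            mul_le_mul_of_nonneg_left h3 ((fv v).nonneg _)
        _ < (m2 v b * m2 v c) * m2 v a := mul_lt_mul_of_pos_right h2 pa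
        _ = _ := by ring
    · rw [map_mul]
      have h3 : fv v (c i) ≤ m2 v c := by
        fin_cases i
        · exact le_max_left _ _
        · exact le_max_right _ _
      calc fv v (form a b) * fv v (c i) ≤ fv v (form a b) * m2 v c :=
            mul_le_mul_of_nonneg_left h3 ((fv v).nonneg _)
        _ < (m2 v a * m2 v b) * m2 v c := mul_lt_mul_of_pos_right h1 pc
        _ = _ := by ring
  have h5 : fv v (form a c) * m2 v b < m2 v a * m2 v b * m2 v c := by
    have k0 := key 0
    have k1 := key 1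
    rw [map_mul] at k0 k1
    rcases max_cases (fv v (b 0)) (fv v (b 1)) with ⟨h, -⟩ | ⟨h, -⟩
    · show fv v (form a c) * max (fv v (b 0)) (fv v (b 1)) < _
      rw [h]
      exact k0
    · show fv v (form a c) * max (fv v (b 0)) (fv v (b 1)) < _
      rw [h]
      exact k1
  have h6 : m2 v a * m2 v b * m2 v c = (m2 v a * m2 v c) * m2 v b := by ring
  rw [h6] at h5
  exact lt_of_mul_lt_mul_right h5 pb.le

/-- the affine point -/
def pt (x : K) : Fin 2 → K := ![x, 1]

theorem m2_pt (v : HeightOneSpectrum (𝓞 K)) (x : K) : m2 v (pt x) = max (fv v x) 1 := by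
  show max (fv v x) (fv v 1) = _
  rw [map_one]

/-- if `x / y` reduces to `1` then `x` and `y` have the same reduction -/
theorem nr_of_zr {x y : K} (hy : y ≠ 0) {v : HeightOneSpectrum (𝓞 K)}
    (h : v ∈ zr (x / y - 1)) : Nr v (pt x) (pt y) := by
  rw [mem_zr] at h
  have h1 : x - y = (x / y - 1) * y := by field_simp
  have h2 : fv v (x - y) < fv v y := by
    rw [h1, map_mul]
    exact mul_lt_of_lt_one_left ((fv v).pos hy) h.2
  unfold Nr
  have e : form (pt x) (pt y) = x - y := by
    show x * 1 - 1 * y = x - y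
    ring
  rw [e, m2_pt, m2_pt]
  refine lt_of_lt_of_le h2 ?_
  calc fv v y ≤ max (fv v y) 1 := le_max_left _ _
    _ = 1 * max (fv v y) 1 := (one_mul _).symm
    _ ≤ max (fv v x) 1 * max (fv v y) 1 :=
        mul_le_mul_of_nonneg_right (le_max_right _ _) (le_trans zero_le_one (le_max_right _ _))

theorem zr_symm {x y : K} (hx : x ≠ 0) (hy : y ≠ 0) : zr (x / y - 1) ⊆ zr (y / x - 1) := by
  intro v h
  rw [mem_zr] at h ⊢
  obtain ⟨h1, h2⟩ := h
  have hxy : x ≠ y := by
    rintro rfl
    apply h1
    rw [div_self hy, sub_self]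
  refine ⟨?_, ?_⟩
  · rw [sub_ne_zero, ne_eq, div_eq_one_iff_eq hx]
    exact hxy.symm
  · have hxv : fv v (x / y) = 1 := by
      have h3 : (1 : K) = x / y + -(x / y - 1) := by ring
      have h4 : fv v (1 : K) ≤ max (fv v (x / y)) (fv v (-(x / y - 1))) := by
        conv_lhs => rw [h3]
        exact fv_na v _ _
      rw [map_one, (fv v).map_neg] at h4
      have h5 : x / y = (x / y - 1) + 1 := by ring
      have h6 : fv v (x / y) ≤ max (fv v (x / y - 1)) (fv v 1) := by
        conv_lhs => rw [h5]
        exact fv_na v _ _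
      rw [map_one, max_eq_right h2.le] at h6
      rcases le_max_iff.1 h4 with h7 | h7
      · exact le_antisymm h6 h7
      · exact absurd h2 (not_lt.2 h7)
    have e : y / x - 1 = -((x / y - 1) / (x / y)) := by
      field_simp
      ring
    rw [e, (fv v).map_neg, map_div₀, hxv, div_one]
    exact h2

end Pool.Agent.Y728.MN
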