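import Pool.Agent.Y728.MN.Det

/-!
# The inequality for a tuple in general position: the count (helper728)
-/

set_option autoImplicit false

namespace Pool.Agent.Y728.MN

open NumberField IsDedekindDomain Height Finset Pool.Agent.H691R3 Pool.Agent.TH876.Loc
open Pool.Agent.H951R3.V (ell ell_pos)
open Pool.Agent.TH876.KR (form counting localHeight localHeight_nonneg localHeight_pos_iff m2)

variable {K : Type} [Field K] [NumberField K]

theorem big_fin (b : Fin 2 → K) : {v : HeightOneSpectrum (𝓞 K) | 1 < m2 v b}.Finite := by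
  have h : ∀ y : K, {v : HeightOneSpectrum (𝓞 K) | 1 < fv v y}.Finite := by
    intro y
    by_cases hy : y = 0
    · refine Set.Finite.subset Set.finite_empty fun v hv => ?_
      have hv' : 1 < fv v y := hv
      rw [hy, map_zero] at hv'
      linarith
    · exact (fv_support_finite hy).subset fun v hv => ne_of_gt hv
  refine ((h (b 0)).union (h (b 1))).subset fun v hv => ?_
  have hv' : 1 < max (fv v (b 0)) (fv v (b 1)) := hv
  rcases lt_max_iff.1 hv' with h | h
  · exact Or.inl h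
  · exact Or.inr h

theorem nr_fin {a b : Fin 2 → K} (h : form a b ≠ 0) :
    {v : HeightOneSpectrum (𝓞 K) | Nr v a b}.Finite := by
  refine ((fv_support_finite h).union ((big_fin a).union (big_fin b))).subset fun v hv => ?_
  by_contra hcon
  rw [Set.mem_union, Set.mem_union, not_or, not_or] at hcon
  obtain ⟨h1, h2, h3⟩ := hcon
  have h1' : fv v (form a b) = 1 := by
    by_contra h4
    exact h1 h4
  have h2' : m2 v a ≤ 1 := not_lt.1 h2
  have h3' : m2 v b ≤ 1 := not_lt.1 h3
  have hv' : fv v (form a b) < m2 v a * m2 v b := hv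
  rw [h1'] at hv'
  have := mul_le_one₀ h2' (m2_nonneg v b) h3'
  linarith

variable {q m : ℕ} (S : Set (HeightOneSpectrum (𝓞 K))) (a : Fin q → Fin 2 → K)

theorem vs_fin {x : K} (hf : ∀ j, form (a j) (pt x) ≠ 0) :
    {v : HeightOneSpectrum (𝓞 K) | v ∉ S ∧ ∃ j, 0 < localHeight v (a j) ![x, 1]}.Finite := by
  refine (Set.finite_iUnion fun j => nr_fin (hf j)).subset ?_
  rintro v ⟨-, j, hj⟩
  exact Set.mem_iUnion.2 ⟨j, (localHeight_pos_iff v (hf j)).1 hj⟩

theorem mem_vs {x : K} (hf : ∀ j, form (a j) (pt x) ≠ 0) {v : HeightOneSpectrum (𝓞 K)} :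
    v ∈ vs S a x ↔ v ∉ S ∧ ∃ j, Nr v (a j) (pt x) := by
  classical
  unfold vs
  rw [dif_pos (vs_fin S a hf), Set.Finite.mem_toFinset]
  refine and_congr Iff.rfl (exists_congr fun j => ?_)
  exact localHeight_pos_iff v (hf j)

/-- the counting function is the weight of `vs` -/
theorem counting_vs {x : K} (hf : ∀ j, form (a j) (pt x) ≠ 0) :
    counting S a ![x, 1] = wt (vs S a x) := by
  classical
  have h1 : ∀ v : HeightOneSpectrum (𝓞 K),
      v ∈ vs S a x ↔ v ∈ {v | v ∉ S ∧ 0 < ∑ i, localHeight v (a i) ![x, 1]} := by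
    intro v
    rw [mem_vs S a hf]
    refine and_congr Iff.rfl ?_
    constructor
    · rintro ⟨j, hj⟩
      exact Finset.sum_pos' (fun i _ => localHeight_nonneg v (hf i))
        ⟨j, Finset.mem_univ _, (localHeight_pos_iff v (hf j)).2 hj⟩
    · intro h
      by_contra hcon
      push Not at hcon
      have h4 : ∑ i, localHeight v (a i) ![x, 1] ≤ 0 := by
        refine Finset.sum_nonpos fun i _ => ?_
        by_contra h5
        exact hcon i ((localHeight_pos_iff v (hf i)).1 (not_le.1 h5))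
      linarith
  unfold counting wt
  rw [finsum_mem_eq_sum_of_inter_support_eq (t := vs S a x)]
  · rfl
  · ext v
    constructor
    · rintro ⟨hv, hs⟩
      exact ⟨(h1 v).2 hv, hs⟩
    · rintro ⟨hv, hs⟩
      exact ⟨(h1 v).1 hv, hs⟩

/-- the primes outside `S` at which the configuration of the points `x i` and `a j` degenerates -/
def bd (x : Fin m → K) : Set (HeightOneSpectrum (𝓞 K)) :=
  {v | v ∉ S ∧ ((∃ i j, Nr v (a j) (pt (x i))) ∨ ∃ i k, i ≠ k ∧ Nr v (pt (x i)) (pt (x k)))}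

theorem form_pt_ne {x y : K} (h : x ≠ y) : form (pt x) (pt y) ≠ 0 := by
  show x * 1 - 1 * y ≠ 0
  rw [mul_one, one_mul]
  exact sub_ne_zero.2 h

theorem bd_fin {x : Fin m → K} (hf : ∀ i j, form (a j) (pt (x i)) ≠ 0)
    (hx : Function.Injective x) : (bd S a x).Finite := by
  have h1 : (⋃ i, ⋃ j, {v : HeightOneSpectrum (𝓞 K) | Nr v (a j) (pt (x i))}).Finite :=
    Set.finite_iUnion fun i => Set.finite_iUnion fun j => nr_fin (hf i j)
  have h2 : (⋃ i, ⋃ k, {v : HeightOneSpectrum (𝓞 K) | i ≠ k ∧ Nr v (pt (x i)) (pt (x k))}).Finite := by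
    refine Set.finite_iUnion fun i => Set.finite_iUnion fun k => ?_
    by_cases hik : i = k
    · refine Set.Finite.subset Set.finite_empty fun v hv => absurd hik hv.1
    · exact (nr_fin (form_pt_ne fun h => hik (hx h))).subset fun v hv => hv.2
  refine (h1.union h2).subset ?_
  rintro v ⟨-, h | h⟩
  · left
    obtain ⟨i, j, h⟩ := h
    exact Set.mem_iUnion.2 ⟨i, Set.mem_iUnion.2 ⟨j, h⟩⟩
  · right
    obtain ⟨i, k, h⟩ := h
    exact Set.mem_iUnion.2 ⟨i, Set.mem_iUnion.2 ⟨k, h⟩⟩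

open Classical in
/-- the truncated counting function of the boundary -/
noncomputable def nn (x : Fin m → K) : ℝ :=
  ∑ᶠ v : HeightOneSpectrum (𝓞 K), if v ∈ bd S a x then ell v else 0

theorem nn_eq {x : Fin m → K} (h : (bd S a x).Finite) : nn S a x = wt h.toFinset := by
  classical
  unfold nn wt
  rw [finsum_eq_sum_of_support_subset (s := h.toFinset)]
  · refine Finset.sum_congr rfl fun v hv => ?_
    rw [Set.Finite.mem_toFinset] at hv
    exact if_pos hv
  · intro v hv
    rw [Finset.mem_coe, Set.Finite.mem_toFinset]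
    by_contra hcon
    exact hv (if_neg hcon)

theorem card_lt (m : ℕ) :
    2 * ((univ.filter fun p : Fin m × Fin m => p.1 < p.2).card : ℝ) = (m : ℝ) * (m - 1) := by
  have h1 : (univ.filter fun p : Fin m × Fin m => p.2 < p.1).card =
      (univ.filter fun p : Fin m × Fin m => p.1 < p.2).card := by
    refine Finset.card_bij (fun p _ => (p.2, p.1)) ?_ ?_ ?_
    · intro p hp
      rw [Finset.mem_filter] at hp ⊢
      exact ⟨Finset.mem_univ _, hp.2⟩
    · intro p _ r _ h
      simp only [Prod.mk.injEq] at h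
      exact Prod.ext h.2 h.1
    · intro p hp
      rw [Finset.mem_filter] at hp
      exact ⟨(p.2, p.1), by rw [Finset.mem_filter]; exact ⟨Finset.mem_univ _, hp.2⟩, rfl⟩
  have h2 : (univ.filter fun p : Fin m × Fin m => p.1 = p.2).card = m := by
    have : (univ.filter fun p : Fin m × Fin m => p.1 = p.2) = univ.image fun i : Fin m => (i, i) := by
      ext p
      rw [Finset.mem_filter, Finset.mem_image]
      constructor
      · rintro ⟨-, h⟩
        exact ⟨p.1, Finset.mem_univ _, Prod.ext rfl h⟩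
      · rintro ⟨i, -, rfl⟩
        exact ⟨Finset.mem_univ _, rfl⟩
    rw [this, Finset.card_image_of_injective _ (fun i j h => by simpa using h), Finset.card_univ,
      Fintype.card_fin]
  have h3 : (univ : Finset (Fin m × Fin m)).card =
      (univ.filter fun p : Fin m × Fin m => p.1 < p.2).card +
      ((univ.filter fun p : Fin m × Fin m => p.1 = p.2).card +
      (univ.filter fun p : Fin m × Fin m => p.2 < p.1).card) := by
    rw [← Finset.card_union_of_disjoint, ← Finset.card_union_of_disjoint]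
    · congr 1
      ext p
      simp only [Finset.mem_union, Finset.mem_filter, Finset.mem_univ, true_and, true_iff]
      rcases lt_trichotomy p.1 p.2 with h | h | h
      · exact Or.inl h
      · exact Or.inr (Or.inl h)
      · exact Or.inr (Or.inr h)
    · rw [Finset.disjoint_left]
      intro p hp hp'
      simp only [Finset.mem_union, Finset.mem_filter, Finset.mem_univ, true_and] at hp hp'
      rcases hp' with h | h
      · exact absurd hp (by rw [h]; exact lt_irrefl _)
      · exact absurd hp (not_lt.2 h.le)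
    · rw [Finset.disjoint_left]
      intro p hp hp'
      simp only [Finset.mem_filter, Finset.mem_univ, true_and] at hp hp'
      exact absurd hp' (by rw [hp]; exact lt_irrefl _)
  rw [Finset.card_univ, Fintype.card_prod, Fintype.card_fin, h1, h2] at h3
  have h4 : (m : ℝ) * m = ((univ.filter fun p : Fin m × Fin m => p.1 < p.2).card : ℝ) +
      (m + ((univ.filter fun p : Fin m × Fin m => p.1 < p.2).card : ℝ)) := by exact_mod_cast h3
  linarith

open Classical in
/-- **the lower bound for a tuple in general position** -/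
theorem det_lower (hS : S.Finite) {x : Fin m → K} (hf : ∀ i j, form (a j) (pt (x i)) ≠ 0)
    (hx0 : ∀ i, x i ≠ 0) (hx : Function.Injective x) {Y δ₁ δ₂ : ℝ} (hY : 0 ≤ Y) (hδ₂ : 0 ≤ δ₂)
    (g3 : ∀ i k, i ≠ k → (2 - δ₁) * Y ≤ wt (zr (x i / x k - 1)))
    (g4 : ∀ i k, i ≠ k → wt (vs S a (x i) ∩ vs S a (x k)) ≤ δ₂ * Y)
    (g5 : ∀ i k l, i ≠ k → i ≠ l → k ≠ l →
      wt (vs S a (x i) ∩ zr (x k / x l - 1)) ≤ δ₂ * Y)
    (g6 : ∀ c k l, c ≠ k → c ≠ l → k ≠ l →
      wt (zr (x c / x k - 1) ∩ zr (x c / x l - 1)) ≤ δ₂ * Y)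
    (g7 : ∀ i k j l, i ≠ k → j ≠ l → i ≠ j → i ≠ l → k ≠ j → k ≠ l →
      wt (zr (x i / x k - 1) ∩ zr (x j / x l - 1)) ≤ δ₂ * Y) :
    ∑ i, wt (vs S a (x i)) + (m * (m - 1) / 2) * ((2 - δ₁) * Y - wt hS.toFinset) ≤
      nn S a x + (m + m * m) ^ 2 * (δ₂ * Y) := by
  obtain ⟨A, hA⟩ : ∃ A : Fin m ⊕ (Fin m × Fin m) → Finset (HeightOneSpectrum (𝓞 K)),
    A = Sum.elim (fun i => vs S a (x i))
      (fun p => (zr (x p.1 / x p.2 - 1)).filter (fun v => v ∉ S)) := ⟨_, rfl⟩
  have hAl : ∀ i, A (Sum.inl i) = vs S a (x i) := fun i => by rw [hA]; rfl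
  have hAr : ∀ p, A (Sum.inr p) = (zr (x p.1 / x p.2 - 1)).filter (fun v => v ∉ S) :=
    fun p => by rw [hA]; rfl
  obtain ⟨P, hP⟩ : ∃ P : Finset (Fin m × Fin m), P = univ.filter fun p => p.1 < p.2 := ⟨_, rfl⟩
  have hPm : ∀ p, p ∈ P ↔ p.1 < p.2 := fun p => by rw [hP, Finset.mem_filter]; simp
  obtain ⟨T, hT⟩ : ∃ T : Finset (Fin m ⊕ (Fin m × Fin m)),
    T = (univ : Finset (Fin m)).disjSum P := ⟨_, rfl⟩
  have hPc : 2 * (P.card : ℝ) = (m : ℝ) * (m - 1) := by rw [hP]; exact card_lt m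
  have hb : 0 ≤ δ₂ * Y := mul_nonneg hδ₂ hY
  -- all sets are contained in the set of the bad primes
  have hsub : T.biUnion A ⊆ (bd_fin S a hf hx).toFinset := by
    intro v hv
    obtain ⟨t, ht, hv⟩ := Finset.mem_biUnion.1 hv
    rw [Set.Finite.mem_toFinset]
    rcases t with i | p
    · rw [hAl, mem_vs S a (hf i)] at hv
      obtain ⟨h1, j, h2⟩ := hv
      exact ⟨h1, Or.inl ⟨i, j, h2⟩⟩
    · rw [hAr, Finset.mem_filter] at hv
      rw [hT, Finset.inr_mem_disjSum, hPm] at ht
      exact ⟨hv.2, Or.inr ⟨p.1, p.2, ht.ne, nr_of_zr (hx0 p.2) hv.1⟩⟩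
  have h1 : wt (T.biUnion A) ≤ nn S a x := by
    rw [nn_eq S a (bd_fin S a hf hx)]
    exact wt_mono hsub
  -- the overlaps
  have hov1 : ∀ i p, p ∈ P → wt (A (Sum.inl i) ∩ A (Sum.inr p)) ≤ δ₂ * Y := by
    intro i p hp
    rw [hPm] at hp
    rw [hAl, hAr]
    by_cases h1 : i = p.1
    · refine le_trans (wt_mono ?_) (g4 p.1 p.2 hp.ne)
      intro v hv
      rw [Finset.mem_inter, Finset.mem_filter, mem_vs S a (hf i)] at hv
      obtain ⟨⟨k1, j, k2⟩, k3, k4⟩ := hv
      rw [Finset.mem_inter, mem_vs S a (hf _), mem_vs S a (hf _)]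
      rw [h1] at k2
      exact ⟨⟨k1, j, k2⟩, k1, j, nr_trans k2 (nr_of_zr (hx0 _) k3)⟩
    by_cases h2 : i = p.2
    · refine le_trans (wt_mono ?_) (g4 p.1 p.2 hp.ne)
      intro v hv
      rw [Finset.mem_inter, Finset.mem_filter, mem_vs S a (hf i)] at hv
      obtain ⟨⟨k1, j, k2⟩, k3, k4⟩ := hv
      rw [Finset.mem_inter, mem_vs S a (hf _), mem_vs S a (hf _)]
      rw [h2] at k2
      exact ⟨⟨k1, j, nr_trans k2 (nr_symm (nr_of_zr (hx0 _) k3))⟩, k1, j, k2⟩
    refine le_trans (wt_mono ?_) (g5 i p.1 p.2 h1 h2 hp.ne)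
    exact Finset.inter_subset_inter_left (Finset.filter_subset _ _)
  have hov2 : ∀ p r, p ∈ P → r ∈ P → p ≠ r →
      wt (A (Sum.inr p) ∩ A (Sum.inr r)) ≤ δ₂ * Y := by
    intro p r hp hr hpr
    rw [hPm] at hp hr
    rw [hAr, hAr]
    have hs : (zr (x p.1 / x p.2 - 1)).filter (fun v => v ∉ S) ∩
        (zr (x r.1 / x r.2 - 1)).filter (fun v => v ∉ S) ⊆
        zr (x p.1 / x p.2 - 1) ∩ zr (x r.1 / x r.2 - 1) :=
      Finset.inter_subset_inter (Finset.filter_subset _ _) (Finset.filter_subset _ _)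
    refine (wt_mono hs).trans ?_
    by_cases e1 : p.1 = r.1
    · have e2 : p.2 ≠ r.2 := fun h => hpr (Prod.ext e1 h)
      have := g6 p.1 p.2 r.2 hp.ne (by rw [e1]; exact hr.ne) e2
      rw [← e1]
      exact this
    by_cases e2 : p.2 = r.2
    · refine le_trans (wt_mono ?_) (g6 p.2 p.1 r.1 hp.ne' (by rw [e2]; exact hr.ne') e1)
      rw [← e2]
      exact Finset.inter_subset_inter (zr_symm (hx0 _) (hx0 _)) (zr_symm (hx0 _) (hx0 _))
    by_cases e3 : p.1 = r.2
    · have h4 : p.2 ≠ r.1 := by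
        intro h
        rw [h, e3] at hp
        exact absurd hr (not_lt.2 hp.le)
      refine le_trans (wt_mono ?_) (g6 p.1 p.2 r.1 hp.ne (by rw [e3]; exact hr.ne') h4)
      rw [← e3]
      exact Finset.inter_subset_inter (Finset.Subset.refl _) (zr_symm (hx0 _) (hx0 _))
    by_cases e4 : p.2 = r.1
    · have h4 : p.1 ≠ r.2 := e3
      refine le_trans (wt_mono ?_) (g6 p.2 p.1 r.2 hp.ne' (by rw [e4]; exact hr.ne) h4)
      rw [← e4]
      exact Finset.inter_subset_inter (zr_symm (hx0 _) (hx0 _)) (Finset.Subset.refl _)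
    exact g7 p.1 p.2 r.1 r.2 hp.ne hr.ne e1 e3 e4 e2
  have hov : ∀ s ∈ T, ∀ t ∈ T, s ≠ t → wt (A s ∩ A t) ≤ δ₂ * Y := by
    intro s hs t ht hst
    rcases s with i | p <;> rcases t with k | r
    · rw [hAl, hAl]
      exact g4 i k fun h => hst (by rw [h])
    · rw [hT, Finset.inr_mem_disjSum] at ht
      exact hov1 i r ht
    · rw [hT, Finset.inr_mem_disjSum] at hs
      rw [Finset.inter_comm]
      exact hov1 k p hs
    · rw [hT, Finset.inr_mem_disjSum] at hs ht
      exact hov2 p r hs ht fun h => hst (by rw [h])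
  have hTc : (T.card : ℝ) ≤ m + m * m := by
    rw [hT, Finset.card_disjSum, Finset.card_univ, Fintype.card_fin]
    have : P.card ≤ m * m := by
      refine (Finset.card_le_univ _).trans ?_
      rw [Fintype.card_prod, Fintype.card_fin]
    push_cast
    have h2 : (P.card : ℝ) ≤ m * m := by exact_mod_cast this
    linarith
  have h2 := union_lower T A
  have h3 : ∑ s ∈ T, ∑ t ∈ T.erase s, wt (A s ∩ A t) ≤ (m + m * m) ^ 2 * (δ₂ * Y) := by
    calc ∑ s ∈ T, ∑ t ∈ T.erase s, wt (A s ∩ A t) ≤ ∑ s ∈ T, ∑ t ∈ T.erase s, δ₂ * Y := by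
          refine Finset.sum_le_sum fun s hs => Finset.sum_le_sum fun t ht => ?_
          rw [Finset.mem_erase] at ht
          exact hov s hs t ht.2 ht.1.symm
      _ ≤ ∑ s ∈ T, ∑ t ∈ T, δ₂ * Y := by
          refine Finset.sum_le_sum fun s _ => ?_
          exact Finset.sum_le_sum_of_subset_of_nonneg (Finset.erase_subset _ _) fun _ _ _ => hb
      _ = (T.card : ℝ) ^ 2 * (δ₂ * Y) := by
          rw [Finset.sum_const, Finset.sum_const, nsmul_eq_mul, nsmul_eq_mul]
          ring
      _ ≤ (m + m * m) ^ 2 * (δ₂ * Y) :=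
          mul_le_mul_of_nonneg_right (pow_le_pow_left₀ (Nat.cast_nonneg _) hTc 2) hb
  have h4 : ∑ t ∈ T, wt (A t) = ∑ i, wt (vs S a (x i)) +
      ∑ p ∈ P, wt ((zr (x p.1 / x p.2 - 1)).filter (fun v => v ∉ S)) := by
    rw [hT, Finset.sum_disjSum]
    congr 1
    · exact Finset.sum_congr rfl fun i _ => by rw [hAl]
    · exact Finset.sum_congr rfl fun p _ => by rw [hAr]
  have h5 : (m * (m - 1) / 2) * ((2 - δ₁) * Y - wt hS.toFinset) ≤
      ∑ p ∈ P, wt ((zr (x p.1 / x p.2 - 1)).filter (fun v => v ∉ S)) := by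
    have h6 : ∀ p ∈ P, (2 - δ₁) * Y - wt hS.toFinset ≤
        wt ((zr (x p.1 / x p.2 - 1)).filter (fun v => v ∉ S)) := by
      intro p hp
      rw [hPm] at hp
      have h7 := g3 p.1 p.2 hp.ne
      have h8 : wt (zr (x p.1 / x p.2 - 1)) ≤
          wt ((zr (x p.1 / x p.2 - 1)).filter (fun v => v ∉ S)) + wt hS.toFinset := by
        have h9 : zr (x p.1 / x p.2 - 1) ⊆
            (zr (x p.1 / x p.2 - 1)).filter (fun v => v ∉ S) ∪ hS.toFinset := by
          intro v hv
          rw [Finset.mem_union, Finset.mem_filter, Set.Finite.mem_toFinset]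
          by_cases hvS : v ∈ S
          · exact Or.inr hvS
          · exact Or.inl ⟨hv, hvS⟩
        have h10 : wt ((zr (x p.1 / x p.2 - 1)).filter (fun v => v ∉ S) ∪ hS.toFinset) +
            wt ((zr (x p.1 / x p.2 - 1)).filter (fun v => v ∉ S) ∩ hS.toFinset) =
            wt ((zr (x p.1 / x p.2 - 1)).filter (fun v => v ∉ S)) + wt hS.toFinset :=
          Finset.sum_union_inter
        have h11 := wt_nonneg ((zr (x p.1 / x p.2 - 1)).filter (fun v => v ∉ S) ∩ hS.toFinset)
        have h12 := wt_mono h9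
        linarith
      linarith
    have h7 := Finset.card_nsmul_le_sum P _ _ h6
    rw [nsmul_eq_mul] at h7
    have h8 : (m : ℝ) * (m - 1) / 2 = P.card := by linarith
    rw [h8]
    exact h7
  linarith

end Pool.Agent.Y728.MN
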