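import Pool.Agent.Y728.MN.Cnt

/-!
# Configurations in general position satisfy the inequality (helper728)
-/

set_option autoImplicit false

namespace Pool.Agent.Y728.MN

open NumberField IsDedekindDomain Height Finset Pool.Agent.H691R3 Pool.Agent.TH876.Loc
open Pool.Agent.H951R3.V (ell ell_pos)
open Pool.Agent.TH876.KR (form counting localHeight localHeight_nonneg localHeight_pos_iff m2)

theorem inj2 {α : Type*} {i k : α} (h : i ≠ k) : Function.Injective ![i, k] := by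
  intro s t hst
  fin_cases s <;> fin_cases t
  · rfl
  · exact absurd hst h
  · exact absurd hst.symm h
  · rfl

theorem inj3 {α : Type*} {i k l : α} (h1 : i ≠ k) (h2 : i ≠ l) (h3 : k ≠ l) :
    Function.Injective ![i, k, l] := by
  intro s t hst
  fin_cases s <;> fin_cases t
  · rfl
  · exact absurd hst h1
  · exact absurd hst h2
  · exact absurd hst.symm h1
  · rfl
  · exact absurd hst h3
  · exact absurd hst.symm h2
  · exact absurd hst.symm h3
  · rfl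

theorem inj4 {α : Type*} {i k j l : α} (h1 : i ≠ k) (h2 : j ≠ l) (h3 : i ≠ j) (h4 : i ≠ l)
    (h5 : k ≠ j) (h6 : k ≠ l) : Function.Injective ![i, k, j, l] := by
  intro s t hst
  fin_cases s <;> fin_cases t
  · rfl
  · exact absurd hst h1
  · exact absurd hst h3
  · exact absurd hst h4
  · exact absurd hst.symm h1
  · rfl
  · exact absurd hst h5
  · exact absurd hst h6
  · exact absurd hst.symm h3
  · exact absurd hst.symm h5
  · rfl
  · exact absurd hst h2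
  · exact absurd hst.symm h4
  · exact absurd hst.symm h6
  · exact absurd hst.symm h2
  · rfl

variable {K : Type} [Field K] [NumberField K] {q m : ℕ}
  (S : Set (HeightOneSpectrum (𝓞 K))) (a : Fin q → Fin 2 → K)

open Classical in
theorem good_conf (hS : S.Finite) (hm : 0 < m) {x : Fin m → K}
    (hf : ∀ i j, form (a j) (pt (x i)) ≠ 0) (hx : Function.Injective x)
    {Y τ κ κ₂ C₀ : ℝ} (hY : 0 < Y) (hτ : 0 < τ) (hκ : 0 < κ)
    (hcnt : ∀ i, ((q : ℝ) - κ₂) * logHeight₁ (x i) ≤ counting S a ![x i, 1])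
    (hle : ∀ i, logHeight₁ (x i) ≤ Y)
    (b0 : ∀ σ : Fin 1 → Fin m, Function.Injective σ → ¬ Bad0 Y (fun s => x (σ s)))
    (b1 : ∀ σ : Fin 2 → Fin m, Function.Injective σ → ¬ Bad1 τ Y (fun s => x (σ s)))
    (b2 : ∀ σ : Fin 2 → Fin m, Function.Injective σ → ¬ Bad2 S a τ Y (fun s => x (σ s)))
    (b3 : ∀ σ : Fin 3 → Fin m, Function.Injective σ → ¬ Bad3 S a τ Y (fun s => x (σ s)))
    (b4 : ∀ σ : Fin 3 → Fin m, Function.Injective σ → ¬ Bad4 τ Y (fun s => x (σ s)))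
    (b5 : ∀ σ : Fin 4 → Fin m, Function.Injective σ → ¬ Bad5 τ Y (fun s => x (σ s)))
    (hκ₂ : κ₂ ≤ κ / 4)
    (hτκ : 16 * (((m : ℝ) ^ 2 + (m + m * m) ^ 2) * τ) ≤ κ)
    (hbig : 8 * ((m : ℝ) ^ 2 * wt hS.toFinset + |C₀|) ≤ κ * Y) :
    ((q : ℝ) + m - 1 - κ) * ∑ i, logHeight₁ (x i) ≤ nn S a x + C₀ := by
  have hlow : ∀ i, Y / 2 ≤ logHeight₁ (x i) := by
    intro i
    by_contra hcon
    refine b0 (fun _ => i) (fun s t _ => Subsingleton.elim _ _) ?_
    exact not_le.1 hcon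
  have hx0 : ∀ i, x i ≠ 0 := by
    intro i h
    have h1 := hlow i
    rw [h, logHeight₁_zero] at h1
    linarith
  have g3 : ∀ i k, i ≠ k → (2 - τ) * Y ≤ wt (zr (x i / x k - 1)) := by
    intro i k hik
    by_contra hcon
    refine b1 ![i, k] (inj2 hik) ?_
    unfold Bad1
    exact ⟨hx0 i, hx0 k, fun h => hik (hx h), hle i, hle k, (not_le.1 hcon).le⟩
  have g4 : ∀ i k, i ≠ k → wt (vs S a (x i) ∩ vs S a (x k)) ≤ τ * Y := by
    intro i k hik
    by_contra hcon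
    refine b2 ![i, k] (inj2 hik) ?_
    unfold Bad2
    exact ⟨hf i, hf k, hle i, hle k, (not_le.1 hcon).le⟩
  have g5 : ∀ i k l, i ≠ k → i ≠ l → k ≠ l →
      wt (vs S a (x i) ∩ zr (x k / x l - 1)) ≤ τ * Y := by
    intro i k l hik hil hkl
    by_contra hcon
    refine b3 ![i, k, l] (inj3 hik hil hkl) ?_
    unfold Bad3
    exact ⟨hf i, hx0 k, hx0 l, fun h => hkl (hx h), hle i, hle k, hle l, (not_le.1 hcon).le⟩
  have g6 : ∀ c k l, c ≠ k → c ≠ l → k ≠ l →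
      wt (zr (x c / x k - 1) ∩ zr (x c / x l - 1)) ≤ τ * Y := by
    intro c k l hck hcl hkl
    by_contra hcon
    refine b4 ![c, k, l] (inj3 hck hcl hkl) ?_
    unfold Bad4
    exact ⟨hx0 c, hx0 k, hx0 l, fun h => hck (hx h), fun h => hcl (hx h), fun h => hkl (hx h),
      hle c, hle k, hle l, (not_le.1 hcon).le⟩
  have g7 : ∀ i k j l, i ≠ k → j ≠ l → i ≠ j → i ≠ l → k ≠ j → k ≠ l →
      wt (zr (x i / x k - 1) ∩ zr (x j / x l - 1)) ≤ τ * Y := by
    intro i k j l h1 h2 h3 h4 h5 h6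
    by_contra hcon
    refine b5 ![i, k, j, l] (inj4 h1 h2 h3 h4 h5 h6) ?_
    unfold Bad5
    exact ⟨⟨hx0 i, hx0 k, fun h => h1 (hx h)⟩, ⟨hx0 j, hx0 l, fun h => h2 (hx h)⟩,
      hle i, hle k, hle j, hle l, (not_le.1 hcon).le⟩
  have h1 := det_lower S a hS hf hx0 hx hY.le hτ.le g3 g4 g5 g6 g7
  obtain ⟨H, hH⟩ : ∃ H : ℝ, H = ∑ i, logHeight₁ (x i) := ⟨_, rfl⟩
  obtain ⟨M, hM⟩ : ∃ M : ℝ, M = (m : ℝ) := ⟨_, rfl⟩
  have hM1 : 1 ≤ M := by rw [hM]; exact_mod_cast hm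
  have h2 : ((q : ℝ) - κ₂) * H ≤ ∑ i, wt (vs S a (x i)) := by
    rw [hH, Finset.mul_sum]
    refine Finset.sum_le_sum fun i _ => ?_
    rw [← counting_vs S a (hf i)]
    exact hcnt i
  have h3 : H ≤ M * Y := by
    rw [hH, hM]
    refine (Finset.sum_le_sum fun i _ => hle i).trans (le_of_eq ?_)
    rw [Finset.sum_const, Finset.card_univ, Fintype.card_fin, nsmul_eq_mul]
  have h4 : Y ≤ 2 * H := by
    have h5 : logHeight₁ (x ⟨0, hm⟩) ≤ H := by
      rw [hH]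
      exact Finset.single_le_sum (f := fun i => logHeight₁ (x i))
        (fun i _ => zero_le_logHeight₁ _) (Finset.mem_univ _)
    have h6 := hlow ⟨0, hm⟩
    linarith
  have hH0 : 0 ≤ H := by linarith
  obtain ⟨w, hw⟩ : ∃ w : ℝ, w = wt hS.toFinset := ⟨_, rfl⟩
  have hw0 : 0 ≤ w := by rw [hw]; exact wt_nonneg _
  obtain ⟨B, hB⟩ : ∃ B : ℝ, B = (M + M * M) ^ 2 := ⟨_, rfl⟩
  rw [← hH]
  rw [← hM, ← hw, ← hB] at h1
  rw [← hM, ← hB] at hτκ
  rw [← hM, ← hw] at hbig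
  rw [← hM]
  -- the terms of the lower bound
  have e1 : (M - 1) * H ≤ (M - 1) * (M * Y) := mul_le_mul_of_nonneg_left h3 (by linarith)
  have e2 : M * (M - 1) / 2 * (τ * Y) ≤ M ^ 2 * (τ * Y) := by
    refine mul_le_mul_of_nonneg_right ?_ (by positivity)
    nlinarith
  have e3 : M * (M - 1) / 2 * w ≤ M ^ 2 * w := by
    refine mul_le_mul_of_nonneg_right ?_ hw0
    nlinarith
  have e4 : 16 * ((M ^ 2 + B) * τ) * Y ≤ κ * Y := mul_le_mul_of_nonneg_right hτκ hY.le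
  have e5 : κ * Y ≤ κ * (2 * H) := mul_le_mul_of_nonneg_left h4 hκ.le
  have e6 : κ₂ * H ≤ κ / 4 * H := mul_le_mul_of_nonneg_right hκ₂ hH0
  have e7 := neg_abs_le C₀
  have e8 : M * (M - 1) / 2 * ((2 - τ) * Y - w) =
      (M - 1) * (M * Y) - M * (M - 1) / 2 * (τ * Y) - M * (M - 1) / 2 * w := by ring
  rw [e8] at h1
  have e9 : 16 * ((M ^ 2 + B) * τ) * Y = 16 * (M ^ 2 * (τ * Y)) + 16 * (B * (τ * Y)) := by ring
  have e10 : 0 ≤ κ * H := mul_nonneg hκ.le hH0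
  have e11 : ((q : ℝ) + M - 1 - κ) * H = ((q : ℝ) - κ₂) * H + (M - 1) * H + κ₂ * H - κ * H := by
    ring
  rw [e11]
  nlinarith

end Pool.Agent.Y728.MN
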