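import Pool.Agent.Y728.MN.Sub
import Pool.Agent.Y728.AK.ValK
import Pool.Agent.Y729.RV.Base
import Pool.Agent.Y729.RV.Crv
import Pool.Agent.W976.AC.EX
import Pool.Agent.W460.AC.NORM
import Pool.Agent.W597.AC.LOC
import Pool.Agent.W193.AC.FINQ
import Pool.Agent.W398.AC.DIM
import Pool.Agent.W803.AC.SUMN
import Pool.Agent.W131.AC.GROW
import Pool.Agent.W395.AC.LOCM
import Pool.Agent.W989.AC.MULT
import Pool.Agent.W410.AC.HTG

/-!
# Points of products of curves over a number field (helper728)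
-/

set_option autoImplicit false

namespace Pool.Agent.Y728.MN

open NumberField IsDedekindDomain Height Finset Pool.Agent.H691R3 Pool.Agent.TH876.Loc Polynomial
open Pool.Agent.Y728.AK
open Pool.Agent.H951R3.V (ell ell_pos)
open Pool.Agent.TH876.KR (form counting localHeight m2)

open Pool.Agent.W223.AC in
theorem partNB : StmtNB :=
  nb (Pool.Agent.W976.AC.EX.t Pool.Agent.W398.AC.DIM.t Pool.Agent.W193.AC.FINQ.t
      Pool.Agent.W989.AC.MULT.t)
    (Pool.Agent.W395.AC.LOCM.t Pool.Agent.W989.AC.MULT.t Pool.Agent.W597.AC.t)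
    (Pool.Agent.W410.AC.t Pool.Agent.W131.AC.t) Pool.Agent.W803.AC.t Pool.Agent.W460.AC.t

/-- the function `t` -/
noncomputable def crd (K A : Type) [Field K] [CommRing A] [Algebra K[X] A] : A :=
  algebraMap K[X] A X

variable {K : Type} [Field K] [NumberField K] {m q : ℕ} {A : Fin m → Type} [∀ i, CommRing (A i)]
  [∀ i, Algebra K (A i)] [∀ i, Algebra K[X] (A i)]

/-- the primes of `L` at which the point meets the divisor -/
def Cond (S : Finset (HeightOneSpectrum (𝓞 K))) (a : Fin q → K) (u : Fin m → Fin q → ℕ)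
    (y : ∀ i j, Fin (u i j) → A i) (G : Finset (Fin m × Fin m)) {L : Type} [Field L]
    [NumberField L] [Algebra K L] (φ : ∀ i, A i →ₐ[K] L) (w : HeightOneSpectrum (𝓞 L)) : Prop :=
  (∀ p ∈ S, w.asIdeal.comap (algebraMap (𝓞 K) (𝓞 L)) ≠ p.asIdeal) ∧
    ((∃ i, w.valuation L (φ i (crd K (A i))) ≤ 1 ∧
      ∃ j, w.valuation L (φ i (crd K (A i)) - algebraMap K L (a j)) < 1 ∧
        ∀ l, w.valuation L (φ i (y i j l)) < 1) ∨
    ∃ p ∈ G, w.valuation L (φ p.1 (crd K (A p.1)) - φ p.2 (crd K (A p.2))) <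
      max (w.valuation L (φ p.1 (crd K (A p.1)))) 1 *
        max (w.valuation L (φ p.2 (crd K (A p.2)))) 1)

open Classical in
/-- the truncated counting function, not normalised -/
noncomputable def trn (S : Finset (HeightOneSpectrum (𝓞 K))) (a : Fin q → K)
    (u : Fin m → Fin q → ℕ) (y : ∀ i j, Fin (u i j) → A i) (G : Finset (Fin m × Fin m)) {L : Type}
    [Field L] [NumberField L] [Algebra K L] (φ : ∀ i, A i →ₐ[K] L) : ℝ :=
  ∑ᶠ w : HeightOneSpectrum (𝓞 L),
    if Cond S a u y G φ w then Real.log (Ideal.absNorm w.asIdeal) else 0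

theorem meet_pt {L : Type} [Field L] [NumberField L] (w : HeightOneSpectrum (𝓞 L)) (x y : L) :
    Meet w (pt x) (pt y) ↔
      w.valuation L (x - y) < max (w.valuation L x) 1 * max (w.valuation L y) 1 := by
  unfold Meet pt
  have e : (![x, 1] : Fin 2 → L) 0 * (![y, 1] : Fin 2 → L) 1 -
      (![x, 1] : Fin 2 → L) 1 * (![y, 1] : Fin 2 → L) 0 = x - y := by
    show x * 1 - 1 * y = x - y
    ring
  rw [e]
  show w.valuation L (x - y) < max (w.valuation L x) (w.valuation L 1) *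
    max (w.valuation L y) (w.valuation L 1) ↔ _
  rw [map_one]

/-- **the truncated counting function of a point over `L`** -/
theorem lev [∀ i, IsDedekindDomain (A i)] [∀ i, IsScalarTower K K[X] (A i)]
    [∀ i, Module.Finite K[X] (A i)] [∀ i, FaithfulSMul K[X] (A i)] (hq : 1 ≤ q) (a : Fin q → K)
    (u : Fin m → Fin q → ℕ) (y : ∀ i j, Fin (u i j) → A i) (E : ∀ i, Fin q → Ideal (A i))
    (hE : ∀ i j, E i j ≠ ⊥)
    (hyE : ∀ i j l, ∀ e ∈ E i j,
      y i j l * e ∈ (Ideal.span {crd K (A i) - algebraMap K (A i) (a j)}).radical)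
    {G : Finset (Fin m × Fin m)} (hG : ∀ p ∈ G, p.1 < p.2) (S : Finset (HeightOneSpectrum (𝓞 K)))
    {ε : ℝ} (hε : 0 < ε) :
    ∃ (Gp : Fin m → ℚ[X]) (C : ℝ), (∀ i, Gp i ≠ 0) ∧
      ∀ (x : Fin m → K) (hf : ∀ i j, form (pK (a j)) (pt (x i)) ≠ 0) (hx : Function.Injective x),
        (∀ i, aeval (x i) (Gp i) ≠ 0) →
        ∀ (L : Type) [Field L] [NumberField L] [Algebra K L] (φ : ∀ i, A i →ₐ[K] L),
          (∀ i, φ i (crd K (A i)) = algebraMap K L (x i)) →
          (Module.finrank K L : ℝ) *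
            (wt (bdT_fin (S := (S : Set (HeightOneSpectrum (𝓞 K)))) (a := fun j => pK (a j))
              hf hx univ hG).toFinset + Real.log |(discr K : ℝ)| - C) ≤
            Real.log |(discr L : ℝ)| + trn S a u y G φ + (Module.finrank K L : ℝ) *
              ∑ i, ((∑ j, (Module.finrank K (A i ⧸ E i j) : ℝ)) / Module.finrank K[X] (A i) + ε) *
                logHeight₁ (x i) := by
  classical
  have hkey := fun i => Pool.Agent.Y729.RV.keyK partNB Pool.Agent.W460.AC.t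
    Pool.Agent.W989.AC.MULT.t Pool.Agent.W597.AC.t K (A i) hq a (u i) (y i) (E i) (hE i) (hyE i)
    ε hε
  choose M Ck Gp hM hCk hGp hkey using hkey
  obtain ⟨S0, hS0⟩ : ∃ S0 : Finset ℕ,
    S0 = S.biUnion fun p => (Ideal.absNorm p.asIdeal).primeFactors := ⟨_, rfl⟩
  obtain ⟨T, hT⟩ : ∃ T : Finset ℕ,
    T = S0 ∪ (univ : Finset (Fin m)).biUnion fun i => (M i).primeFactors := ⟨_, rfl⟩
  have hTM : ∀ i, T ∪ (M i).primeFactors = T := by
    intro i
    rw [Finset.union_eq_left, hT]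
    exact (Finset.subset_biUnion_of_mem (fun i => (M i).primeFactors) (Finset.mem_univ i)).trans
      Finset.subset_union_right
  have hTp : ∀ p ∈ T, p.Prime := by
    intro p hp
    rw [hT] at hp
    rcases Finset.mem_union.1 hp with h | h
    · rw [hS0] at h
      obtain ⟨v, -, hv⟩ := Finset.mem_biUnion.1 h
      exact Nat.prime_of_mem_primeFactors hv
    · obtain ⟨i, -, hi⟩ := Finset.mem_biUnion.1 h
      exact Nat.prime_of_mem_primeFactors hi
  obtain ⟨S', hSS', hS'1, hS'2⟩ := exists_big a S T hTp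
  obtain ⟨d, hd⟩ : ∃ d : ℝ, d = (Module.finrank ℚ K : ℝ) := ⟨_, rfl⟩
  refine ⟨Gp, wt S' + d * ∑ i, Ck i, hGp, ?_⟩
  intro x hf hx hGx L _ _ _ φ hφ
  obtain ⟨ξ, hξ⟩ : ∃ ξ : Fin m → L, ξ = fun i => algebraMap K L (x i) := ⟨_, rfl⟩
  have hφξ : ∀ i, φ i (crd K (A i)) = ξ i := by intro i; rw [hφ i, hξ]
  have hxa : ∀ i j, x i ≠ a j := by
    intro i j h
    apply hf i j
    show form (pK (a j)) ![x i, 1] = 0
    rw [formK, h, sub_self]
  have hne : ∀ i j, ξ i ≠ algebraMap K L (a j) := by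
    intro i j h
    rw [hξ] at h
    exact hxa i j ((algebraMap K L).injective h)
  have hinj : Function.Injective ξ := by
    rw [hξ]
    exact (algebraMap K L).injective.comp hx
  -- the finite sets
  obtain ⟨Af, hAf⟩ : ∃ Af : Fin m → Finset (HeightOneSpectrum (𝓞 L)),
    Af = fun i => (Pool.Agent.Y729.RV.nr_fin T (hne i)).toFinset := ⟨_, rfl⟩
  have hAm : ∀ i w, w ∈ Af i ↔ Pool.Agent.Y729.RV.Nr T a (ξ i) w := by
    intro i w
    rw [hAf, Set.Finite.mem_toFinset]
    rfl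
  have hBfin : ∀ i, {w : HeightOneSpectrum (𝓞 L) | (∀ p ∈ T, (p : 𝓞 L) ∉ w.asIdeal) ∧
      w.valuation L (ξ i) ≤ 1 ∧ ∃ j, w.valuation L (ξ i - algebraMap K L (a j)) < 1 ∧
        ∀ l, w.valuation L (φ i (y i j l)) < 1}.Finite := by
    intro i
    refine (Pool.Agent.Y729.RV.nr_fin T (hne i)).subset ?_
    rintro w ⟨h1, h2, j, h3, -⟩
    exact ⟨h1, h2, j, h3⟩
  obtain ⟨Bf, hBf⟩ : ∃ Bf : Fin m → Finset (HeightOneSpectrum (𝓞 L)),
    Bf = fun i => (hBfin i).toFinset := ⟨_, rfl⟩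
  have hBm : ∀ i w, w ∈ Bf i ↔ (∀ p ∈ T, (p : 𝓞 L) ∉ w.asIdeal) ∧
      w.valuation L (ξ i) ≤ 1 ∧ ∃ j, w.valuation L (ξ i - algebraMap K L (a j)) < 1 ∧
        ∀ l, w.valuation L (φ i (y i j l)) < 1 := by
    intro i w
    rw [hBf, Set.Finite.mem_toFinset]
    rfl
  have hBA : ∀ i, Bf i ⊆ Af i := by
    intro i w hw
    rw [hBm] at hw
    obtain ⟨h1, h2, j, h3, -⟩ := hw
    rw [hAm]
    exact ⟨h1, h2, j, h3⟩
  have hmfin : ∀ p : Fin m × Fin m, p.1 < p.2 →
      {w : HeightOneSpectrum (𝓞 L) | Meet w (pt (ξ p.1)) (pt (ξ p.2))}.Finite := by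
    intro p hp
    refine (nr_fin (form_pt_ne fun h => hp.ne (hinj h))).subset fun w hw => ?_
    exact (meet_iff w _ _).1 hw
  have hGall : {w : HeightOneSpectrum (𝓞 L) | ∃ p ∈ G, Meet w (pt (ξ p.1)) (pt (ξ p.2))}.Finite := by
    refine (Set.Finite.biUnion (Finset.finite_toSet G) (fun p hp => hmfin p (hG p hp))).subset ?_
    rintro w ⟨p, hp, hw⟩
    exact Set.mem_biUnion (Finset.mem_coe.2 hp) hw
  obtain ⟨Gf, hGf⟩ : ∃ Gf : Finset (HeightOneSpectrum (𝓞 L)),
    Gf = hGall.toFinset.filter fun w => ∀ p ∈ T, (p : 𝓞 L) ∉ w.asIdeal := ⟨_, rfl⟩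
  have hGm : ∀ w, w ∈ Gf ↔ (∃ p ∈ G, Meet w (pt (ξ p.1)) (pt (ξ p.2))) ∧
      ∀ p ∈ T, (p : 𝓞 L) ∉ w.asIdeal := by
    intro w
    rw [hGf, Finset.mem_filter, Set.Finite.mem_toFinset]
    rfl
  -- the key inequality for every curve
  have hdiff : ∀ i, wt (Af i) - wt (Bf i) ≤
      ((∑ j, (Module.finrank K (A i ⧸ E i j) : ℝ)) / Module.finrank K[X] (A i) + ε) *
        Real.log (mulHeight₁ (ξ i)) + Module.finrank ℚ L * Ck i := by
    intro i
    have h1 := hkey i T L (φ i) (by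
      have : φ i (algebraMap K[X] (A i) X) = algebraMap K L (x i) := hφ i
      rw [this, aeval_algebraMap_apply]
      intro h
      exact hGx i ((map_eq_zero _).1 h)) (by
      intro j
      have : φ i (algebraMap K[X] (A i) X) = ξ i := hφξ i
      rw [this]
      exact hne i j)
    have e0 : φ i (algebraMap K[X] (A i) X) = ξ i := hφξ i
    rw [hTM i, e0] at h1
    have e1 : Pool.Agent.Y729.RV.cnt T a (ξ i) = wt (Af i) := by
      rw [Pool.Agent.Y729.RV.cnt_eq T (hne i), hAf]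
      rfl
    have e2 : Pool.Agent.W223.CV.cc T (fun v : HeightOneSpectrum (𝓞 L) =>
        v.valuation L (ξ i) ≤ 1 ∧ ∃ j, v.valuation L (ξ i - algebraMap K L (a j)) < 1 ∧
          ∀ l, v.valuation L (φ i (y i j l)) < 1) = wt (Bf i) := by
      unfold Pool.Agent.W223.CV.cc wt
      rw [finsum_eq_sum_of_support_subset (s := Bf i)]
      · refine Finset.sum_congr rfl fun w hw => ?_
        exact Pool.Agent.W223.CV.ct_pos ((hBm i w).1 hw)
      · intro w hw
        rw [Finset.mem_coe, hBm]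
        by_contra hcon
        exact hw (Pool.Agent.W223.CV.ct_neg hcon)
    rw [e1, e2] at h1
    linarith
  -- the sets at the level of `L`
  obtain ⟨WA, hWA⟩ : ∃ WA : Finset (HeightOneSpectrum (𝓞 L)),
    WA = (univ : Finset (Fin m)).biUnion Af ∪ Gf := ⟨_, rfl⟩
  obtain ⟨WB, hWB⟩ : ∃ WB : Finset (HeightOneSpectrum (𝓞 L)),
    WB = (univ : Finset (Fin m)).biUnion Bf ∪ Gf := ⟨_, rfl⟩
  have hsub : WA ⊆ WB ∪ (univ : Finset (Fin m)).biUnion fun i => Af i \ Bf i := by
    intro w hw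
    rw [hWA, Finset.mem_union, Finset.mem_biUnion] at hw
    rw [hWB, Finset.mem_union, Finset.mem_union, Finset.mem_biUnion, Finset.mem_biUnion]
    rcases hw with ⟨i, -, hi⟩ | hw
    · by_cases hB : w ∈ Bf i
      · exact Or.inl (Or.inl ⟨i, Finset.mem_univ _, hB⟩)
      · exact Or.inr ⟨i, Finset.mem_univ _, Finset.mem_sdiff.2 ⟨hi, hB⟩⟩
    · exact Or.inl (Or.inr hw)
  have hWle : wt WA ≤ wt WB + ∑ i, (wt (Af i) - wt (Bf i)) := by
    refine (wt_mono hsub).trans ((wt_union_le _ _).trans (add_le_add le_rfl ?_))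
    refine (wt_biUnion_le _ _).trans (Finset.sum_le_sum fun i _ => ?_)
    have h1 : wt (Af i \ Bf i) + wt (Bf i) = wt (Af i) := Finset.sum_sdiff (hBA i)
    linarith
  -- the base change
  obtain ⟨Bd, hBd⟩ : ∃ Bd : Finset (HeightOneSpectrum (𝓞 K)),
    Bd = (bdT_fin (S := (S : Set (HeightOneSpectrum (𝓞 K)))) (a := fun j => pK (a j))
      hf hx univ hG).toFinset := ⟨_, rfl⟩
  have hBdm : ∀ v, v ∈ Bd ↔ v ∈ bdT (S : Set (HeightOneSpectrum (𝓞 K))) (fun j => pK (a j)) univ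
      G x := by
    intro v
    rw [hBd, Set.Finite.mem_toFinset]
  have hT' : ∀ v ∉ S', ∀ w : HeightOneSpectrum (𝓞 L), w.asIdeal.LiesOver v.asIdeal →
      ∀ p ∈ T, (p : 𝓞 L) ∉ w.asIdeal := by
    intro v hv w hw p hp hpw
    apply hS'1 v hv p hp
    rw [Ideal.mem_of_liesOver w.asIdeal v.asIdeal, map_natCast]
    exact hpw
  have hbase := Pool.Agent.Y729.RV.base_change (k := K) (L := L) (Bd.filter fun v => v ∉ S') WA (by
    intro v hv w hw
    rw [Finset.mem_filter, hBdm] at hv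
    obtain ⟨⟨-, hv⟩, hvS'⟩ := hv
    rw [hWA, Finset.mem_union, Finset.mem_biUnion]
    rcases hv with ⟨p, -, hv⟩ | ⟨p, hp, hv⟩
    · left
      refine ⟨p.1, Finset.mem_univ _, ?_⟩
      rw [hAm, hξ]
      beta_reduce
      rw [Pool.Agent.Y729.RV.nr_iff T a (x p.1) v w]
      rw [← meet_iff] at hv
      have hv' : v.valuation K (a p.2 - x p.1) <
          max (v.valuation K (a p.2)) 1 * max (v.valuation K (x p.1)) 1 :=
        (meet_pt v (a p.2) (x p.1)).1 hv
      rw [max_eq_right (hS'2 v hvS' p.2), one_mul, ← neg_sub, Valuation.map_neg] at hv'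
      have h3 : v.valuation K (x p.1) ≤ 1 := by
        by_contra hcon
        rw [not_le] at hcon
        have h4 : v.valuation K (x p.1 - a p.2) = v.valuation K (x p.1) :=
          Valuation.map_sub_eq_of_lt_left _ ((hS'2 v hvS' p.2).trans_lt hcon)
        rw [h4, max_eq_left hcon.le] at hv'
        exact lt_irrefl _ hv'
      rw [max_eq_right h3] at hv'
      exact ⟨hS'1 v hvS', h3, p.2, hv'⟩
    · right
      rw [hGm]
      refine ⟨⟨p, hp, ?_⟩, hT' v hvS' w hw⟩
      rw [hξ]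
      beta_reduce
      rw [← pt_map, ← pt_map, meet_over v w, meet_iff]
      exact hv)
  have hbase' : (Module.finrank K L : ℝ) * (Real.log |(discr K : ℝ)| +
      wt (Bd.filter fun v => v ∉ S')) ≤ Real.log |(discr L : ℝ)| + wt WA := hbase
  have hBdle : wt Bd ≤ wt (Bd.filter fun v => v ∉ S') + wt S' := by
    refine (wt_mono (fun v hv => ?_)).trans (wt_union_le _ _)
    rw [Finset.mem_union, Finset.mem_filter]
    by_cases h : v ∈ S'
    · exact Or.inr h
    · exact Or.inl ⟨hv, h⟩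
  -- the truncated counting function
  have hCfin : {w : HeightOneSpectrum (𝓞 L) | Cond S a u y G φ w}.Finite := by
    have h1 : (⋃ i : Fin m, ⋃ j : Fin q,
        {w : HeightOneSpectrum (𝓞 L) | w.valuation L (ξ i - algebraMap K L (a j)) < 1}).Finite :=
      Set.finite_iUnion fun i => Set.finite_iUnion fun j =>
        Pool.Agent.Y729.RV.val_fin (sub_ne_zero.2 (hne i j))
    refine (h1.union hGall).subset ?_
    rintro w ⟨-, ⟨i, -, j, hj, -⟩ | ⟨p, hp, hw⟩⟩
    · left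
      rw [hφξ] at hj
      exact Set.mem_iUnion.2 ⟨i, Set.mem_iUnion.2 ⟨j, hj⟩⟩
    · right
      refine ⟨p, hp, ?_⟩
      rw [hφξ, hφξ] at hw
      exact (meet_pt w _ _).2 hw
  have htrn : trn S a u y G φ = wt hCfin.toFinset := by
    unfold trn wt
    rw [finsum_eq_sum_of_support_subset (s := hCfin.toFinset)]
    · refine Finset.sum_congr rfl fun w hw => ?_
      rw [Set.Finite.mem_toFinset] at hw
      exact if_pos hw
    · intro w hw
      rw [Finset.mem_coe, Set.Finite.mem_toFinset]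
      by_contra hcon
      exact hw (if_neg hcon)
  have hS0 : ∀ w : HeightOneSpectrum (𝓞 L), (∀ p ∈ T, (p : 𝓞 L) ∉ w.asIdeal) →
      ∀ p ∈ S, w.asIdeal.comap (algebraMap (𝓞 K) (𝓞 L)) ≠ p.asIdeal := by
    intro w hw p hp hpw
    have h7 : ((Ideal.absNorm p.asIdeal : ℕ) : 𝓞 L) ∉ w.asIdeal := by
      refine Pool.Agent.W223.AC.not_mem_of_primes ?_ fun l hl => hw l ?_
      · rw [Ne, Ideal.absNorm_eq_zero_iff]
        exact p.ne_bot
      · rw [hT, hS0]
        exact Finset.mem_union_left _ (Finset.mem_biUnion.2 ⟨p, hp, hl⟩)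
    apply h7
    have h8 := Ideal.absNorm_mem p.asIdeal
    rw [← hpw, Ideal.mem_comap, map_natCast] at h8
    rw [hpw] at h8
    exact h8
  have hWBle : wt WB ≤ trn S a u y G φ := by
    rw [htrn]
    refine wt_mono fun w hw => ?_
    rw [Set.Finite.mem_toFinset]
    rw [hWB, Finset.mem_union, Finset.mem_biUnion] at hw
    rcases hw with ⟨i, -, hi⟩ | hw
    · rw [hBm] at hi
      obtain ⟨h1, h2, j, h3, h4⟩ := hi
      refine ⟨hS0 w h1, Or.inl ⟨i, ?_, j, ?_, h4⟩⟩
      · rw [hφξ]; exact h2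
      · rw [hφξ]; exact h3
    · rw [hGm] at hw
      obtain ⟨⟨p, hp, h1⟩, h2⟩ := hw
      refine ⟨hS0 w h2, Or.inr ⟨p, hp, ?_⟩⟩
      rw [hφξ, hφξ]
      exact (meet_pt w _ _).1 h1
  -- put everything together
  have hfd : FiniteDimensional K L := Module.Finite.of_restrictScalars_finite ℚ K L
  obtain ⟨mL, hmL⟩ : ∃ mL : ℝ, mL = (Module.finrank K L : ℝ) := ⟨_, rfl⟩
  have hm0 : 0 < mL := by rw [hmL]; exact_mod_cast Module.finrank_pos
  have htow : (Module.finrank ℚ L : ℝ) = d * mL := by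
    rw [hd, hmL]
    exact_mod_cast (Module.finrank_mul_finrank ℚ K L).symm
  have hH : ∀ i, Real.log (mulHeight₁ (ξ i)) = mL * logHeight₁ (x i) := by
    intro i
    rw [hξ, hmL, logHeight₁_eq_log_mulHeight₁]
    exact Pool.Agent.W223.AC.MK.log_height_ext L (x i)
  have hsum : ∑ i, (wt (Af i) - wt (Bf i)) ≤
      mL * ∑ i, ((∑ j, (Module.finrank K (A i ⧸ E i j) : ℝ)) / Module.finrank K[X] (A i) + ε) *
        logHeight₁ (x i) + d * mL * ∑ i, Ck i := by
    rw [Finset.mul_sum, Finset.mul_sum, ← Finset.sum_add_distrib]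
    refine Finset.sum_le_sum fun i _ => ?_
    have h1 := hdiff i
    rw [hH, htow] at h1
    linarith
  rw [← hBd, ← hmL]
  rw [← hmL] at hbase'
  have h9 : mL * (wt Bd + Real.log |(discr K : ℝ)| - (wt S' + d * ∑ i, Ck i)) ≤
      mL * (Real.log |(discr K : ℝ)| + wt (Bd.filter fun v => v ∉ S')) - d * mL * ∑ i, Ck i := by
    have e1 : mL * (Real.log |(discr K : ℝ)| + wt (Bd.filter fun v => v ∉ S')) -
        d * mL * ∑ i, Ck i = mL * (Real.log |(discr K : ℝ)| +
          wt (Bd.filter fun v => v ∉ S') - d * ∑ i, Ck i) := by ring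
    rw [e1]
    refine mul_le_mul_of_nonneg_left ?_ hm0.le
    linarith
  linarith

end Pool.Agent.Y728.MN
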