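import Pool.Agent.Y728.MN.Lv
import Pool.Agent.Y728.AK.ProxK

/-!
# Proximity functions of points of products of curves over a number field (helper728)
-/

set_option autoImplicit false

namespace Pool.Agent.Y728.MN

open NumberField IsDedekindDomain Height Finset Pool.Agent.TH876.Loc Polynomial
open Pool.Agent.H691R3 hiding mt av mt_pos
open Pool.Agent.Y728.AK
open Pool.Agent.H951R3.V (ell ell_pos)
open Pool.Agent.TH876.KR (form counting localHeight localHeight_pos_iff m2)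

section

variable {L : Type} [Field L] [NumberField L]

open Classical in
/-- the proximity function of the diagonal -/
noncomputable def prG (S : Finset ℕ) (x y : L) : ℝ :=
  ∑ w : InfinitePlace L, (w.mult : ℝ) * max 0 (lamI w x y) +
    ∑ᶠ v : HeightOneSpectrum (𝓞 L), if ∃ p ∈ S, (p : 𝓞 L) ∈ v.asIdeal then lamF v x y else 0

theorem meet_of_lamF {v : HeightOneSpectrum (𝓞 L)} {x y : L} (h : x ≠ y) (h0 : lamF v x y ≠ 0) :
    Meet v (pt x) (pt y) := by
  rw [meet_iff]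
  have h1 : 0 < lamF v x y := lt_of_le_of_ne (lamF_nonneg v h) h0.symm
  rw [lamF_eq] at h1
  exact (localHeight_pos_iff v (form_pt_ne h)).1 h1

theorem prG_le (S : Finset ℕ) (hS : ∀ p ∈ S, p.Prime) {x y : L} (h : x ≠ y)
    (F : Finset (HeightOneSpectrum (𝓞 L))) (hF : ∀ v, v ∈ F ↔ Meet v (pt x) (pt y)) :
    wt F + prG S x y ≤ logHeight₁ x + logHeight₁ y +
      Module.finrank ℚ L * (Real.log 2 + ∑ p ∈ S, Real.log p) := by
  classical
  obtain ⟨Q1, hQ1⟩ : ∃ Q1 : Finset (HeightOneSpectrum (𝓞 L)),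
    Q1 = F.filter fun v => ∃ p ∈ S, (p : 𝓞 L) ∈ v.asIdeal := ⟨_, rfl⟩
  obtain ⟨F1, hF1⟩ : ∃ F1 : Finset (HeightOneSpectrum (𝓞 L)),
    F1 = F.filter fun v => ¬ ∃ p ∈ S, (p : 𝓞 L) ∈ v.asIdeal := ⟨_, rfl⟩
  have hdisj : Disjoint F1 Q1 := by
    rw [hF1, hQ1]
    exact (Finset.disjoint_filter_filter_not _ _ _).symm
  have h1 := lam_le h F1 Q1 (fun v hv => by
    rw [hF1, Finset.mem_filter] at hv
    exact (hF v).1 hv.1) hdisj
  have h2 : ∑ᶠ v : HeightOneSpectrum (𝓞 L),
      (if ∃ p ∈ S, (p : 𝓞 L) ∈ v.asIdeal then lamF v x y else 0) = ∑ v ∈ Q1, lamF v x y := by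
    rw [finsum_eq_sum_of_support_subset (s := Q1)]
    · refine Finset.sum_congr rfl fun v hv => ?_
      rw [hQ1, Finset.mem_filter] at hv
      exact if_pos hv.2
    · intro v hv
      rw [Function.mem_support] at hv
      rw [Finset.mem_coe, hQ1, Finset.mem_filter]
      by_cases h3 : ∃ p ∈ S, (p : 𝓞 L) ∈ v.asIdeal
      · rw [if_pos h3] at hv
        exact ⟨(hF v).2 (meet_of_lamF h hv), h3⟩
      · rw [if_neg h3] at hv
        exact absurd rfl hv
  have hfin : {v : HeightOneSpectrum (𝓞 L) | Meet v (pt x) (pt y)}.Finite :=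
    (Finset.finite_toSet F).subset fun v hv => (hF v).2 hv
  have h3 := Pool.Agent.W223.AC.cc_outside (L := L) Pool.Agent.W803.AC.t S hS
    (fun v => Meet v (pt x) (pt y)) hfin
  have e1 : Pool.Agent.W223.CV.cc ∅ (fun v : HeightOneSpectrum (𝓞 L) => Meet v (pt x) (pt y)) =
      wt F := by
    unfold Pool.Agent.W223.CV.cc wt
    rw [finsum_eq_sum_of_support_subset (s := F)]
    · refine Finset.sum_congr rfl fun v hv => ?_
      exact Pool.Agent.W223.CV.ct_pos ⟨fun p hp => absurd hp (Finset.notMem_empty p), (hF v).1 hv⟩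
    · intro v hv
      rw [Finset.mem_coe, hF]
      by_contra hcon
      exact hv (Pool.Agent.W223.CV.ct_neg fun h => hcon h.2)
  have e2 : Pool.Agent.W223.CV.cc S (fun v : HeightOneSpectrum (𝓞 L) => Meet v (pt x) (pt y)) =
      wt F1 := by
    unfold Pool.Agent.W223.CV.cc wt
    rw [finsum_eq_sum_of_support_subset (s := F1)]
    · refine Finset.sum_congr rfl fun v hv => ?_
      rw [hF1, Finset.mem_filter] at hv
      exact Pool.Agent.W223.CV.ct_pos ⟨fun p hp hpv => hv.2 ⟨p, hp, hpv⟩, (hF v).1 hv.1⟩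
    · intro v hv
      rw [Finset.mem_coe, hF1, Finset.mem_filter]
      by_contra hcon
      refine hv (Pool.Agent.W223.CV.ct_neg fun h => hcon ?_)
      exact ⟨(hF v).2 h.2, fun ⟨p, hp, hpv⟩ => h.1 p hp hpv⟩
  rw [e1, e2] at h3
  rw [NumberField.totalWeight_eq_finrank] at h1
  unfold prG
  rw [h2]
  linarith

end

variable {K : Type} [Field K] [NumberField K] {m q : ℕ} {A : Fin m → Type} [∀ i, CommRing (A i)]
  [∀ i, Algebra K (A i)] [∀ i, Algebra K[X] (A i)]

/-- **the proximity function of a point over `L`** -/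
theorem levP [∀ i, IsDedekindDomain (A i)] [∀ i, IsScalarTower K K[X] (A i)]
    [∀ i, Module.Finite K[X] (A i)] [∀ i, FaithfulSMul K[X] (A i)] (hq : 1 ≤ q) (a : Fin q → K)
    (u : Fin m → Fin q → ℕ) (y : ∀ i j, Fin (u i j + 1) → A i)
    (hy0 : ∀ i j, y i j 0 = crd K (A i) - algebraMap K (A i) (a j))
    (hyr : ∀ i j l, y i j l ∈ (Ideal.span {crd K (A i) - algebraMap K (A i) (a j)}).radical)
    {G : Finset (Fin m × Fin m)} (hG : ∀ p ∈ G, p.1 < p.2) {ε : ℝ} (hε : 0 < ε) :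
    ∃ (Gp : Fin m → ℚ[X]) (C : ℝ), (∀ i, Gp i ≠ 0) ∧
      ∀ (x : Fin m → K) (hf : ∀ i j, form (pK (a j)) (pt (x i)) ≠ 0) (hx : Function.Injective x),
        (∀ i, aeval (x i) (Gp i) ≠ 0) →
        ∀ (L : Type) [Field L] [NumberField L] [Algebra K L] (φ : ∀ i, A i →ₐ[K] L),
          (∀ i, φ i (crd K (A i)) = algebraMap K L (x i)) →
          (∀ i j, {v : HeightOneSpectrum (𝓞 L) |
            Pool.Agent.W223.AC.lamF (y i j) (φ i : A i →+* L) v ≠ 0}.Finite) ∧
          ∀ S : Finset ℕ, (∀ p ∈ S, p.Prime) →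
          (Module.finrank K L : ℝ) *
            (wt (bdT_fin (S := ((∅ : Finset (HeightOneSpectrum (𝓞 K))) :
              Set (HeightOneSpectrum (𝓞 K)))) (a := fun j => pK (a j))
              hf hx univ hG).toFinset + Real.log |(discr K : ℝ)| - C) +
            (∑ i, ∑ j, (∑ w : InfinitePlace L, (w.mult : ℝ) *
              Pool.Agent.W223.AC.lamI (y i j) (φ i : A i →+* L) w +
                Pool.Agent.W223.AC.mS S (y i j) (φ i : A i →+* L)) +
              ∑ p ∈ G, prG S (algebraMap K L (x p.1)) (algebraMap K L (x p.2))) ≤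
            Real.log |(discr L : ℝ)| + (Module.finrank K L : ℝ) *
              (∑ i, ((∑ j, (Module.finrank K (A i ⧸ Ideal.span (Set.range (y i j))) : ℝ)) /
                Module.finrank K[X] (A i) + ε) * logHeight₁ (x i) +
                ∑ p ∈ G, (logHeight₁ (x p.1) + logHeight₁ (x p.2)) +
                Module.finrank ℚ K * ((m + G.card) * ∑ p ∈ S, Real.log p)) := by
  classical
  have hkey := fun i => Pool.Agent.Y728.AK.PX.proxK K (A i) hq a (u i) (y i) (hy0 i) (hyr i) ε hε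
  choose M Ck Gp hM hCk hGp hkey using hkey
  obtain ⟨T, hT⟩ : ∃ T : Finset ℕ,
    T = (univ : Finset (Fin m)).biUnion fun i => (M i).primeFactors := ⟨_, rfl⟩
  have hTM : ∀ i, (M i).primeFactors ⊆ T := by
    intro i
    rw [hT]
    exact Finset.subset_biUnion_of_mem (fun i => (M i).primeFactors) (Finset.mem_univ i)
  have hTp : ∀ p ∈ T, p.Prime := by
    intro p hp
    rw [hT] at hp
    obtain ⟨i, -, hi⟩ := Finset.mem_biUnion.1 hp
    exact Nat.prime_of_mem_primeFactors hi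
  obtain ⟨S', hSS', hS'1, hS'2⟩ := exists_big a ∅ T hTp
  obtain ⟨d, hd⟩ : ∃ d : ℝ, d = (Module.finrank ℚ K : ℝ) := ⟨_, rfl⟩
  refine ⟨Gp, wt S' + d * (∑ i, Ck i + G.card * Real.log 2), hGp, ?_⟩
  intro x hf hx hGx L _ _ _ φ hφ
  obtain ⟨ξ, hξ⟩ : ∃ ξ : Fin m → L, ξ = fun i => algebraMap K L (x i) := ⟨_, rfl⟩
  have hφξ : ∀ i, φ i (crd K (A i)) = ξ i := by intro i; rw [hφ i, hξ]
  have hxa : ∀ i j, x i ≠ a j := by
    intro i j h
    apply hf i j
    show form (pK (a j)) ![x i, 1] = 0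
    rw [formK, h, sub_self]
  have hne : ∀ i j, ξ i ≠ algebraMap K L (a j) := by
    intro i j h
    rw [hξ] at h
    exact hxa i j ((algebraMap K L).injective h)
  have hinj : Function.Injective ξ := by
    rw [hξ]
    exact (algebraMap K L).injective.comp hx
  have hkey' := fun i => hkey i L (φ i) (by
      have : φ i (algebraMap K[X] (A i) X) = algebraMap K L (x i) := hφ i
      rw [this, aeval_algebraMap_apply]
      intro h
      exact hGx i ((map_eq_zero _).1 h)) (by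
      intro j
      have : φ i (algebraMap K[X] (A i) X) = ξ i := hφξ i
      rw [this]
      exact hne i j)
  refine ⟨fun i j => (hkey' i).1 j, fun S hS => ?_⟩
  -- the finite sets
  obtain ⟨Af, hAf⟩ : ∃ Af : Fin m → Finset (HeightOneSpectrum (𝓞 L)),
    Af = fun i => (Pool.Agent.Y729.RV.nr_fin (M i).primeFactors (hne i)).toFinset := ⟨_, rfl⟩
  have hAm : ∀ i w, w ∈ Af i ↔ Pool.Agent.Y729.RV.Nr (M i).primeFactors a (ξ i) w := by
    intro i w
    rw [hAf, Set.Finite.mem_toFinset]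
    rfl
  have hmfin : ∀ p : Fin m × Fin m, p.1 < p.2 →
      {w : HeightOneSpectrum (𝓞 L) | Meet w (pt (ξ p.1)) (pt (ξ p.2))}.Finite := by
    intro p hp
    refine (nr_fin (form_pt_ne fun h => hp.ne (hinj h))).subset fun w hw => ?_
    exact (meet_iff w _ _).1 hw
  obtain ⟨Mf, hMf⟩ : ∃ Mf : Fin m × Fin m → Finset (HeightOneSpectrum (𝓞 L)),
    Mf = fun p => if h : p.1 < p.2 then (hmfin p h).toFinset else ∅ := ⟨_, rfl⟩
  have hMm : ∀ p, p.1 < p.2 → ∀ w, w ∈ Mf p ↔ Meet w (pt (ξ p.1)) (pt (ξ p.2)) := by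
    intro p hp w
    rw [hMf]
    beta_reduce
    rw [dif_pos hp, Set.Finite.mem_toFinset]
    rfl
  -- the key inequality for every curve
  have hdiff : ∀ i, wt (Af i) + ∑ j, (∑ w : InfinitePlace L, (w.mult : ℝ) *
      Pool.Agent.W223.AC.lamI (y i j) (φ i : A i →+* L) w +
        Pool.Agent.W223.AC.mS S (y i j) (φ i : A i →+* L)) ≤
      ((∑ j, (Module.finrank K (A i ⧸ Ideal.span (Set.range (y i j))) : ℝ)) /
        Module.finrank K[X] (A i) + ε) * Real.log (mulHeight₁ (ξ i)) +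
        Module.finrank ℚ L * (Ck i + ∑ p ∈ S, Real.log p) := by
    intro i
    have h1 := (hkey' i).2 S hS
    have e0 : φ i (algebraMap K[X] (A i) X) = ξ i := hφξ i
    rw [e0] at h1
    have e1 : Pool.Agent.Y729.RV.cnt (M i).primeFactors a (ξ i) = wt (Af i) := by
      rw [Pool.Agent.Y729.RV.cnt_eq (M i).primeFactors (hne i), hAf]
      rfl
    rw [e1] at h1
    exact h1
  -- the diagonals
  have hdia : ∀ p ∈ G, wt (Mf p) + prG S (ξ p.1) (ξ p.2) ≤
      logHeight₁ (ξ p.1) + logHeight₁ (ξ p.2) +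
        Module.finrank ℚ L * (Real.log 2 + ∑ p ∈ S, Real.log p) := by
    intro p hp
    exact prG_le S hS (fun h => (hG p hp).ne (hinj h)) (Mf p) (hMm p (hG p hp))
  obtain ⟨WA, hWA⟩ : ∃ WA : Finset (HeightOneSpectrum (𝓞 L)),
    WA = (univ : Finset (Fin m)).biUnion Af ∪ G.biUnion Mf := ⟨_, rfl⟩
  have hWle : wt WA ≤ ∑ i, wt (Af i) + ∑ p ∈ G, wt (Mf p) := by
    rw [hWA]
    exact (wt_union_le _ _).trans (add_le_add (wt_biUnion_le _ _) (wt_biUnion_le _ _))
  -- the base change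
  obtain ⟨Bd, hBd⟩ : ∃ Bd : Finset (HeightOneSpectrum (𝓞 K)),
    Bd = (bdT_fin (S := ((∅ : Finset (HeightOneSpectrum (𝓞 K))) :
      Set (HeightOneSpectrum (𝓞 K)))) (a := fun j => pK (a j)) hf hx univ hG).toFinset := ⟨_, rfl⟩
  have hBdm : ∀ v, v ∈ Bd ↔ v ∈ bdT ((∅ : Finset (HeightOneSpectrum (𝓞 K))) :
      Set (HeightOneSpectrum (𝓞 K))) (fun j => pK (a j)) univ G x := by
    intro v
    rw [hBd, Set.Finite.mem_toFinset]
  have hbase := Pool.Agent.Y729.RV.base_change (k := K) (L := L) (Bd.filter fun v => v ∉ S') WA (by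
    intro v hv w hw
    rw [Finset.mem_filter, hBdm] at hv
    obtain ⟨⟨-, hv⟩, hvS'⟩ := hv
    rw [hWA, Finset.mem_union, Finset.mem_biUnion, Finset.mem_biUnion]
    rcases hv with ⟨p, -, hv⟩ | ⟨p, hp, hv⟩
    · left
      refine ⟨p.1, Finset.mem_univ _, ?_⟩
      rw [hAm, hξ]
      beta_reduce
      rw [Pool.Agent.Y729.RV.nr_iff (M p.1).primeFactors a (x p.1) v w]
      rw [← meet_iff] at hv
      have hv' : v.valuation K (a p.2 - x p.1) <
          max (v.valuation K (a p.2)) 1 * max (v.valuation K (x p.1)) 1 :=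
        (meet_pt v (a p.2) (x p.1)).1 hv
      rw [max_eq_right (hS'2 v hvS' p.2), one_mul, ← neg_sub, Valuation.map_neg] at hv'
      have h3 : v.valuation K (x p.1) ≤ 1 := by
        by_contra hcon
        rw [not_le] at hcon
        have h4 : v.valuation K (x p.1 - a p.2) = v.valuation K (x p.1) :=
          Valuation.map_sub_eq_of_lt_left _ ((hS'2 v hvS' p.2).trans_lt hcon)
        rw [h4, max_eq_left hcon.le] at hv'
        exact lt_irrefl _ hv'
      rw [max_eq_right h3] at hv'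
      exact ⟨fun l hl => hS'1 v hvS' l (hTM _ hl), h3, p.2, hv'⟩
    · right
      refine ⟨p, hp, ?_⟩
      rw [hMm p (hG p hp), hξ]
      beta_reduce
      rw [← pt_map, ← pt_map, meet_over v w, meet_iff]
      exact hv)
  have hbase' : (Module.finrank K L : ℝ) * (Real.log |(discr K : ℝ)| +
      wt (Bd.filter fun v => v ∉ S')) ≤ Real.log |(discr L : ℝ)| + wt WA := hbase
  have hBdle : wt Bd ≤ wt (Bd.filter fun v => v ∉ S') + wt S' := by
    refine (wt_mono (fun v hv => ?_)).trans (wt_union_le _ _)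
    rw [Finset.mem_union, Finset.mem_filter]
    by_cases h : v ∈ S'
    · exact Or.inr h
    · exact Or.inl ⟨hv, h⟩
  -- put everything together
  have hfd : FiniteDimensional K L := Module.Finite.of_restrictScalars_finite ℚ K L
  obtain ⟨mL, hmL⟩ : ∃ mL : ℝ, mL = (Module.finrank K L : ℝ) := ⟨_, rfl⟩
  have hm0 : 0 < mL := by rw [hmL]; exact_mod_cast Module.finrank_pos
  have htow : (Module.finrank ℚ L : ℝ) = d * mL := by
    rw [hd, hmL]
    exact_mod_cast (Module.finrank_mul_finrank ℚ K L).symm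
  have hH : ∀ i, Real.log (mulHeight₁ (ξ i)) = mL * logHeight₁ (x i) := by
    intro i
    rw [hξ, hmL, logHeight₁_eq_log_mulHeight₁]
    exact Pool.Agent.W223.AC.MK.log_height_ext L (x i)
  have hH' : ∀ i, logHeight₁ (ξ i) = mL * logHeight₁ (x i) := by
    intro i
    rw [logHeight₁_eq_log_mulHeight₁]
    exact hH i
  obtain ⟨R, hR⟩ : ∃ R : ℝ, R = ∑ p ∈ S, Real.log p := ⟨_, rfl⟩
  obtain ⟨W1, hW1⟩ : ∃ W1 : ℝ, W1 = ∑ i, ∑ j, (∑ w : InfinitePlace L, (w.mult : ℝ) *
      Pool.Agent.W223.AC.lamI (y i j) (φ i : A i →+* L) w +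
        Pool.Agent.W223.AC.mS S (y i j) (φ i : A i →+* L)) := ⟨_, rfl⟩
  obtain ⟨W2, hW2⟩ : ∃ W2 : ℝ, W2 = ∑ p ∈ G, prG S (ξ p.1) (ξ p.2) := ⟨_, rfl⟩
  have hW2' : ∑ p ∈ G, prG S (algebraMap K L (x p.1)) (algebraMap K L (x p.2)) = W2 := by
    rw [hW2, hξ]
  obtain ⟨N1, hN1⟩ : ∃ N1 : ℝ, N1 = ∑ i,
      ((∑ j, (Module.finrank K (A i ⧸ Ideal.span (Set.range (y i j))) : ℝ)) /
        Module.finrank K[X] (A i) + ε) * logHeight₁ (x i) := ⟨_, rfl⟩
  obtain ⟨N2, hN2⟩ : ∃ N2 : ℝ, N2 = ∑ p ∈ G, (logHeight₁ (x p.1) + logHeight₁ (x p.2)) :=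
    ⟨_, rfl⟩
  have hsum1 : ∑ i, wt (Af i) + W1 ≤ mL * N1 + d * mL * (∑ i, Ck i + m * R) := by
    have h1 := Finset.sum_le_sum fun i (_ : i ∈ (univ : Finset (Fin m))) => hdiff i
    rw [Finset.sum_add_distrib, ← hW1, Finset.sum_add_distrib] at h1
    refine h1.trans (le_of_eq ?_)
    rw [hN1, Finset.mul_sum, htow, ← Finset.mul_sum, Finset.sum_add_distrib, Finset.sum_const,
      Finset.card_univ, Fintype.card_fin, nsmul_eq_mul, ← hR]
    congr 1
    refine Finset.sum_congr rfl fun i _ => ?_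
    rw [hH]
    ring
  have hsum2 : ∑ p ∈ G, wt (Mf p) + W2 ≤ mL * N2 + d * mL * (G.card * (Real.log 2 + R)) := by
    have h1 := Finset.sum_le_sum fun p (hp : p ∈ G) => hdia p hp
    rw [Finset.sum_add_distrib, ← hW2, Finset.sum_add_distrib] at h1
    refine h1.trans (le_of_eq ?_)
    rw [hN2, Finset.mul_sum, htow, Finset.sum_const, nsmul_eq_mul, ← hR]
    congr 1
    · refine Finset.sum_congr rfl fun p _ => ?_
      rw [hH', hH']
      ring
    · ring
  rw [← hBd, ← hmL, ← hR, ← hW1, hW2', ← hN1, ← hN2, ← hd]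
  rw [← hmL] at hbase'
  have h9 : mL * wt Bd ≤ mL * (wt (Bd.filter fun v => v ∉ S') + wt S') :=
    mul_le_mul_of_nonneg_left hBdle hm0.le
  have e1 : mL * (wt Bd + Real.log |(discr K : ℝ)| -
      (wt S' + d * (∑ i, Ck i + G.card * Real.log 2))) = mL * wt Bd +
      mL * Real.log |(discr K : ℝ)| - mL * wt S' - d * mL * (∑ i, Ck i) -
      d * mL * (G.card * Real.log 2) := by ring
  have e2 : mL * (N1 + N2 + d * ((m + G.card) * R)) =
      mL * N1 + mL * N2 + d * mL * (m * R) + d * mL * (G.card * R) := by ring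
  have e3 : d * mL * (∑ i, Ck i + m * R) = d * mL * (∑ i, Ck i) + d * mL * (m * R) := by ring
  have e4 : d * mL * (G.card * (Real.log 2 + R)) =
      d * mL * (G.card * Real.log 2) + d * mL * (G.card * R) := by ring
  rw [e1, e2]
  rw [e3] at hsum1
  rw [e4] at hsum2
  linarith

end Pool.Agent.Y728.MN
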