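import Pool.Agent.Y728.MN.LvQ

/-!
# Proximity functions of points of products of curves, the case `k = K` (helper728)
-/

set_option autoImplicit false

namespace Pool.Agent.Y728.MN

open NumberField IsDedekindDomain Height Finset Pool.Agent.TH876.Loc Polynomial
open Pool.Agent.H691R3 hiding mt av mt_pos
open Pool.Agent.Y728.AK
open Pool.Agent.H951R3.V (ell ell_pos)
open Pool.Agent.TH876.KR (form counting localHeight localHeight_pos_iff m2)

variable {K : Type} [Field K] [NumberField K] {m q : ℕ} {A : Fin m → Type} [∀ i, CommRing (A i)]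
  [∀ i, Algebra K (A i)] [∀ i, Algebra K[X] (A i)]

/-- **the proximity function of a point over `L`** -/
theorem levR [∀ i, IsDedekindDomain (A i)] [∀ i, IsScalarTower K K[X] (A i)]
    [∀ i, Module.Finite K[X] (A i)] [∀ i, FaithfulSMul K[X] (A i)] (hq : 1 ≤ q) (a : Fin q → K)
    (u : Fin m → Fin q → ℕ) (y : ∀ i j, Fin (u i j + 1) → A i)
    (hy0 : ∀ i j, y i j 0 = crd K (A i) - algebraMap K (A i) (a j))
    (hyr : ∀ i j l, y i j l ∈ (Ideal.span {crd K (A i) - algebraMap K (A i) (a j)}).radical)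
    {G : Finset (Fin m × Fin m)} (hG : ∀ p ∈ G, p.1 < p.2) {ε : ℝ} (hε : 0 < ε) :
    ∃ (Gp : Fin m → ℚ[X]) (C : ℝ), (∀ i, Gp i ≠ 0) ∧
      ∀ (x : Fin m → K) (hf : ∀ i j, form (pK (a j)) (pt (x i)) ≠ 0) (hx : Function.Injective x),
        (∀ i, aeval (x i) (Gp i) ≠ 0) →
        ∀ (L : Type) [Field L] [NumberField L] [Algebra K L] (φ : ∀ i, A i →ₐ[K] L),
          (∀ i, φ i (crd K (A i)) = algebraMap K L (x i)) →
          (∀ i j, {v : HeightOneSpectrum (𝓞 L) |
            Pool.Agent.W223.AC.lamF (y i j) (φ i : A i →+* L) v ≠ 0}.Finite) ∧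
          ∀ S : Finset ℕ, (∀ p ∈ S, p.Prime) →
          (Module.finrank K L : ℝ) *
            (wt (bdT_fin (S := ((∅ : Finset (HeightOneSpectrum (𝓞 K))) :
              Set (HeightOneSpectrum (𝓞 K)))) (a := fun j => pK (a j))
              hf hx univ hG).toFinset + Real.log |(discr K : ℝ)| - C) +
            (∑ i, ∑ j, (∑ w : InfinitePlace L, (w.mult : ℝ) *
              Pool.Agent.W223.AC.lamI (y i j) (φ i : A i →+* L) w +
                Pool.Agent.W223.AC.mS S (y i j) (φ i : A i →+* L)) +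
              ∑ p ∈ G, prG S (algebraMap K L (x p.1)) (algebraMap K L (x p.2))) ≤
            Real.log |(discr L : ℝ)| + (Module.finrank K L : ℝ) *
              (∑ i, ((∑ j, (Module.finrank K (A i ⧸ Ideal.span (Set.range (y i j))) : ℝ)) /
                Module.finrank K[X] (A i) + ε) * logHeight₁ (x i) +
                ∑ p ∈ G, (logHeight₁ (x p.1) + logHeight₁ (x p.2)) +
                Module.finrank ℚ K * ∑ p ∈ S, Real.log p) := by
  obtain ⟨Gp, C, h1, h2⟩ := levQ (k := K) (K := K) hq a u y hy0 hyr hG hε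
  refine ⟨Gp, C, h1, fun x hf hx hGx L _ _ _ φ hφ => ?_⟩
  exact h2 x hf hx hGx L φ hφ

end Pool.Agent.Y728.MN
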