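import Pool.Agent.Y728.MN.Good

/-!
# Almost all configurations satisfy the inequality (helper728)
-/

set_option autoImplicit false

namespace Pool.Agent.Y728.MN

open NumberField IsDedekindDomain Height Finset Pool.Agent.H691R3 Pool.Agent.TH876.Loc
open Pool.Agent.Y728.AK
open Pool.Agent.H951R3.V (ell ell_pos)
open Pool.Agent.TH876.KR (form counting localHeight localHeight_nonneg localHeight_pos_iff m2)

variable {K : Type} [Field K] [NumberField K] {q : ℕ}
  (S : Set (HeightOneSpectrum (𝓞 K))) (a : Fin q → Fin 2 → K) (m : ℕ)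

/-- the configurations of `m` different points, all of which have a small counting function -/
def Conf (X : ℝ) : Set (Fin m → K) :=
  {x | (∀ i, x i ∈ GVal K S a X) ∧ Function.Injective x}

/-- the exceptional configurations -/
def CExc (κ C₀ X : ℝ) : Set (Fin m → K) :=
  {x | x ∈ Conf S a m X ∧ nn S a x + C₀ < ((q : ℝ) + m - 1 - κ) * ∑ i, logHeight₁ (x i)}

variable {S a m}

theorem conf_sub {X : ℝ} (h : (GVal K S a X).Finite) :
    Conf S a m X ⊆ (Fintype.piFinset fun _ : Fin m => h.toFinset : Finset (Fin m → K)) := by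
  intro x hx
  rw [Finset.mem_coe, Fintype.mem_piFinset]
  intro i
  rw [Set.Finite.mem_toFinset]
  exact hx.1 i

theorem conf_fin {X : ℝ} (h : (GVal K S a X).Finite) : (Conf S a m X).Finite :=
  (Finset.finite_toSet _).subset (conf_sub h)

theorem conf_card {X : ℝ} (h : (GVal K S a X).Finite) :
    (Conf S a m X).ncard ≤ (GVal K S a X).ncard ^ m := by
  have h1 := Set.ncard_le_ncard (conf_sub (m := m) h) (Finset.finite_toSet _)
  rw [Set.ncard_coe_finset, Fintype.card_piFinset, Finset.prod_const, Finset.card_univ,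
    Fintype.card_fin, ← Set.ncard_eq_toFinset_card _ h] at h1
  exact h1

theorem conf_card_low {X : ℝ} (h : (GVal K S a X).Finite) :
    ((GVal K S a X).ncard + 1 - m) ^ m ≤ (Conf S a m X).ncard := by
  classical
  have h1 : Fintype.card (Fin m ↪ h.toFinset) = (GVal K S a X).ncard.descFactorial m := by
    rw [Fintype.card_embedding_eq, Fintype.card_fin, Fintype.card_coe,
      ← Set.ncard_eq_toFinset_card _ h]
  refine (Nat.pow_sub_le_descFactorial _ _).trans ?_
  rw [← h1, ← Finset.card_univ, ← Set.ncard_coe_finset]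
  refine Set.ncard_le_ncard_of_injOn (fun (e : Fin m ↪ h.toFinset) (i : Fin m) => ((e i : h.toFinset) : K))
    ?_ ?_ (conf_fin h)
  · intro e _
    refine ⟨fun i => ?_, fun i k hik => ?_⟩
    · exact (Set.Finite.mem_toFinset h).1 (e i).2
    · exact e.injective (Subtype.ext hik)
  · intro e _ e' _ hee
    ext i
    exact congrFun hee i

theorem conf_upper (hq : 3 ≤ q) (hm : 0 < m) (hS : S.Finite)
    (ha : ∀ i j, i ≠ j → form (a i) (a j) ≠ 0) (δ : ℝ) (hδ : 0 < δ) :
    ∃ C : ℝ, ∀ X : ℝ, 1 ≤ X → (Conf S a m X).Finite ∧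
      ((Conf S a m X).ncard : ℝ) ≤ C * X ^ (2 * m / (q : ℝ) + δ) := by
  have hm0 : (0 : ℝ) < m := by exact_mod_cast hm
  obtain ⟨C, h⟩ := g_all K hq S hS a ha (δ / m) (by positivity)
  refine ⟨C ^ m, fun X hX => ?_⟩
  have hX0 : 0 < X := by linarith
  obtain ⟨h1, h2⟩ := h X hX
  refine ⟨conf_fin h1, ?_⟩
  have h3 : ((Conf S a m X).ncard : ℝ) ≤ ((GVal K S a X).ncard : ℝ) ^ m := by
    exact_mod_cast conf_card h1
  refine h3.trans ((pow_le_pow_left₀ (Nat.cast_nonneg _) h2 m).trans (le_of_eq ?_))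
  rw [mul_pow, ← Real.rpow_natCast (X ^ _), ← Real.rpow_mul hX0.le]
  congr 2
  field_simp

theorem conf_low (hq : 3 ≤ q) (hm : 0 < m) (hS : S.Finite)
    (ha : ∀ i j, i ≠ j → form (a i) (a j) ≠ 0) (δ : ℝ) (hδ : 0 < δ) :
    ∃ X₀ : ℝ, 1 ≤ X₀ ∧ ∀ X : ℝ, X₀ ≤ X →
      X ^ (2 * m / (q : ℝ) - δ) ≤ ((Conf S a m X).ncard : ℝ) := by
  have hm0 : (0 : ℝ) < m := by exact_mod_cast hm
  have hq0 : (3 : ℝ) ≤ q := by exact_mod_cast hq
  have hqp : (0 : ℝ) < q := by linarith
  obtain ⟨δ', hδ'⟩ : ∃ δ' : ℝ, δ' = min (δ / (2 * m)) (1 / (2 * q)) := ⟨_, rfl⟩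
  have h0 : 0 < δ' := by rw [hδ']; exact lt_min (by positivity) (by positivity)
  have hd1 : δ' ≤ δ / (2 * m) := by rw [hδ']; exact min_le_left _ _
  have hd2 : δ' ≤ 1 / (2 * q) := by rw [hδ']; exact min_le_right _ _
  obtain ⟨C, hC⟩ := g_all K hq S hS a ha 1 one_pos
  obtain ⟨X0, hX0, h⟩ := g_low K hq S hS a ha δ' h0
  obtain ⟨Z, hZ⟩ : ∃ Z : ℝ, Z = 2 * (m + 1) := ⟨_, rfl⟩
  have hZ1 : 1 ≤ Z := by rw [hZ]; linarith
  obtain ⟨X1, hX1⟩ : ∃ X1 : ℝ, X1 = Real.exp (Real.log Z / δ') := ⟨_, rfl⟩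
  refine ⟨max X0 X1, hX0.trans (le_max_left _ _), fun X hX => ?_⟩
  have hXX : X0 ≤ X := (le_max_left _ _).trans hX
  have hX11 : X1 ≤ X := (le_max_right _ _).trans hX
  have h1X : 1 ≤ X := hX0.trans hXX
  have hXp : 0 < X := by linarith
  have hfin := (hC X h1X).1
  have h1 := h X hXX
  -- `Z ≤ X ^ δ'`
  have h2 : Z ≤ X ^ δ' := by
    have e1 : Real.log Z / δ' ≤ Real.log X := by
      rw [hX1] at hX11
      exact (Real.le_log_iff_exp_le hXp).2 hX11
    rw [div_le_iff₀ h0] at e1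
    rw [← Real.log_le_log_iff (by linarith) (Real.rpow_pos_of_pos hXp _), Real.log_rpow hXp]
    linarith
  obtain ⟨n, hn⟩ : ∃ n : ℕ, n = (GVal K S a X).ncard := ⟨_, rfl⟩
  rw [← hn] at h1
  have h3 : X ^ (2 / (q : ℝ) - δ') = X ^ δ' * X ^ (2 / (q : ℝ) - 2 * δ') := by
    rw [← Real.rpow_add hXp]
    congr 1
    ring
  have h4 : 1 ≤ X ^ (2 / (q : ℝ) - 2 * δ') := by
    refine Real.one_le_rpow h1X ?_
    have e1 : 2 * (1 / (2 * (q : ℝ))) ≤ 2 / q := by
      rw [mul_one_div, div_le_div_iff₀ (by positivity) (by positivity)]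
      nlinarith
    linarith
  obtain ⟨W, hW⟩ : ∃ W : ℝ, W = X ^ (2 / (q : ℝ) - 2 * δ') := ⟨_, rfl⟩
  rw [← hW] at h3 h4
  have h5 : Z * W ≤ n := by
    refine le_trans ?_ h1
    rw [h3]
    exact mul_le_mul_of_nonneg_right h2 (by linarith)
  have h6 : W ≤ ((n + 1 - m : ℕ) : ℝ) := by
    have e1 : (m : ℝ) + 1 ≤ (m + 1) * W := le_mul_of_one_le_right (by linarith) h4
    have e2 : Z * W = 2 * ((m + 1) * W) := by rw [hZ]; ring
    have e3 : W ≤ (m + 1) * W := le_mul_of_one_le_left (by linarith) (by linarith)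
    have e4 : (m : ℝ) + W ≤ n := by linarith
    have e5 : m ≤ n + 1 := by
      have : (m : ℝ) ≤ n := by linarith
      have : m ≤ n := by exact_mod_cast this
      omega
    rw [Nat.cast_sub e5]
    push_cast
    linarith
  have h7 := conf_card_low (m := m) hfin
  rw [← hn] at h7
  have h8 : ((n + 1 - m : ℕ) : ℝ) ^ m ≤ ((Conf S a m X).ncard : ℝ) := by exact_mod_cast h7
  refine le_trans ?_ h8
  refine le_trans ?_ (pow_le_pow_left₀ (by linarith) h6 m)
  rw [hW, ← Real.rpow_natCast, ← Real.rpow_mul hXp.le]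
  refine Real.rpow_le_rpow_of_exponent_le h1X ?_
  have e1 : 2 * (m : ℝ) * δ' ≤ δ := by
    have := mul_le_mul_of_nonneg_left hd1 (by positivity : (0 : ℝ) ≤ 2 * m)
    have e2 : 2 * (m : ℝ) * (δ / (2 * m)) = δ := by field_simp
    linarith
  have e3 : (2 / (q : ℝ) - 2 * δ') * m = 2 * m / (q : ℝ) - 2 * m * δ' := by ring
  rw [e3]
  linarith

/-- configurations with a coordinate in a given small set -/
theorem coord_count (hm : 0 < m) (T E : Finset K) (B : Finset (Fin m → K))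
    (hB : ∀ x ∈ B, (∀ i, x i ∈ T) ∧ ∃ i, x i ∈ E) :
    (B.card : ℝ) ≤ m * ((E.card : ℝ) * (T.card : ℝ) ^ (m - 1)) := by
  classical
  have hone : ∀ i : Fin m, ((B.filter fun x => x i ∈ E).card : ℝ) ≤
      (E.card : ℝ) * (T.card : ℝ) ^ (m - 1) := by
    intro i
    have h1 := tuple_count (r := 1) (fun _ => i) (fun s t _ => Subsingleton.elim _ _) T
      (E.image fun e _ => e) (B.filter fun x => x i ∈ E) (by
        intro x hx
        rw [Finset.mem_filter] at hx
        exact ⟨(hB x hx.1).1, Finset.mem_image.2 ⟨x i, hx.2, rfl⟩⟩)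
    have h2 : (E.image fun (e : K) (_ : Fin 1) => e).card ≤ E.card := Finset.card_image_le
    have h3 := h1.trans (Nat.mul_le_mul_right _ h2)
    exact_mod_cast h3
  have hsub : B ⊆ (univ : Finset (Fin m)).biUnion fun i => B.filter fun x => x i ∈ E := by
    intro x hx
    obtain ⟨-, i, hi⟩ := hB x hx
    rw [Finset.mem_biUnion]
    exact ⟨i, Finset.mem_univ _, Finset.mem_filter.2 ⟨hx, hi⟩⟩
  have h1 : (B.card : ℝ) ≤ ∑ i : Fin m, ((B.filter fun x => x i ∈ E).card : ℝ) := by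
    exact_mod_cast (Finset.card_le_card hsub).trans Finset.card_biUnion_le
  refine h1.trans ((Finset.sum_le_sum fun i _ => hone i).trans (le_of_eq ?_))
  rw [Finset.sum_const, Finset.card_univ, Fintype.card_fin, nsmul_eq_mul]

end Pool.Agent.Y728.MN
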