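import Pool.Agent.Y728.MN.Main

/-!
# The number of exceptional configurations (helper728)
-/

set_option autoImplicit false

namespace Pool.Agent.Y728.MN

open NumberField IsDedekindDomain Height Finset Pool.Agent.H691R3 Pool.Agent.TH876.Loc
open Pool.Agent.Y728.AK
open Pool.Agent.H951R3.V (ell ell_pos)
open Pool.Agent.TH876.KR (form counting localHeight localHeight_nonneg localHeight_pos_iff m2)

variable {K : Type} [Field K] [NumberField K] {q m : ℕ}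
  {S : Set (HeightOneSpectrum (𝓞 K))} {a : Fin q → Fin 2 → K}

/-- the configurations which violate the inequality have a bad part -/
theorem bad_of_exc (hq : 3 ≤ q) (hm : 0 < m) (hS : S.Finite) {κ κ₁ κ₂ τ C₀ X : ℝ} (hκ : 0 < κ)
    (hκ₁ : 0 < κ₁) (hκ₁1 : κ₁ ≤ 1) (hκ₂ : 0 < κ₂) (hκ₂κ : κ₂ ≤ κ / 4) (hκ₂κ₁ : κ₂ ≤ κ₁)
    (hτ : 0 < τ) (hτκ : 16 * (((m : ℝ) ^ 2 + (m + m * m) ^ 2) * τ) ≤ κ) (hX1 : 1 < X)
    (hX : 8 * ((m : ℝ) ^ 2 * wt hS.toFinset + |C₀|) * q ≤ κ * Real.log X)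
    {x : Fin m → K} (hx : x ∈ CExc S a m κ C₀ X) (hxE : ∀ i, x i ∉ GExc K S a κ₂ 0 X) :
    (∃ σ : Fin 1 → Fin m, Function.Injective σ ∧
      Bad0 ((1 / (q : ℝ) + κ₁) * Real.log X) (fun s => x (σ s))) ∨
    (∃ σ : Fin 2 → Fin m, Function.Injective σ ∧
      Bad1 τ ((1 / (q : ℝ) + κ₁) * Real.log X) (fun s => x (σ s))) ∨
    (∃ σ : Fin 2 → Fin m, Function.Injective σ ∧
      Bad2 S a τ ((1 / (q : ℝ) + κ₁) * Real.log X) (fun s => x (σ s))) ∨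
    (∃ σ : Fin 3 → Fin m, Function.Injective σ ∧
      Bad3 S a τ ((1 / (q : ℝ) + κ₁) * Real.log X) (fun s => x (σ s))) ∨
    (∃ σ : Fin 3 → Fin m, Function.Injective σ ∧
      Bad4 τ ((1 / (q : ℝ) + κ₁) * Real.log X) (fun s => x (σ s))) ∨
    (∃ σ : Fin 4 → Fin m, Function.Injective σ ∧
      Bad5 τ ((1 / (q : ℝ) + κ₁) * Real.log X) (fun s => x (σ s))) := by
  have hq0 : (3 : ℝ) ≤ q := by exact_mod_cast hq
  have hqp : (0 : ℝ) < q := by linarith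
  have hlog : 0 < Real.log X := Real.log_pos hX1
  obtain ⟨L, hL⟩ : ∃ L : ℝ, L = Real.log X := ⟨_, rfl⟩
  obtain ⟨Y, hY⟩ : ∃ Y : ℝ, Y = (1 / (q : ℝ) + κ₁) * Real.log X := ⟨_, rfl⟩
  have hY0 : 0 < Y := by rw [hY]; positivity
  rw [← hY]
  by_contra hcon
  push Not at hcon
  obtain ⟨n0, n1, n2, n3, n4, n5⟩ := hcon
  obtain ⟨⟨hG, hinj⟩, hlt⟩ := hx
  have hcnt : ∀ i, ((q : ℝ) - κ₂) * logHeight₁ (x i) ≤ counting S a ![x i, 1] := by
    intro i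
    by_contra hcon
    refine hxE i ⟨(hG i).1, (hG i).2, ?_⟩
    rw [add_zero]
    exact not_le.1 hcon
  have hfac : 1 ≤ (1 / (q : ℝ) + κ₁) * (q - κ₂) := by
    have e1 : (1 / (q : ℝ) + κ₁) * (q - κ₂) = 1 - κ₂ / q + κ₁ * q - κ₁ * κ₂ := by
      field_simp
      ring
    rw [e1]
    have e2 : κ₂ / q ≤ κ₁ := by
      rw [div_le_iff₀ hqp]
      nlinarith
    have e3 : κ₁ * κ₂ ≤ κ₁ * 1 := mul_le_mul_of_nonneg_left (by linarith) hκ₁.le
    have e4 : κ₁ * 3 ≤ κ₁ * q := mul_le_mul_of_nonneg_left hq0 hκ₁.le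
    linarith
  have hle : ∀ i, logHeight₁ (x i) ≤ Y := by
    intro i
    have h0 : 0 ≤ logHeight₁ (x i) := zero_le_logHeight₁ _
    have h1 := (hcnt i).trans (hG i).2
    have h2 : logHeight₁ (x i) ≤ (1 / (q : ℝ) + κ₁) * (q - κ₂) * logHeight₁ (x i) :=
      le_mul_of_one_le_left h0 hfac
    have h3 : (1 / (q : ℝ) + κ₁) * ((q - κ₂) * logHeight₁ (x i)) ≤ Y := by
      rw [hY]
      exact mul_le_mul_of_nonneg_left h1 (by positivity)
    rw [← mul_assoc] at h3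
    linarith
  have hbig : 8 * ((m : ℝ) ^ 2 * wt hS.toFinset + |C₀|) ≤ κ * Y := by
    have e1 : κ * (1 / q * Real.log X) ≤ κ * Y := by
      rw [hY]
      refine mul_le_mul_of_nonneg_left (mul_le_mul_of_nonneg_right ?_ hlog.le) hκ.le
      linarith
    refine le_trans ?_ e1
    have e2 : κ * (1 / q * Real.log X) = κ * Real.log X / q := by ring
    rw [e2, le_div_iff₀ hqp]
    exact hX
  have h := good_conf S a hS hm (x := x) (fun i j => (hG i).1 j) hinj hY0 hτ hκ hcnt hle n0 n1 n2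
    n3 n4 n5 hκ₂κ hτκ hbig
  exact absurd hlt (not_lt.2 h)

/-- **the number of the exceptional configurations** -/
theorem conf_exc (hq : 3 ≤ q) (hm : 0 < m) (hS : S.Finite)
    (ha : ∀ i j, i ≠ j → form (a i) (a j) ≠ 0)
    (hH : StmtH K) (hD : StmtD K) (hG1 : StmtG1 S a) (hG2 : StmtG2 S a) (hG3 : StmtG3 K)
    (hG4 : StmtG4 K) {κ : ℝ} (hκ : 0 < κ) (C₀ : ℝ) :
    ∃ ν C : ℝ, 0 < ν ∧ ν ≤ 1 / q ∧ 0 < C ∧ ∀ X : ℝ, 1 ≤ X → (CExc S a m κ C₀ X).Finite ∧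
      ((CExc S a m κ C₀ X).ncard : ℝ) ≤ C * X ^ (2 * m / (q : ℝ) - ν) := by
  classical
  have hq0 : (3 : ℝ) ≤ q := by exact_mod_cast hq
  have hqp : (0 : ℝ) < q := by linarith
  have hm0 : (0 : ℝ) < m := by exact_mod_cast hm
  have hm1 : (1 : ℝ) ≤ m := by exact_mod_cast hm
  obtain ⟨Bm, hBm⟩ : ∃ Bm : ℝ, Bm = (m : ℝ) ^ 2 + (m + m * m) ^ 2 := ⟨_, rfl⟩
  have hBm0 : 0 < Bm := by rw [hBm]; positivity
  obtain ⟨τ, hτe⟩ : ∃ τ : ℝ, τ = κ / (16 * Bm) := ⟨_, rfl⟩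
  have hτ : 0 < τ := by rw [hτe]; positivity
  have hτκ : 16 * (Bm * τ) ≤ κ := by
    rw [hτe]
    apply le_of_eq
    field_simp
  obtain ⟨η0, hη0, f0⟩ := ev_all (m := m) hq (by norm_num : 1 ≤ 4) (ev0 hH)
  obtain ⟨η1, hη1, f1⟩ := ev_all (m := m) hq (by norm_num : 2 ≤ 4) (ev1 hD hτ)
  obtain ⟨η2, hη2, f2⟩ := ev_all (m := m) hq (by norm_num : 2 ≤ 4) (ev2 S a hG1 hτ)
  obtain ⟨η3, hη3, f3⟩ := ev_all (m := m) hq (by norm_num : 3 ≤ 4) (ev3 S a hG2 hτ)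
  obtain ⟨η4, hη4, f4⟩ := ev_all (m := m) hq (by norm_num : 3 ≤ 4) (ev4 hG3 hτ)
  obtain ⟨η5, hη5, f5⟩ := ev_all (m := m) hq (by norm_num : 4 ≤ 4) (ev5 hG4 hτ)
  obtain ⟨η, hη, g0, g1, g2, g3, g4, g5⟩ : ∃ η : ℝ, 0 < η ∧ η ≤ η0 ∧ η ≤ η1 ∧ η ≤ η2 ∧ η ≤ η3 ∧
      η ≤ η4 ∧ η ≤ η5 :=
    ⟨min η0 (min η1 (min η2 (min η3 (min η4 η5)))),
      lt_min hη0 (lt_min hη1 (lt_min hη2 (lt_min hη3 (lt_min hη4 hη5)))),
      min_le_left _ _, (min_le_right _ _).trans (min_le_left _ _),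
      ((min_le_right _ _).trans (min_le_right _ _)).trans (min_le_left _ _),
      (((min_le_right _ _).trans (min_le_right _ _)).trans (min_le_right _ _)).trans
        (min_le_left _ _),
      ((((min_le_right _ _).trans (min_le_right _ _)).trans (min_le_right _ _)).trans
        (min_le_right _ _)).trans (min_le_left _ _),
      ((((min_le_right _ _).trans (min_le_right _ _)).trans (min_le_right _ _)).trans
        (min_le_right _ _)).trans (min_le_right _ _)⟩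
  obtain ⟨κ₁, hκ₁e⟩ : ∃ κ₁ : ℝ, κ₁ = min (η / (32 * q)) 1 := ⟨_, rfl⟩
  have hκ₁ : 0 < κ₁ := by rw [hκ₁e]; exact lt_min (by positivity) one_pos
  have hκ₁1 : κ₁ ≤ 1 := by rw [hκ₁e]; exact min_le_right _ _
  have hκ₁η : 8 * κ₁ ≤ η / (4 * q) := by
    have : κ₁ ≤ η / (32 * q) := by rw [hκ₁e]; exact min_le_left _ _
    have e1 : η / (4 * (q : ℝ)) = 8 * (η / (32 * q)) := by
      field_simp
      norm_num
    rw [e1]
    linarith
  obtain ⟨κ₂, hκ₂e⟩ : ∃ κ₂ : ℝ, κ₂ = min (κ / 4) κ₁ := ⟨_, rfl⟩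
  have hκ₂ : 0 < κ₂ := by rw [hκ₂e]; exact lt_min (by positivity) hκ₁
  have hκ₂κ : κ₂ ≤ κ / 4 := by rw [hκ₂e]; exact min_le_left _ _
  have hκ₂κ₁ : κ₂ ≤ κ₁ := by rw [hκ₂e]; exact min_le_right _ _
  obtain ⟨ν₁, C₁, hν₁, hν₁q, hC₁, hexc⟩ := g_exc K hq S hS a ha hκ₂ 0
  obtain ⟨δ, hδe⟩ : ∃ δ : ℝ, δ = min (η / (4 * q * m)) (ν₁ / (2 * m)) := ⟨_, rfl⟩
  have hδ : 0 < δ := by rw [hδe]; exact lt_min (by positivity) (by positivity)
  have hδη : m * δ ≤ η / (4 * q) := by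
    have h1 : δ ≤ η / (4 * q * m) := by rw [hδe]; exact min_le_left _ _
    have h2 := mul_le_mul_of_nonneg_left h1 hm0.le
    have h3 : (m : ℝ) * (η / (4 * q * m)) = η / (4 * q) := by field_simp
    linarith
  have hδν : m * δ ≤ ν₁ / 2 := by
    have h1 : δ ≤ ν₁ / (2 * m) := by rw [hδe]; exact min_le_right _ _
    have h2 := mul_le_mul_of_nonneg_left h1 hm0.le
    have h3 : (m : ℝ) * (ν₁ / (2 * m)) = ν₁ / 2 := by field_simp
    linarith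
  have hsm : 8 * κ₁ + m * δ ≤ η / (2 * q) := by
    have : η / (2 * (q : ℝ)) = η / (4 * q) + η / (4 * q) := by
      field_simp
      norm_num
    linarith
  have hmono : ∀ η' : ℝ, η ≤ η' → η / (2 * q) ≤ η' / (2 * (q : ℝ)) := fun η' h =>
    div_le_div_of_nonneg_right h (by positivity)
  obtain ⟨C₂', hall⟩ := g_all K hq S hS a ha δ hδ
  obtain ⟨C₂, hC₂e⟩ : ∃ C₂ : ℝ, C₂ = max C₂' 1 := ⟨_, rfl⟩
  have hC₂ : 0 < C₂ := by rw [hC₂e]; exact lt_max_of_lt_right one_pos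
  have hall' : ∀ X : ℝ, 1 ≤ X → (GVal K S a X).Finite ∧
      ((GVal K S a X).ncard : ℝ) ≤ C₂ * X ^ (2 / (q : ℝ) + δ) := by
    intro X hX
    obtain ⟨h1, h2⟩ := hall X hX
    refine ⟨h1, h2.trans (mul_le_mul_of_nonneg_right ?_ ?_)⟩
    · rw [hC₂e]; exact le_max_left _ _
    · exact (Real.rpow_pos_of_pos (by linarith) _).le
  obtain ⟨D0, hD0, k0⟩ := f0 κ₁ δ C₂ hκ₁.le hδ.le hC₂ (hsm.trans (hmono _ g0))
  obtain ⟨D1, hD1, k1⟩ := f1 κ₁ δ C₂ hκ₁.le hδ.le hC₂ (hsm.trans (hmono _ g1))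
  obtain ⟨D2, hD2, k2⟩ := f2 κ₁ δ C₂ hκ₁.le hδ.le hC₂ (hsm.trans (hmono _ g2))
  obtain ⟨D3, hD3, k3⟩ := f3 κ₁ δ C₂ hκ₁.le hδ.le hC₂ (hsm.trans (hmono _ g3))
  obtain ⟨D4, hD4, k4⟩ := f4 κ₁ δ C₂ hκ₁.le hδ.le hC₂ (hsm.trans (hmono _ g4))
  obtain ⟨D5, hD5, k5⟩ := f5 κ₁ δ C₂ hκ₁.le hδ.le hC₂ (hsm.trans (hmono _ g5))
  obtain ⟨ν, hνe⟩ : ∃ ν : ℝ, ν = min (η / (2 * q)) (ν₁ / 2) := ⟨_, rfl⟩
  have hν : 0 < ν := by rw [hνe]; exact lt_min (by positivity) (by positivity)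
  have hνη : ν ≤ η / (2 * q) := by rw [hνe]; exact min_le_left _ _
  have hνν : ν ≤ ν₁ / 2 := by rw [hνe]; exact min_le_right _ _
  have hνq : ν ≤ 1 / q := by linarith
  obtain ⟨w, hw⟩ : ∃ w : ℝ, w = 8 * ((m : ℝ) ^ 2 * wt hS.toFinset + |C₀|) * q := ⟨_, rfl⟩
  have hw0 : 0 ≤ w := by
    rw [hw]
    have := wt_nonneg hS.toFinset
    positivity
  obtain ⟨X₁, hX₁⟩ : ∃ X₁ : ℝ, X₁ = Real.exp (w / κ + 1) := ⟨_, rfl⟩
  have hX₁1 : 1 < X₁ := by
    rw [hX₁, Real.one_lt_exp_iff]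
    have : 0 ≤ w / κ := div_nonneg hw0 hκ.le
    linarith
  obtain ⟨D6, hD6e⟩ : ∃ D6 : ℝ, D6 = (C₂ * X₁ ^ (2 / (q : ℝ) + δ)) ^ m := ⟨_, rfl⟩
  have hD6 : 0 ≤ D6 := by
    rw [hD6e]
    have := (Real.rpow_pos_of_pos (by linarith : 0 < X₁) (2 / (q : ℝ) + δ)).le
    positivity
  obtain ⟨D7, hD7e⟩ : ∃ D7 : ℝ, D7 = m * (C₁ * C₂ ^ (m - 1)) := ⟨_, rfl⟩
  have hD7 : 0 < D7 := by rw [hD7e]; positivity
  refine ⟨ν, D7 + (D0 + (D1 + (D2 + (D3 + (D4 + D5))))) + D6, hν, hνq, by positivity,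
    fun X hX => ?_⟩
  have hXp : 0 < X := by linarith
  obtain ⟨hT1, hT2⟩ := hall' X hX
  have hcf : (Conf S a m X).Finite := conf_fin hT1
  have hef : (CExc S a m κ C₀ X).Finite := hcf.subset fun x hx => hx.1
  refine ⟨hef, ?_⟩
  obtain ⟨W, hWe⟩ : ∃ W : ℝ, W = X ^ (2 * m / (q : ℝ) - ν) := ⟨_, rfl⟩
  have hq1 : 1 / (q : ℝ) ≤ 2 * m / q := div_le_div_of_nonneg_right (by linarith) hqp.le
  have hW1 : 1 ≤ W := by
    rw [hWe]
    exact Real.one_le_rpow hX (by linarith)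
  have hWν : ∀ e : ℝ, ν ≤ e → X ^ (2 * m / (q : ℝ) - e) ≤ W := by
    intro e he
    rw [hWe]
    exact Real.rpow_le_rpow_of_exponent_le hX (by linarith)
  rw [← hWe]
  rcases le_or_gt X₁ X with hXX | hXX
  · have hX1 : 1 < X := lt_of_lt_of_le hX₁1 hXX
    have hXlog : w ≤ κ * Real.log X := by
      have h1 : w / κ + 1 ≤ Real.log X := by
        rw [hX₁] at hXX
        exact (Real.le_log_iff_exp_le hXp).2 hXX
      have h2 : w / κ ≤ Real.log X := by linarith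
      rw [div_le_iff₀ hκ] at h2
      linarith
    obtain ⟨T, hT⟩ : ∃ T : Finset K, T = hT1.toFinset := ⟨_, rfl⟩
    have hTc : (T.card : ℝ) ≤ C₂ * X ^ (2 / (q : ℝ) + δ) := by
      rw [hT, ← Set.ncard_eq_toFinset_card _ hT1]
      exact hT2
    obtain ⟨hE1, hE2⟩ := hexc X hX
    obtain ⟨E, hE⟩ : ∃ E : Finset K, E = hE1.toFinset := ⟨_, rfl⟩
    have hEc : (E.card : ℝ) ≤ C₁ * X ^ (2 / (q : ℝ) - ν₁) := by
      rw [hE, ← Set.ncard_eq_toFinset_card _ hE1]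
      exact hE2
    obtain ⟨B, hB⟩ : ∃ B : Finset (Fin m → K), B = hef.toFinset := ⟨_, rfl⟩
    have hBm' : ∀ x, x ∈ B ↔ x ∈ CExc S a m κ C₀ X := fun x => by
      rw [hB, Set.Finite.mem_toFinset]
    have hBT : ∀ x ∈ B, ∀ i, x i ∈ T := by
      intro x hx i
      rw [hT, Set.Finite.mem_toFinset]
      exact ((hBm' x).1 hx).1.1 i
    have hcard : (CExc S a m κ C₀ X).ncard = B.card := by
      rw [hB, ← Set.ncard_eq_toFinset_card _ hef]
    rw [hcard]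
    obtain ⟨Y, hY⟩ : ∃ Y : ℝ, Y = (1 / (q : ℝ) + κ₁) * Real.log X := ⟨_, rfl⟩
    rw [hw] at hXlog
    rw [hBm] at hτκ
    have hbad := fun x (hx : x ∈ B) (h : ∀ i, x i ∉ GExc K S a κ₂ 0 X) =>
      bad_of_exc (x := x) hq hm hS hκ hκ₁ hκ₁1 hκ₂ hκ₂κ hκ₂κ₁ hτ hτκ hX1 hXlog
        ((hBm' x).1 hx) h
    have k0' := k0 X hX T hTc (B.filter fun x => ∃ σ : Fin 1 → Fin m, Function.Injective σ ∧
      Bad0 ((1 / (q : ℝ) + κ₁) * Real.log X) (fun s => x (σ s))) (fun x hx => by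
        rw [Finset.mem_filter] at hx; exact ⟨hBT x hx.1, hx.2⟩)
    have k1' := k1 X hX T hTc (B.filter fun x => ∃ σ : Fin 2 → Fin m, Function.Injective σ ∧
      Bad1 τ ((1 / (q : ℝ) + κ₁) * Real.log X) (fun s => x (σ s))) (fun x hx => by
        rw [Finset.mem_filter] at hx; exact ⟨hBT x hx.1, hx.2⟩)
    have k2' := k2 X hX T hTc (B.filter fun x => ∃ σ : Fin 2 → Fin m, Function.Injective σ ∧
      Bad2 S a τ ((1 / (q : ℝ) + κ₁) * Real.log X) (fun s => x (σ s))) (fun x hx => by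
        rw [Finset.mem_filter] at hx; exact ⟨hBT x hx.1, hx.2⟩)
    have k3' := k3 X hX T hTc (B.filter fun x => ∃ σ : Fin 3 → Fin m, Function.Injective σ ∧
      Bad3 S a τ ((1 / (q : ℝ) + κ₁) * Real.log X) (fun s => x (σ s))) (fun x hx => by
        rw [Finset.mem_filter] at hx; exact ⟨hBT x hx.1, hx.2⟩)
    have k4' := k4 X hX T hTc (B.filter fun x => ∃ σ : Fin 3 → Fin m, Function.Injective σ ∧
      Bad4 τ ((1 / (q : ℝ) + κ₁) * Real.log X) (fun s => x (σ s))) (fun x hx => by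
        rw [Finset.mem_filter] at hx; exact ⟨hBT x hx.1, hx.2⟩)
    have k5' := k5 X hX T hTc (B.filter fun x => ∃ σ : Fin 4 → Fin m, Function.Injective σ ∧
      Bad5 τ ((1 / (q : ℝ) + κ₁) * Real.log X) (fun s => x (σ s))) (fun x hx => by
        rw [Finset.mem_filter] at hx; exact ⟨hBT x hx.1, hx.2⟩)
    have k6' := coord_count hm T E (B.filter fun x => ∃ i, x i ∈ E) (fun x hx => by
        rw [Finset.mem_filter] at hx; exact ⟨hBT x hx.1, hx.2⟩)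
    have hsub : B ⊆ (B.filter fun x => ∃ i, x i ∈ E) ∪
        ((B.filter fun x => ∃ σ : Fin 1 → Fin m, Function.Injective σ ∧
          Bad0 ((1 / (q : ℝ) + κ₁) * Real.log X) (fun s => x (σ s))) ∪
        ((B.filter fun x => ∃ σ : Fin 2 → Fin m, Function.Injective σ ∧
          Bad1 τ ((1 / (q : ℝ) + κ₁) * Real.log X) (fun s => x (σ s))) ∪
        ((B.filter fun x => ∃ σ : Fin 2 → Fin m, Function.Injective σ ∧
          Bad2 S a τ ((1 / (q : ℝ) + κ₁) * Real.log X) (fun s => x (σ s))) ∪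
        ((B.filter fun x => ∃ σ : Fin 3 → Fin m, Function.Injective σ ∧
          Bad3 S a τ ((1 / (q : ℝ) + κ₁) * Real.log X) (fun s => x (σ s))) ∪
        ((B.filter fun x => ∃ σ : Fin 3 → Fin m, Function.Injective σ ∧
          Bad4 τ ((1 / (q : ℝ) + κ₁) * Real.log X) (fun s => x (σ s))) ∪
        (B.filter fun x => ∃ σ : Fin 4 → Fin m, Function.Injective σ ∧
          Bad5 τ ((1 / (q : ℝ) + κ₁) * Real.log X) (fun s => x (σ s)))))))) := by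
      intro x hx
      simp only [Finset.mem_union, Finset.mem_filter]
      by_cases hxE : ∃ i, x i ∈ E
      · exact Or.inl ⟨hx, hxE⟩
      right
      have h1 : ∀ i, x i ∉ GExc K S a κ₂ 0 X := by
        intro i hi
        refine hxE ⟨i, ?_⟩
        rw [hE, Set.Finite.mem_toFinset]
        exact hi
      rcases hbad x hx h1 with h | h | h | h | h | h
      · exact Or.inl ⟨hx, h⟩
      · exact Or.inr (Or.inl ⟨hx, h⟩)
      · exact Or.inr (Or.inr (Or.inl ⟨hx, h⟩))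
      · exact Or.inr (Or.inr (Or.inr (Or.inl ⟨hx, h⟩)))
      · exact Or.inr (Or.inr (Or.inr (Or.inr (Or.inl ⟨hx, h⟩))))
      · exact Or.inr (Or.inr (Or.inr (Or.inr (Or.inr ⟨hx, h⟩))))
    have hle := (Finset.card_le_card hsub).trans ((Finset.card_union_le _ _).trans
      (Nat.add_le_add_left ((Finset.card_union_le _ _).trans
      (Nat.add_le_add_left ((Finset.card_union_le _ _).trans
      (Nat.add_le_add_left ((Finset.card_union_le _ _).trans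
      (Nat.add_le_add_left ((Finset.card_union_le _ _).trans
      (Nat.add_le_add_left (Finset.card_union_le _ _) _)) _)) _)) _)) _))
    have hle' : (B.card : ℝ) ≤ _ := Nat.cast_le.2 hle
    push_cast at hle'
    have hw' : ∀ (D e : ℝ), 0 ≤ D → ν ≤ e → D * X ^ (2 * m / (q : ℝ) - e) ≤ D * W :=
      fun D e hD he => mul_le_mul_of_nonneg_left (hWν e he) hD
    have j0 := k0'.trans (hw' D0 _ hD0.le (hνη.trans (hmono _ g0)))
    have j1 := k1'.trans (hw' D1 _ hD1.le (hνη.trans (hmono _ g1)))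
    have j2 := k2'.trans (hw' D2 _ hD2.le (hνη.trans (hmono _ g2)))
    have j3 := k3'.trans (hw' D3 _ hD3.le (hνη.trans (hmono _ g3)))
    have j4 := k4'.trans (hw' D4 _ hD4.le (hνη.trans (hmono _ g4)))
    have j5 := k5'.trans (hw' D5 _ hD5.le (hνη.trans (hmono _ g5)))
    have j6 : (m : ℝ) * ((E.card : ℝ) * (T.card : ℝ) ^ (m - 1)) ≤ D7 * W := by
      have h1 : (T.card : ℝ) ^ (m - 1) ≤ (C₂ * X ^ (2 / (q : ℝ) + δ)) ^ (m - 1) :=
        pow_le_pow_left₀ (Nat.cast_nonneg _) hTc _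
      have h2 : (C₂ * X ^ (2 / (q : ℝ) + δ)) ^ (m - 1) =
          C₂ ^ (m - 1) * X ^ ((2 / (q : ℝ) + δ) * ((m - 1 : ℕ) : ℝ)) := by
        rw [mul_pow, Real.rpow_mul hXp.le, Real.rpow_natCast]
      rw [h2] at h1
      have h3 : (E.card : ℝ) * (T.card : ℝ) ^ (m - 1) ≤ (C₁ * X ^ (2 / (q : ℝ) - ν₁)) *
          (C₂ ^ (m - 1) * X ^ ((2 / (q : ℝ) + δ) * ((m - 1 : ℕ) : ℝ))) :=
        mul_le_mul hEc h1 (by positivity) (by positivity)
      have h4 : (C₁ * X ^ (2 / (q : ℝ) - ν₁)) *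
          (C₂ ^ (m - 1) * X ^ ((2 / (q : ℝ) + δ) * ((m - 1 : ℕ) : ℝ))) =
          C₁ * C₂ ^ (m - 1) * X ^ (2 * m / (q : ℝ) - (ν₁ - δ * (m - 1))) := by
        have e1 : 2 * m / (q : ℝ) - (ν₁ - δ * (m - 1)) =
            (2 / (q : ℝ) - ν₁) + (2 / (q : ℝ) + δ) * ((m - 1 : ℕ) : ℝ) := by
          rw [Nat.cast_sub (by omega : 1 ≤ m)]
          push_cast
          ring
        rw [e1, Real.rpow_add hXp]
        ring
      rw [h4] at h3
      have h5 : ν ≤ ν₁ - δ * (m - 1) := by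
        have : δ * (m - 1) ≤ m * δ := by nlinarith
        linarith
      have h6 := h3.trans (hw' (C₁ * C₂ ^ (m - 1)) _ (by positivity) h5)
      have h7 := mul_le_mul_of_nonneg_left h6 hm0.le
      refine h7.trans (le_of_eq ?_)
      rw [hD7e]
      ring
    have j7 := k6'.trans j6
    have j8 : 0 ≤ D6 * W := mul_nonneg hD6 (by linarith)
    have j9 : (D7 + (D0 + (D1 + (D2 + (D3 + (D4 + D5))))) + D6) * W =
        D7 * W + (D0 * W + (D1 * W + (D2 * W + (D3 * W + (D4 * W + D5 * W))))) + D6 * W := by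
      ring
    rw [j9]
    linarith
  · have h1 : ((CExc S a m κ C₀ X).ncard : ℝ) ≤ ((GVal K S a X).ncard : ℝ) ^ m := by
      have h2 : (CExc S a m κ C₀ X).ncard ≤ (Conf S a m X).ncard :=
        Set.ncard_le_ncard (fun x hx => hx.1) hcf
      exact_mod_cast h2.trans (conf_card hT1)
    have h2 : ((GVal K S a X).ncard : ℝ) ≤ C₂ * X₁ ^ (2 / (q : ℝ) + δ) := by
      refine hT2.trans (mul_le_mul_of_nonneg_left ?_ hC₂.le)
      exact Real.rpow_le_rpow hXp.le hXX.le (by positivity)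
    have h3 : ((CExc S a m κ C₀ X).ncard : ℝ) ≤ D6 := by
      rw [hD6e]
      exact h1.trans (pow_le_pow_left₀ (Nat.cast_nonneg _) h2 m)
    have h4 : D6 ≤ D6 * W := le_mul_of_one_le_right hD6 hW1
    have h5 : 0 ≤ (D7 + (D0 + (D1 + (D2 + (D3 + (D4 + D5)))))) * W := by positivity
    rw [add_mul]
    linarith

end Pool.Agent.Y728.MN
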